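import Pool.Statements.S00166
import Pool.Agent.Helper71.FC.Final

set_option autoImplicit false
open Pool Pool.MP_45a28a_ag

namespace Pool.Agent.S00166

/-- The negation of the preceding statement: The number of Zariski-irreducible components of the space of codimension one degree three foliations on P^n (integrable, radial-annihilated degree-4 one-forms with codim ≥ 2 singular set) is not the same for all n ≥ 3. -/
theorem result :
    ¬ (∃ c : ℕ → ℕ,
      (∀ n : ℕ, 3 ≤ n →
        c n = Set.ncard {S : Set (Fin (n+1) → MvPolynomial (Fin (n+1)) ℂ) |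
          Maximal (fun t : Set (Fin (n+1) → MvPolynomial (Fin (n+1)) ℂ) =>
            t ⊆ {A : Fin (n+1) → MvPolynomial (Fin (n+1)) ℂ |
              (∀ i, (A i).IsHomogeneous 4) ∧
              (∑ i, (MvPolynomial.X i : MvPolynomial (Fin (n+1)) ℂ) * A i) = 0 ∧
              (∀ i j k : Fin (n+1),
                A i * (MvPolynomial.pderiv j (A k) - MvPolynomial.pderiv k (A j)) +
                A j * (MvPolynomial.pderiv k (A i) - MvPolynomial.pderiv i (A k)) +
                A k * (MvPolynomial.pderiv i (A j) - MvPolynomial.pderiv j (A i)) = 0) ∧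
              (∀ p : MvPolynomial (Fin (n+1)) ℂ, (∀ i, p ∣ A i) → IsUnit p)} ∧
            @IsIrreducible (Fin (n+1) → MvPolynomial (Fin (n+1)) ℂ)
              (TopologicalSpace.generateFrom
                {U : Set (Fin (n+1) → MvPolynomial (Fin (n+1)) ℂ) |
                  ∃ f : MvPolynomial (Fin (n+1) × (Fin (n+1) →₀ ℕ)) ℂ,
                    U = {A : Fin (n+1) → MvPolynomial (Fin (n+1)) ℂ |
                      MvPolynomial.eval (fun q : Fin (n+1) × (Fin (n+1) →₀ ℕ) =>
                        (A q.1).coeff q.2) f ≠ 0}}) t) S}) ∧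
      ∃ n m : ℕ, 3 ≤ n ∧ 3 ≤ m ∧ c n ≠ c m) := by
  exact Pool.Agent.Helper71.FC.not_main_of Pool.Agent.Helper71.FC.cl_three

end Pool.Agent.S00166
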