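import Pool.Statements.S00424
import Pool.Agent.Helper85.RIG.Main

set_option autoImplicit false
open Pool Pool.MP_c155e6_ag

namespace Pool.Agent.S00424

/-- The negation of the preceding statement: There is a quotient A of a complex formal power series ring by an ideal I, with A a normal 2-dimensional domain not isomorphic to C[[x,y]], such that every module map I→A extends to a derivation into A, i.e. T^1(A)=0. -/
theorem result :
    ¬ (∃ (n : ℕ) (I : Ideal (MvPowerSeries (Fin n) ℂ)),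
      IsDomain (MvPowerSeries (Fin n) ℂ ⧸ I) ∧
      IsIntegrallyClosed (MvPowerSeries (Fin n) ℂ ⧸ I) ∧
      ringKrullDim (MvPowerSeries (Fin n) ℂ ⧸ I) = 2 ∧
      IsEmpty ((MvPowerSeries (Fin n) ℂ ⧸ I) ≃ₐ[ℂ] MvPowerSeries (Fin 2) ℂ) ∧
      ∀ φ : I →ₗ[MvPowerSeries (Fin n) ℂ] (MvPowerSeries (Fin n) ℂ ⧸ I),
        ∃ D : Derivation ℂ (MvPowerSeries (Fin n) ℂ) (MvPowerSeries (Fin n) ℂ ⧸ I),
          ∀ x : I, D (x : MvPowerSeries (Fin n) ℂ) = φ x) := by
  rintro ⟨n, I, hdom, hnorm, hdim, hiso, hrig⟩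
  exact hiso.false (Pool.Agent.Helper85.RIG.rigid_imp_smooth I hdim hrig).some

end Pool.Agent.S00424
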