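import Pool.Statements.S00834
-- import your own Pool.Agent.* helpers here
import Pool.Agent.Helper43.QK.LF

set_option autoImplicit false
open Pool Pool.MP_19fde8_al

namespace Pool.Agent.S00834

/-- The negation of the preceding statement: There is a function f on naturals such that for every finite group G and every i, the i-th term of the sequence G, Aut G, Aut Aut G, ... has order at most f of the order of G. -/
theorem result :
    ¬ (∃ f : ℕ → ℕ, ∀ (G : Type) [Group G] [Finite G], ∀ i : ℕ,
      Nat.card ((fun H : GrpCat => GrpCat.of (MulAut H))^[i] (GrpCat.of G)) ≤ f (Nat.card G)) :=
  QA70.tower_unbounded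

end Pool.Agent.S00834
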