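import Pool.Statements.S01117

set_option autoImplicit false
open Pool Pool.MP_32c87b_al

namespace Pool.Agent.S01117

/-- The underlying set of the poset: a chain of points `w j` indexed by a well-ordered set with two
extra top elements, and for each index `i` a copy `p g i` of the group. -/
inductive Om (G K : Type) : Type
  | w (j : WithTop (WithTop K)) : Om G K
  | p (g : G) (i : WithTop (WithTop K)) : Om G K

/-- The order relation between copies of the group. -/
def Rel {G K : Type} [Group G] [Lattice G] (c : K → G) (i j : WithTop (WithTop K)) (g h : G) :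
    Prop :=
  (i = j ∧ g ≤ h) ∨ ∃ a : K, j = ((a : WithTop K) : WithTop (WithTop K)) ∧
    ((i = ⊤ ∧ g * c a ≤ h) ∨ (i = ((⊤ : WithTop K) : WithTop (WithTop K)) ∧ g ≤ h))

/-- The order relation. -/
def le' {G K : Type} [Group G] [Lattice G] [LinearOrder K] (c : K → G) : Om G K → Om G K → Prop
  | .w i, .w j => j ≤ i
  | .w _, .p _ _ => False
  | .p _ i, .w j => j < i
  | .p g i, .p h j => Rel c i j g h

theorem Rel.idx {G K : Type} [Group G] [Lattice G] [LinearOrder K] {c : K → G}
    {i j : WithTop (WithTop K)} {g h : G} (H : Rel c i j g h) : j ≤ i := by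
  rcases H with ⟨rfl, _⟩ | ⟨a, rfl, ⟨rfl, _⟩ | ⟨rfl, _⟩⟩
  · exact le_rfl
  · exact le_top
  · exact WithTop.coe_le_coe.2 le_top

theorem Rel.trans {G K : Type} [Group G] [Lattice G] [MulRightMono G] [LinearOrder K] {c : K → G}
    {i j k : WithTop (WithTop K)} {g h l : G} (H : Rel c i j g h) (H' : Rel c j k h l) :
    Rel c i k g l := by
  rcases H with ⟨rfl, h1⟩ | ⟨a, rfl, h1⟩
  · rcases H' with ⟨rfl, h2⟩ | ⟨a, rfl, ⟨rfl, h2⟩ | ⟨rfl, h2⟩⟩
    · exact Or.inl ⟨rfl, h1.trans h2⟩
    · exact Or.inr ⟨a, rfl, Or.inl ⟨rfl, (mul_le_mul_left h1 _).trans h2⟩⟩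
    · exact Or.inr ⟨a, rfl, Or.inr ⟨rfl, h1.trans h2⟩⟩
  · rcases H' with ⟨rfl, h2⟩ | ⟨b, rfl, ⟨h3, h2⟩ | ⟨h3, h2⟩⟩
    · rcases h1 with ⟨rfl, h1⟩ | ⟨rfl, h1⟩
      · exact Or.inr ⟨a, rfl, Or.inl ⟨rfl, h1.trans h2⟩⟩
      · exact Or.inr ⟨a, rfl, Or.inr ⟨rfl, h1.trans h2⟩⟩
    · exact absurd h3 (WithTop.coe_ne_top)
    · exact absurd (WithTop.coe_injective h3) (WithTop.coe_ne_top)

theorem Rel.antisymm {G K : Type} [Group G] [Lattice G] [LinearOrder K] {c : K → G}
    {i j : WithTop (WithTop K)} {g h : G} (H : Rel c i j g h) (H' : Rel c j i h g) :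
    i = j ∧ g = h := by
  have hij : i = j := le_antisymm H'.idx H.idx
  subst hij
  refine ⟨rfl, ?_⟩
  have key : ∀ {g h : G}, Rel c i i g h → g ≤ h := by
    intro g h H
    rcases H with ⟨_, h1⟩ | ⟨a, h0, ⟨h1, _⟩ | ⟨h1, _⟩⟩
    · exact h1
    · exact absurd (h0.symm.trans h1) WithTop.coe_ne_top
    · exact absurd (WithTop.coe_injective (h0.symm.trans h1)) WithTop.coe_ne_top
  exact le_antisymm (key H) (key H')

/-- The partial order. -/
@[instance_reducible]
def ord {G K : Type} [Group G] [Lattice G] [MulRightMono G] [LinearOrder K] (c : K → G) :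
    PartialOrder (Om G K) where
  le := le' c
  le_refl x := by
    cases x with
    | w j => exact le_refl j
    | p g i => exact Or.inl ⟨rfl, le_rfl⟩
  le_trans x y z := by
    intro h1 h2
    cases x with
    | w i =>
      cases y with
      | w j =>
        cases z with
        | w k => exact le_trans (α := WithTop (WithTop K)) h2 h1
        | p g k => exact h2
      | p g j => exact h1.elim
    | p g i =>
      cases y with
      | w j =>
        cases z with
        | w k => exact lt_of_le_of_lt (α := WithTop (WithTop K)) h2 h1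
        | p g k => exact h2.elim
      | p g' j =>
        cases z with
        | w k => exact lt_of_lt_of_le (α := WithTop (WithTop K)) h2 (Rel.idx h1)
        | p g'' k => exact Rel.trans h1 h2
  le_antisymm x y := by
    intro h1 h2
    cases x with
    | w i =>
      cases y with
      | w j => exact congrArg _ (le_antisymm (α := WithTop (WithTop K)) h2 h1)
      | p g j => exact h1.elim
    | p g i =>
      cases y with
      | w j => exact h2.elim
      | p g' j =>
        obtain ⟨rfl, rfl⟩ := Rel.antisymm h1 h2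
        rfl

/-- Left multiplication on the poset. -/
def act {G K : Type} [Group G] (x : G) : Om G K → Om G K
  | .w j => .w j
  | .p g i => .p (x * g) i

theorem act_mul {G K : Type} [Group G] (x y : G) (o : Om G K) :
    act (x * y) o = act x (act y o) := by
  cases o with
  | w j => rfl
  | p g i => simp [act, mul_assoc]

theorem act_one {G K : Type} [Group G] (o : Om G K) :
    act (1 : G) o = o := by
  cases o with
  | w j => rfl
  | p g i => simp [act]

theorem act_le {G K : Type} [Group G] [Lattice G] [MulLeftMono G] [LinearOrder K] (c : K → G)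
    (x : G) (o o' : Om G K) (h : le' c o o') : le' c (act x o) (act x o') := by
  cases o with
  | w i =>
    cases o' with
    | w j => exact h
    | p g j => exact h
  | p g i =>
    cases o' with
    | w j => exact h
    | p g' j =>
      rcases h with ⟨rfl, h1⟩ | ⟨a, rfl, ⟨rfl, h2⟩ | ⟨rfl, h2⟩⟩
      · exact Or.inl ⟨rfl, mul_le_mul_right h1 _⟩
      · refine Or.inr ⟨a, rfl, Or.inl ⟨rfl, ?_⟩⟩
        rw [mul_assoc]
        exact mul_le_mul_right h2 _
      · exact Or.inr ⟨a, rfl, Or.inr ⟨rfl, mul_le_mul_right h2 _⟩⟩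

/-- Left multiplication as an order automorphism. -/
def actIso {G K : Type} [Group G] [Lattice G] [MulLeftMono G] [MulRightMono G] [LinearOrder K]
    (c : K → G) (x : G) :
    letI := ord c
    (Om G K ≃o Om G K) :=
  letI := ord c
  { toFun := act x
    invFun := act x⁻¹
    left_inv := fun o => by rw [← act_mul, inv_mul_cancel, act_one]
    right_inv := fun o => by rw [← act_mul, mul_inv_cancel, act_one]
    map_rel_iff' := by
      intro o o'
      constructor
      · intro h
        have := act_le c x⁻¹ _ _ h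
        simp only [Equiv.coe_fn_mk, ← act_mul, inv_mul_cancel, act_one] at this
        exact this
      · intro h
        exact act_le c x _ _ h }

theorem exists_one_lt (G : Type) [Group G] [Lattice G] [MulLeftMono G] [Nontrivial G] :
    ∃ u : G, 1 < u := by
  obtain ⟨x, hx⟩ := exists_ne (1 : G)
  by_cases h : x ⊔ 1 = 1
  · have h1 : x ≤ 1 := h ▸ le_sup_left
    have h2 : 1 ≤ x⁻¹ := by
      have := mul_le_mul_right h1 x⁻¹
      simpa using this
    exact ⟨x⁻¹, lt_of_le_of_ne h2 (by intro h; exact hx (by simpa using h.symm))⟩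
  · exact ⟨x ⊔ 1, lt_of_le_of_ne le_sup_right (Ne.symm h)⟩

theorem rigid {G K : Type} [Group G] [Lattice G] [MulLeftMono G] [MulRightMono G] [LinearOrder K]
    [WellFoundedLT K] [Nontrivial G] (c : K → G) (hc : Function.Surjective c) :
    letI := ord c
    ∀ φ : Om G K ≃o Om G K, ∃ x : G, ∀ o, φ o = act x o := by
  let _ := ord c
  intro φ
  obtain ⟨u, hu⟩ := exists_one_lt G
  -- basic facts on the order
  have le_ww : ∀ i j : WithTop (WithTop K), (Om.w i : Om G K) ≤ Om.w j ↔ j ≤ i :=
    fun i j => Iff.rfl
  have le_wp : ∀ (i : WithTop (WithTop K)) (g : G) (j : WithTop (WithTop K)),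
    ¬ (Om.w i : Om G K) ≤ Om.p g j := fun i g j h => h
  have le_pw : ∀ (g : G) (i j : WithTop (WithTop K)), (Om.p g i : Om G K) ≤ Om.w j ↔ j < i :=
    fun g i j => Iff.rfl
  have le_pp : ∀ (g h : G) (i j : WithTop (WithTop K)),
    (Om.p g i : Om G K) ≤ Om.p h j ↔ Rel c i j g h := fun g h i j => Iff.rfl
  -- accessibility for the reversed order
  have acc_w : ∀ j : WithTop (WithTop K), Acc (fun a b : Om G K => b < a) (Om.w j) := by
    intro j
    induction j using WellFoundedLT.induction with
    | ind j ih =>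
      refine Acc.intro _ fun y hy => ?_
      cases y with
      | w i =>
        have h1 : i ≤ j := (le_ww j i).1 hy.le
        have h2 : i ≠ j := by rintro rfl; exact lt_irrefl _ hy
        exact ih i (lt_of_le_of_ne h1 h2)
      | p g i => exact (le_wp _ _ _ hy.le).elim
  have acc_p : ∀ o : Om G K, Acc (fun a b : Om G K => b < a) o → ∀ g i, o ≠ Om.p g i := by
    intro o ho
    induction ho with
    | intro o _ ih =>
      rintro g i rfl
      refine ih (Om.p (g * u) i) ?_ (g * u) i rfl
      have h1 : g < g * u := by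
        have h2 : g ≤ g * u := by
          have := mul_le_mul_right hu.le g
          simpa using this
        refine lt_of_le_of_ne h2 fun h => ?_
        have : u = 1 := by simpa using h.symm
        exact hu.ne' this
      refine lt_of_le_of_ne ((le_pp _ _ _ _).2 (Or.inl ⟨rfl, h1.le⟩)) fun h => ?_
      injection h with h3 h4
      exact h1.ne h3
  have acc_of : ∀ (ψ : Om G K ≃o Om G K) (o : Om G K),
      Acc (fun a b : Om G K => b < a) (ψ o) → Acc (fun a b : Om G K => b < a) o := by
    intro ψ o h
    generalize hz : ψ o = z at h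
    induction h generalizing o with
    | intro z _ ih =>
      subst hz
      exact Acc.intro _ fun y hy => ih (ψ y) (ψ.lt_iff_lt.2 hy) y rfl
  have w_of : ∀ (ψ : Om G K ≃o Om G K) (j : WithTop (WithTop K)), ∃ j', ψ (Om.w j) = Om.w j' := by
    intro ψ j
    have h1 : Acc (fun a b : Om G K => b < a) (ψ (Om.w j)) :=
      acc_of ψ.symm _ (by rw [OrderIso.symm_apply_apply]; exact acc_w j)
    cases h : ψ (Om.w j) with
    | w j' => exact ⟨j', rfl⟩
    | p g i => exact (acc_p _ h1 g i h).elim
  have p_of : ∀ (ψ : Om G K ≃o Om G K) (g : G) (i : WithTop (WithTop K)),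
      ∃ g' i', ψ (Om.p g i) = Om.p g' i' := by
    intro ψ g i
    cases h : ψ (Om.p g i) with
    | w j' =>
      exfalso
      have h1 : Acc (fun a b : Om G K => b < a) (ψ (Om.p g i)) := h ▸ acc_w j'
      exact acc_p _ (acc_of ψ _ h1) g i rfl
    | p g' i' => exact ⟨g', i', rfl⟩
  -- the chain of points `w j` is fixed pointwise
  have w_fix : ∀ (ψ : Om G K ≃o Om G K) (j : WithTop (WithTop K)), ψ (Om.w j) = Om.w j := by
    intro ψ j
    induction j using WellFoundedLT.induction with
    | ind j ih =>
      obtain ⟨j', hj'⟩ := w_of ψ j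
      obtain ⟨k, hk⟩ := w_of ψ.symm j
      have hk' : ψ (Om.w k) = Om.w j := by rw [← hk, OrderIso.apply_symm_apply]
      rcases lt_trichotomy j' j with h | h | h
      · have h1 := ih j' h
        rw [← hj'] at h1
        exact ψ.injective h1
      · rw [hj', h]
      · rcases lt_trichotomy k j with h' | h' | h'
        · have h1 := ih k h'
          rw [hk'] at h1
          injection h1 with h3
          exact absurd h3 h'.ne'
        · subst h'; exact hk'
        · have h1 : (Om.w k : Om G K) ≤ Om.w j := (le_ww _ _).2 h'.le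
          have h2 := ψ.monotone h1
          rw [hk', hj', le_ww] at h2
          exact absurd h2 (not_le_of_gt h)
  -- every copy of the group is preserved
  have p_fix : ∀ (ψ : Om G K ≃o Om G K) (g : G) (i : WithTop (WithTop K)),
      ∃ g', ψ (Om.p g i) = Om.p g' i := by
    intro ψ g i
    obtain ⟨g', i', h⟩ := p_of ψ g i
    have h1 : ∀ j, j < i ↔ j < i' := by
      intro j
      rw [← le_pw g i j, ← le_pw g' i' j, ← h, ← ψ.le_iff_le, w_fix ψ j]
    have h2 : i = i' := by
      rcases lt_trichotomy i i' with h3 | h3 | h3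
      · exact absurd ((h1 i).2 h3) (lt_irrefl _)
      · exact h3
      · exact absurd ((h1 i').1 h3) (lt_irrefl _)
    subst h2
    exact ⟨g', h⟩
  choose f hf using p_fix φ
  have fsurj : ∀ (i : WithTop (WithTop K)) (g : G), ∃ h, f h i = g := by
    intro i g
    obtain ⟨h, hh⟩ := p_fix φ.symm g i
    refine ⟨h, ?_⟩
    have h1 : φ (Om.p h i) = Om.p g i := by rw [← hh, OrderIso.apply_symm_apply]
    rw [hf] at h1
    injection h1
  have fRel : ∀ (i j : WithTop (WithTop K)) (g h : G),
      Rel c i j g h ↔ Rel c i j (f g i) (f h j) := by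
    intro i j g h
    rw [← le_pp, ← le_pp, ← hf, ← hf, φ.le_iff_le]
  -- simplification of the relation
  have rel_same : ∀ (i : WithTop (WithTop K)) (g h : G), Rel c i i g h ↔ g ≤ h := by
    intro i g h
    constructor
    · intro H
      rcases H with ⟨_, h1⟩ | ⟨a, h0, ⟨h1, _⟩ | ⟨h1, _⟩⟩
      · exact h1
      · exact absurd (h0.symm.trans h1) WithTop.coe_ne_top
      · exact absurd (WithTop.coe_injective (h0.symm.trans h1)) WithTop.coe_ne_top
    · intro H
      exact Or.inl ⟨rfl, H⟩
  have rel_top : ∀ (a : K) (g h : G),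
      Rel c ⊤ ((a : WithTop K) : WithTop (WithTop K)) g h ↔ g * c a ≤ h := by
    intro a g h
    constructor
    · rintro (⟨h1, _⟩ | ⟨b, h0, ⟨_, h2⟩ | ⟨h1, _⟩⟩)
      · exact absurd h1.symm WithTop.coe_ne_top
      · have := WithTop.coe_injective (WithTop.coe_injective h0)
        subst this
        exact h2
      · exact absurd h1.symm WithTop.coe_ne_top
    · intro H
      exact Or.inr ⟨a, rfl, Or.inl ⟨rfl, H⟩⟩
  have rel_mid : ∀ (a : K) (g h : G),
      Rel c ((⊤ : WithTop K) : WithTop (WithTop K)) ((a : WithTop K) : WithTop (WithTop K)) g h ↔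
        g ≤ h := by
    intro a g h
    constructor
    · rintro (⟨h1, _⟩ | ⟨b, h0, ⟨h1, _⟩ | ⟨_, h2⟩⟩)
      · exact absurd (WithTop.coe_injective h1).symm WithTop.coe_ne_top
      · exact absurd h1 WithTop.coe_ne_top
      · exact h2
    · intro H
      exact Or.inr ⟨a, rfl, Or.inr ⟨rfl, H⟩⟩
  have fmono : ∀ (i : WithTop (WithTop K)) (g h : G), g ≤ h → f g i ≤ f h i := by
    intro i g h hgh
    exact (rel_same i _ _).1 ((fRel i i g h).1 ((rel_same i g h).2 hgh))
  have key_top : ∀ (a : K) (g : G),
      f (g * c a) ((a : WithTop K) : WithTop (WithTop K)) = f g ⊤ * c a := by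
    intro a g
    apply le_antisymm
    · obtain ⟨h, hh⟩ := fsurj ((a : WithTop K) : WithTop (WithTop K)) (f g ⊤ * c a)
      rw [← hh]
      apply fmono
      rw [← rel_top, fRel, rel_top, hh]
    · have := (fRel ⊤ ((a : WithTop K) : WithTop (WithTop K)) g (g * c a)).1
        ((rel_top a g _).2 le_rfl)
      rwa [rel_top] at this
  have key_mid : ∀ (a : K) (g : G),
      f g ((a : WithTop K) : WithTop (WithTop K)) =
        f g ((⊤ : WithTop K) : WithTop (WithTop K)) := by
    intro a g
    apply le_antisymm
    · obtain ⟨h, hh⟩ := fsurj ((a : WithTop K) : WithTop (WithTop K))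
        (f g ((⊤ : WithTop K) : WithTop (WithTop K)))
      rw [← hh]
      apply fmono
      rw [← rel_mid a, fRel, rel_mid, hh]
    · have := (fRel ((⊤ : WithTop K) : WithTop (WithTop K))
        ((a : WithTop K) : WithTop (WithTop K)) g g).1 ((rel_mid a g _).2 le_rfl)
      rwa [rel_mid] at this
  obtain ⟨e, he⟩ := hc 1
  have top_mid : ∀ g : G, f g ⊤ = f g ((⊤ : WithTop K) : WithTop (WithTop K)) := by
    intro g
    have h1 := key_top e g
    rw [he, mul_one, mul_one, key_mid] at h1
    exact h1.symm
  have top_mul : ∀ g x : G, f (g * x) ⊤ = f g ⊤ * x := by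
    intro g x
    obtain ⟨a, rfl⟩ := hc x
    rw [top_mid, ← key_mid a, key_top]
  have ftop : ∀ g : G, f g ⊤ = f 1 ⊤ * g := by
    intro g
    have := top_mul 1 g
    rwa [one_mul] at this
  refine ⟨f 1 ⊤, ?_⟩
  intro o
  cases o with
  | w j => exact w_fix φ j
  | p g i =>
    rw [hf]
    change Om.p (f g i) i = Om.p (f 1 ⊤ * g) i
    congr 1
    rw [← ftop]
    induction i using WithTop.recTopCoe with
    | top => rfl
    | coe i =>
      induction i using WithTop.recTopCoe with
      | top => exact (top_mid g).symm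
      | coe a => rw [key_mid, top_mid]

/-- A copy of the type `G`, which will be well-ordered. -/
structure Cp (G : Type) : Type where
  /-- the underlying element -/
  val : G

/-- Every lattice-ordered group G is isomorphic, as a group and as an ordered set, to the group of order automorphisms of some poset Ω under composition, with automorphisms ordered pointwise. -/
theorem result :
    ∀ (G : Type) [Group G] [Lattice G] [MulLeftMono G] [MulRightMono G],
      ∃ (Ω : Type) (_ : PartialOrder Ω) (φ : G → (Ω ≃o Ω)),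
        Function.Bijective φ ∧
        (∀ a b : G, φ (a * b) = (φ b).trans (φ a)) ∧
        (∀ a b : G, a ≤ b ↔ ∀ x : Ω, φ a x ≤ φ b x) := by
  intro G _ _ _ _
  rcases subsingleton_or_nontrivial G with hG | hG
  · refine ⟨Unit, inferInstance, fun _ => OrderIso.refl _, ⟨fun a b _ => Subsingleton.elim _ _,
      fun ψ => ⟨1, ?_⟩⟩, ?_, ?_⟩
    · ext x
    · intro a b
      ext x
    · intro a b
      exact ⟨fun _ _ => le_rfl, fun _ => (Subsingleton.elim a b).le⟩
  · obtain ⟨_, _⟩ := exists_wellFoundedLT (Cp G)
    let c : Cp G → G := Cp.val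
    have hc : Function.Surjective c := fun g => ⟨⟨g⟩, rfl⟩
    refine ⟨Om G (Cp G), ord c, actIso c, ⟨?_, ?_⟩, ?_, ?_⟩
    · intro x y hxy
      have h1 : act x (Om.p 1 ⊤ : Om G (Cp G)) = act y (Om.p 1 ⊤) :=
        congrArg (fun ψ => ψ.toEquiv (Om.p 1 ⊤ : Om G (Cp G))) hxy
      injection h1 with h2
      simpa using h2
    · intro ψ
      obtain ⟨x, hx⟩ := rigid c hc ψ
      refine ⟨x, ?_⟩
      let _ := ord c
      exact OrderIso.ext (funext fun o => (hx o).symm)
    · intro a b
      let _ := ord c
      exact OrderIso.ext (funext fun o => act_mul a b o)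
    · intro a b
      let _ := ord c
      constructor
      · intro hab o
        cases o with
        | w j => exact le_refl j
        | p g i => exact Or.inl ⟨rfl, mul_le_mul_left hab g⟩
      · intro h
        have h1 := h (Om.p 1 ⊤)
        rcases h1 with ⟨_, h1⟩ | ⟨k, h0, _⟩
        · simpa using h1
        · exact absurd h0.symm WithTop.coe_ne_top

end Pool.Agent.S01117
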