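import Pool.Statements.S01161
import Pool.Agent.Helper41.Eggert.Final

set_option autoImplicit false
open Pool Pool.MP_3577db_al

namespace Pool.Agent.S01161

/-- For every odd prime p there is f>2 such that every finite-dimensional commutative nilpotent algebra R over a field of characteristic p has dim R at least f times the dimension of the span of the p-th powers of its elements. -/
theorem result :
    ∀ p : ℕ, p.Prime → p ≠ 2 →
      ∃ f : ℝ, 2 < f ∧
        ∀ (F : Type) [Field F] [CharP F p]
          (R : Type) [NonUnitalCommRing R] [Module F R] [IsScalarTower F R R]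
          [SMulCommClass F R R] [FiniteDimensional F R],
          (∃ n : ℕ, ∀ (a : R) (l : List R), l.length = n → l.foldr (· * ·) a = 0) →
          f * (Module.finrank F
                (Submodule.span F
                  (Set.range (fun a : R => (List.replicate (p - 1) a).foldr (· * ·) a))) : ℝ)
            ≤ (Module.finrank F R : ℝ) := by
  intro p hp hp2
  refine ⟨101 / 50, by norm_num, ?_⟩
  intro F _ _ R _ _ _ _ _ hnil
  haveI : Fact p.Prime := ⟨hp⟩
  obtain ⟨n, hn⟩ := hnil
  have h := Helper41.Eggert.weak_eggert (F := F) (R := R) p hp2
    ⟨n, fun a => hn a (List.replicate n a) List.length_replicate⟩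
  have h2 : (101 : ℝ) * (Module.finrank F (Submodule.span F
      (Set.range (fun a : R => (List.replicate (p - 1) a).foldr (· * ·) a))) : ℝ) ≤
      50 * (Module.finrank F R : ℝ) := by
    exact_mod_cast h
  linarith

end Pool.Agent.S01161
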