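import Pool.Statements.S01338
import Pool.Agent.Helper43.RD.Chain

set_option autoImplicit false
open Pool Pool.MP_44b994_al

namespace Pool.Agent.S01338

/-- The negation of the preceding statement: Every domain R in which every RD-pure submodule of every left module is pure satisfies both Ore conditions: any two nonzero elements have nonzero common right multiples and nonzero common left multiples. -/
theorem result :
    ¬ (∀ (R : Type) [Ring R] [IsDomain R],
      (∀ (M : Type) [AddCommGroup M] [Module R M] (N : Submodule R M),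
        (∀ (r : R) (x : M), r • x ∈ N → ∃ y ∈ N, r • y = r • x) →
        ∀ (m n : ℕ) (A : Matrix (Fin m) (Fin n) R) (x : Fin n → M),
          (∀ i, (∑ j, A i j • x j) ∈ N) →
          ∃ y : Fin n → M, (∀ j, y j ∈ N) ∧
            ∀ i, (∑ j, A i j • y j) = ∑ j, A i j • x j) →
      ∀ a b : R, a ≠ 0 → b ≠ 0 →
        (∃ x y : R, x ≠ 0 ∧ y ≠ 0 ∧ a * x = b * y) ∧
        (∃ x y : R, x ≠ 0 ∧ y ≠ 0 ∧ x * a = y * b)) := by
  intro h
  obtain ⟨R, hring, hdom, hrd, a, b, ha, hb, hab⟩ := Pool.Agent.Helper43.RD.exists_rd_not_ore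
  obtain ⟨⟨x, y, hx, -, hxy⟩, -⟩ := h R (by
    intro M _ _ N hN m n A x hx
    obtain ⟨y, hy1, hy2⟩ := hrd M N hN m n A x hx
    exact ⟨y, hy1, fun i => congrFun hy2 i⟩) a b ha hb
  exact hx (hab x y hxy)

end Pool.Agent.S01338
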