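import Pool.Statements.S02109
import Pool.Agent.Helper29.CP.Final

set_option autoImplicit false
open Pool Pool.MP_82cbb9_al

namespace Pool.Agent.S02109

/-- For every finite presentation whose group is soluble and of finite Prüfer rank (f.g. subgroups need at most r generators), deciding whether two words represent conjugate elements is computable. -/
theorem result :
    ∀ (n : ℕ) (R : Finset (FreeGroup (Fin n))),
      IsSolvable (FreeGroup (Fin n) ⧸ Subgroup.normalClosure (R : Set (FreeGroup (Fin n)))) →
      (∃ r : ℕ, ∀ H : Subgroup (FreeGroup (Fin n) ⧸ Subgroup.normalClosure (R : Set (FreeGroup (Fin n)))),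
        H.FG → ∃ s : Finset (FreeGroup (Fin n) ⧸ Subgroup.normalClosure (R : Set (FreeGroup (Fin n)))),
          s.card ≤ r ∧ Subgroup.closure (s : Set (FreeGroup (Fin n) ⧸ Subgroup.normalClosure (R : Set (FreeGroup (Fin n))))) = H) →
      ComputablePred (fun p : List (Fin n × Bool) × List (Fin n × Bool) =>
        IsConj
          (QuotientGroup.mk (FreeGroup.mk p.1) :
            FreeGroup (Fin n) ⧸ Subgroup.normalClosure (R : Set (FreeGroup (Fin n))))
          (QuotientGroup.mk (FreeGroup.mk p.2) :
            FreeGroup (Fin n) ⧸ Subgroup.normalClosure (R : Set (FreeGroup (Fin n))))) := by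
  intro n R hsol hrank
  exact Pool.Agent.CP.main n R hsol hrank

end Pool.Agent.S02109
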