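import Pool.Statements.S02234
import Pool.Agent.Helper43.NFB.Count
import Pool.Agent.Helper43.NFB.Ultra
import Pool.Agent.Helper43.NFB.Nil

set_option autoImplicit false
open FirstOrder FirstOrder.Language
open Pool Pool.MP_8ea9e7_al

namespace Pool.Agent.S02234

open Pool.Agent.Helper43.NFB Filter

/-- The negation of the preceding statement: For every finite algebra A in a finite signature that is nilpotent (via term-condition central series) and generates a congruence permutable variety V, some finite first-order theory has as models exactly the subdirectly irreducible members of V. -/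
theorem result :
    ¬ (∀ (L : FirstOrder.Language.{0,0}), Finite (Σ n, L.Functions n) →
    (∀ n, IsEmpty (L.Relations n)) →
    ∀ (A : Type) [Finite A] [Nonempty A] [L.Structure A],
    (∀ (B : Type) [L.Structure B],
      (∀ (n : ℕ) (t s : L.Term (Fin n)),
        (∀ v : Fin n → A, t.realize v = s.realize v) →
        ∀ w : Fin n → B, t.realize w = s.realize w) →
      ∀ (α β : B → B → Prop), Equivalence α → Equivalence β →
        (∀ (n : ℕ) (f : L.Functions n) (x y : Fin n → B),
          (∀ i, α (x i) (y i)) → α (Structure.funMap f x) (Structure.funMap f y)) →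
        (∀ (n : ℕ) (f : L.Functions n) (x y : Fin n → B),
          (∀ i, β (x i) (y i)) → β (Structure.funMap f x) (Structure.funMap f y)) →
        ∀ x y : B, (∃ z, α x z ∧ β z y) ↔ (∃ z, β x z ∧ α z y)) →
    (∃ (k : ℕ) (θ : ℕ → A → A → Prop),
      (∀ x y, θ 0 x y) ∧ (∀ x y, θ k x y ↔ x = y) ∧ (∀ i, Equivalence (θ i)) ∧
      (∀ (i n : ℕ) (f : L.Functions n) (x y : Fin n → A),
        (∀ j, θ i (x j) (y j)) → θ i (Structure.funMap f x) (Structure.funMap f y)) ∧
      (∀ i, i < k → ∀ (m n : ℕ) (t : L.Term (Fin m ⊕ Fin n)) (a b : Fin m → A)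
        (c d : Fin n → A), (∀ j, θ i (c j) (d j)) →
        θ (i + 1) (t.realize (Sum.elim a c)) (t.realize (Sum.elim a d)) →
        θ (i + 1) (t.realize (Sum.elim b c)) (t.realize (Sum.elim b d)))) →
    ∃ T : L.Theory, Set.Finite T ∧
      ∀ (B : Type) [L.Structure B],
        (FirstOrder.Language.Theory.Model B T ↔
          ((∀ (n : ℕ) (t s : L.Term (Fin n)),
              (∀ v : Fin n → A, t.realize v = s.realize v) →
              ∀ w : Fin n → B, t.realize w = s.realize w) ∧
            Nontrivial B ∧
            ∃ μ : B → B → Prop, Equivalence μ ∧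
              (∀ (n : ℕ) (f : L.Functions n) (x y : Fin n → B),
                (∀ i, μ (x i) (y i)) → μ (Structure.funMap f x) (Structure.funMap f y)) ∧
              (∃ x y : B, μ x y ∧ x ≠ y) ∧
              ∀ θ : B → B → Prop, Equivalence θ →
                (∀ (n : ℕ) (f : L.Functions n) (x y : Fin n → B),
                  (∀ i, θ (x i) (y i)) → θ (Structure.funMap f x) (Structure.funMap f y)) →
                (∃ x y : B, θ x y ∧ x ≠ y) → ∀ x y : B, μ x y → θ x y))) := by
  intro h
  let SA : LL.Structure AA := mkS OA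
  let SM : ∀ k : ℕ, LL.Structure (CC (3 * k + 1)) := fun k => mkS (OC (3 * k + 1))
  obtain ⟨T, hT, hmod⟩ := h LL finite_functions (fun n => inferInstanceAs (IsEmpty Empty)) AA
    (by
      intro B SB hB α β hα hβ cα cβ x y
      have hV : Var OA (ops B) := (var_iff (A := AA) (B := B)).1 hB
      have cα' := (compat_iff α).1 cα
      have cβ' := (compat_iff β).1 cβ
      exact ⟨perm hV α β hα hβ cα' cβ' x y, perm hV β α hβ hα cβ' cα' x y⟩)
    (by
      refine ⟨3, th, fun _ _ => trivial, fun _ _ => Iff.rfl, th_equiv, ?_, ?_⟩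
      · intro i
        exact (compat_iff (th i)).2 (th_compat i)
      · intro i hi m n t a b c d hcd
        obtain ⟨t', ht'⟩ := exists_tm t
        rw [ht', ht', ht', ht']
        exact term_condition i hi t' a b c d hcd)
  -- the ultraproduct is a subdirectly irreducible member of the variety
  let M : ℕ → Type := fun k => CC (3 * k + 1)
  let u : Ultrafilter ℕ := hyperfilter ℕ
  have hSI : SI (ops (PP M u)) (mkP M u fun k => ee (3 * k + 1)) :=
    SI_ultra M u _ fun k => SI_C (3 * k + 1)
  have hP : Theory.Model (PP M u) T := by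
    rw [hmod]
    refine ⟨?_, hSI.nontrivial, mono _ _, hSI.mono_equiv, (compat_iff _).2 hSI.mono_compat, ?_, ?_⟩
    · refine (var_iff (A := AA) (B := PP M u)).2 ?_
      intro N t s hts
      refine ident_ultra M u t s ?_
      have h1 : ∀ᶠ k in (u : Filter ℕ), N < 3 * k + 1 := by
        have h2 : ∀ᶠ k in atTop, N < 3 * k + 1 := by
          filter_upwards [eventually_ge_atTop N] with k hk
          omega
        rw [← Nat.cofinite_eq_atTop] at h2
        exact hyperfilter_le_cofinite h2
      exact h1.mono fun k hk => holds_C hk t s hts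
    · exact ⟨_, _, Or.inr rfl, hSI.ene (mkP M u fun k => ee (3 * k + 1))⟩
    · rintro θ hθ cθ ⟨x, y, hxy, hne⟩ z w hzw
      exact hSI.least θ hθ ((compat_iff θ).1 cθ) hxy hne z w hzw
  -- hence so is some `C (3k+1)`
  have hne : ∀ k, Nonempty (M k) := fun k => ⟨ee (3 * k + 1)⟩
  have hk : ∀ᶠ k in (u : Filter ℕ), ∀ φ ∈ T, Sentence.Realize (M k) φ := by
    rw [eventually_all_finite hT]
    intro φ hφ
    exact (Ultraproduct.sentence_realize φ).1 (hP.realize_of_mem φ hφ)
  obtain ⟨k, hk⟩ := hk.exists
  have hCk : Theory.Model (CC (3 * k + 1)) T := ⟨hk⟩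
  rw [hmod] at hCk
  have hvar : Var OA (OC (3 * k + 1)) := (var_iff (A := AA) (B := CC (3 * k + 1))).1 hCk.1
  exact not_ident_C k 0 (hvar _ _ _ (ident_A _ 0))

end Pool.Agent.S02234
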