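import Pool.Statements.S02317
import Pool.Agent.Helper40.SSQ.Embed

set_option autoImplicit false
open Pool Pool.MP_93ce36_al

namespace Pool.Agent.S02317

/-- Every partial quasigroup on n points closed under x(yx)=y (if yx=z is defined then xz=y is defined) embeds, for every t ≥ 2n, into a quasigroup of order t satisfying x(yx)=y. -/
theorem result :
    ∀ (n : ℕ) (P : Fin n → Fin n → Option (Fin n)),
      (∀ a b b' c, P a b = some c → P a b' = some c → b = b') →
      (∀ a a' b c, P a b = some c → P a' b = some c → a = a') →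
      (∀ x y z, P y x = some z → P x z = some y) →
      ∀ t : ℕ, 2 * n ≤ t →
        ∃ (f : Fin t → Fin t → Fin t) (φ : Fin n → Fin t),
          (∀ a, Function.Bijective (f a)) ∧
          (∀ b, Function.Bijective (fun a => f a b)) ∧
          (∀ x y, f x (f y x) = y) ∧
          Function.Injective φ ∧
          ∀ a b c, P a b = some c → f (φ a) (φ b) = φ c := by
  intro n P _ _ hP t ht
  obtain ⟨W, hW, T, hpss, hdom, hcard, ι, hι, hT⟩ := Pool.Agent.Helper40.SSQ.embed
    (fun a b c => P a b = some c) ⟨fun x y z h => hP _ _ _ h, fun x y z z' h h' => by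
      rw [h] at h'; exact Option.some.inj h'⟩ t (by rw [Fintype.card_fin]; exact ht)
  let e : W ≃ Fin t := Fintype.equivFinOfCardEq hcard
  have huniq : ∀ x y, ∃ z, T x y z ∧ ∀ z', T x y z' → z' = z := by
    intro x y
    obtain ⟨z, hz⟩ := hdom x y
    exact ⟨z, hz, fun z' hz' => hpss.func _ _ _ _ hz' hz⟩
  choose m hm hmu using huniq
  -- `m x y` is the unique `z` with `T x y z`
  have hm1 : ∀ x y, m x (m y x) = y := fun x y =>
    (hmu x (m y x) y (hpss.rot _ _ _ (hm y x))).symm
  have hinjl : ∀ a, Function.Injective (m a) := by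
    intro a b b' h
    have h1 := hpss.rot _ _ _ (hpss.rot _ _ _ (hm a b))
    have h2 := hpss.rot _ _ _ (hpss.rot _ _ _ (hm a b'))
    rw [h] at h1
    exact (hmu _ _ b h1).trans (hmu _ _ b' h2).symm
  have hinjr : ∀ b, Function.Injective (fun a => m a b) := by
    intro b a a' h
    simp only at h
    rw [← hm1 b a, h, hm1 b a']
  refine ⟨fun a b => e (m (e.symm a) (e.symm b)), fun a => e (ι a), ?_, ?_, ?_, ?_, ?_⟩
  · intro a
    apply Finite.injective_iff_bijective.1
    intro b b' h
    exact e.symm.injective (hinjl _ (e.injective h))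
  · intro b
    apply Finite.injective_iff_bijective.1
    intro a a' h
    exact e.symm.injective (hinjr (e.symm b) (e.injective h))
  · intro x y
    simp only [Equiv.symm_apply_apply]
    rw [hm1]
    simp
  · exact e.injective.comp hι
  · intro a b c h
    simp only [Equiv.symm_apply_apply]
    rw [← hmu _ _ _ (hT _ _ _ h)]

end Pool.Agent.S02317
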