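-- Disproof: a rank two existentially closed subgroup of the free group of rank four that is not a
-- free factor.
import Pool.Statements.S02332
import Pool.Agent.Helper36.ECMain

set_option autoImplicit false
open Pool Pool.MP_9442c3_al

namespace Pool.Agent.S02332

open Pool.Agent.Helper36.EC

/-- The dihedral group of order six. -/
abbrev Q6 := DihedralGroup 3

/-- The triples of `Q6` at which the word `p² q² e⁻³` takes the value `w`. -/
abbrev TT (w : Q6) := {t : Q6 × Q6 × Q6 // t.1 ^ 2 * t.2.1 ^ 2 * (t.2.2 ^ 3)⁻¹ = w}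

theorem card_one : Fintype.card (TT 1) = 54 := by
  rw [Fintype.card_subtype]
  decide +kernel

theorem card_rot : Fintype.card (TT (DihedralGroup.r 1)) = 27 := by
  rw [Fintype.card_subtype]
  decide +kernel

/-- The homomorphism to `Q6` attached to a triple. -/
def ev (t : Q6 × Q6 × Q6) : F4 →* Q6 := FreeGroup.lift ![1, t.2.2, t.1, t.2.1]

theorem ev_gb (t : Q6 × Q6 × Q6) : ev t gb = 1 := by simp [ev, gb]
theorem ev_gp (t : Q6 × Q6 × Q6) : ev t gp = t.1 := by simp [ev, gp]
theorem ev_gq (t : Q6 × Q6 × Q6) : ev t gq = t.2.1 := by simp [ev, gq]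
theorem ev_ge (t : Q6 × Q6 × Q6) : ev t ge = t.2.2 := by simp [ev, ge]
theorem ev_ga (t : Q6 × Q6 × Q6) : ev t ga = t.1 ^ 2 * t.2.1 ^ 2 * (t.2.2 ^ 3)⁻¹ := by
  rw [ga, map_mul, map_mul, map_inv, map_pow, map_pow, map_pow, ev_gp, ev_gq, ev_ge]

/-- Homomorphisms from the ambient group are determined by their values on the generators. -/
theorem hom_eq (f g : F4 →* Q6) (hb : f gb = g gb) (he : f ge = g ge) (hp : f gp = g gp)
    (hq : f gq = g gq) : f = g := by
  apply FreeGroup.ext_hom
  intro i
  fin_cases i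
  · exact hb
  · exact he
  · exact hp
  · exact hq

theorem not_free_factor (K : Subgroup F4)
    (hK : Function.Bijective (Monoid.Coprod.lift HF.subtype K.subtype)) : False := by
  let E : Monoid.Coprod HF K ≃* F4 := MulEquiv.ofBijective _ hK
  -- the homomorphism on `H` with `b ↦ 1` and `a ↦ r 1`
  let u : HF →* Q6 := ((FreeGroup.lift ![1, (DihedralGroup.r 1)⁻¹]).comp (psi 0)).comp HF.subtype
  have hub : u ⟨gb, gb_mem_HF⟩ = 1 := by
    change (FreeGroup.lift ![1, (DihedralGroup.r 1)⁻¹]) (psi 0 gb) = (1 : Q6)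
    rw [psi_gb]
    simp [xx]
  have hua : u ⟨ga, ga_mem_HF⟩ = DihedralGroup.r 1 := by
    change (FreeGroup.lift ![1, (DihedralGroup.r 1)⁻¹]) (psi 0 ga) = (DihedralGroup.r 1 : Q6)
    rw [psi_ga, al, xx, yy, map_mul, map_pow, map_inv, FreeGroup.lift_apply_of,
      FreeGroup.lift_apply_of]
    decide
  let tw : (F4 →* Q6) → (F4 →* Q6) := fun f =>
    (Monoid.Coprod.lift u (f.comp K.subtype)).comp E.symm.toMonoidHom
  have hEH : ∀ z (hz : z ∈ HF), E.symm z = Monoid.Coprod.inl ⟨z, hz⟩ := by
    intro z hz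
    rw [MulEquiv.symm_apply_eq]
    simp [E]
  have hEK : ∀ z (hz : z ∈ K), E.symm z = Monoid.Coprod.inr ⟨z, hz⟩ := by
    intro z hz
    rw [MulEquiv.symm_apply_eq]
    simp [E]
  have htwH : ∀ f z (hz : z ∈ HF), tw f z = u ⟨z, hz⟩ := by
    intro f z hz
    change Monoid.Coprod.lift u (f.comp K.subtype) (E.symm z) = _
    rw [hEH z hz, Monoid.Coprod.lift_apply_inl]
  have htwK : ∀ f z, z ∈ K → tw f z = f z := by
    intro f z hz
    change Monoid.Coprod.lift u (f.comp K.subtype) (E.symm z) = _
    rw [hEK z hz, Monoid.Coprod.lift_apply_inr]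
    rfl
  have hagree : ∀ f g : F4 →* Q6, (∀ z ∈ HF, f z = g z) → (∀ z ∈ K, f z = g z) → f = g := by
    intro f g h1 h2
    have h3 : f.comp E.toMonoidHom = g.comp E.toMonoidHom := by
      apply Monoid.Coprod.hom_ext
      · ext z
        have : E (Monoid.Coprod.inl z) = z := by simp [E]
        change f (E (Monoid.Coprod.inl z)) = g (E (Monoid.Coprod.inl z))
        rw [this]
        exact h1 z z.2
      · ext z
        have : E (Monoid.Coprod.inr z) = z := by simp [E]
        change f (E (Monoid.Coprod.inr z)) = g (E (Monoid.Coprod.inr z))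
        rw [this]
        exact h2 z z.2
    ext1 i
    have h4 := DFunLike.congr_fun h3 (E.symm (FreeGroup.of i))
    simpa using h4
  -- the twisting map is injective on the fibre over the trivial homomorphism
  let M : TT 1 → TT (DihedralGroup.r 1) := fun t =>
    ⟨(tw (ev t.1) gp, tw (ev t.1) gq, tw (ev t.1) ge), by
      have h1 : tw (ev t.1) ga = DihedralGroup.r 1 := by rw [htwH _ _ ga_mem_HF, hua]
      rw [← h1, ga, map_mul, map_mul, map_inv, map_pow, map_pow, map_pow]⟩
  have hM : Function.Injective M := by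
    intro s t hst
    have h0 := congrArg Subtype.val hst
    have hp : tw (ev s.1) gp = tw (ev t.1) gp := congrArg (fun v => v.1) h0
    have hq : tw (ev s.1) gq = tw (ev t.1) gq := congrArg (fun v => v.2.1) h0
    have he : tw (ev s.1) ge = tw (ev t.1) ge := congrArg (fun v => v.2.2) h0
    have hb : tw (ev s.1) gb = tw (ev t.1) gb := by
      rw [htwH _ _ gb_mem_HF, htwH _ _ gb_mem_HF]
    have h1 : tw (ev s.1) = tw (ev t.1) := hom_eq _ _ hb he hp hq
    have h2 : ev s.1 = ev t.1 := by
      apply hagree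
      · have h3 : Set.EqOn (ev s.1) (ev t.1) {ga, gb} := by
          rintro z (rfl | rfl)
          · rw [ev_ga, ev_ga, s.2, t.2]
          · rw [ev_gb, ev_gb]
        intro z hz
        exact MonoidHom.eqOn_closure h3 hz
      · intro z hz
        rw [← htwK (ev s.1) z hz, ← htwK (ev t.1) z hz, h1]
    apply Subtype.ext
    apply Prod.ext
    · rw [← ev_gp s.1, ← ev_gp t.1, h2]
    · apply Prod.ext
      · rw [← ev_gq s.1, ← ev_gq t.1, h2]
      · rw [← ev_ge s.1, ← ev_ge t.1, h2]
  have hcard := Fintype.card_le_of_injective M hM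
  rw [card_one, card_rot] at hcard
  omega

theorem iota_mem (w : G2) : iota w ∈ HF := by
  have h : (⊤ : Subgroup G2) ≤ HF.comap iota := by
    rw [← FreeGroup.closure_range_of, Subgroup.closure_le]
    rintro z ⟨i, rfl⟩
    fin_cases i
    · change iota xx ∈ HF
      rw [iota_xx]
      exact gb_mem_HF
    · change iota yy ∈ HF
      rw [iota_yy]
      exact HF.mul_mem (HF.inv_mem ga_mem_HF) (HF.pow_mem gb_mem_HF 2)
  exact h (Subgroup.mem_top w)

theorem psi_iota (w : G2) : psi 0 (iota w) = w := by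
  have h : (psi 0).comp iota = MonoidHom.id G2 := by
    apply FreeGroup.ext_hom
    intro i
    fin_cases i
    · change psi 0 (iota xx) = xx
      rw [iota_xx, psi_gb]
    · change psi 0 (iota yy) = yy
      rw [iota_yy, map_mul, map_inv, map_pow, psi_ga, psi_gb, al]
      group
  exact DFunLike.congr_fun h w

theorem existentially_closed (n : ℕ) (E I : Finset (Monoid.Coprod (FreeGroup (Fin n)) ↥HF))
    (h : ∃ x : Fin n → F4,
      (∀ w ∈ E, Monoid.Coprod.lift (FreeGroup.lift x) HF.subtype w = 1) ∧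
      (∀ v ∈ I, Monoid.Coprod.lift (FreeGroup.lift x) HF.subtype v ≠ 1)) :
    ∃ y : Fin n → ↥HF,
      (∀ w ∈ E, Monoid.Coprod.lift (FreeGroup.lift y) (MonoidHom.id ↥HF) w = 1) ∧
      (∀ v ∈ I, Monoid.Coprod.lift (FreeGroup.lift y) (MonoidHom.id ↥HF) v ≠ 1) := by
  classical
  obtain ⟨x, hE, hI⟩ := h
  let L : Monoid.Coprod (FreeGroup (Fin n)) ↥HF →* F4 :=
    Monoid.Coprod.lift (FreeGroup.lift x) HF.subtype
  obtain ⟨φ, hφa, hφb, hφ⟩ := discriminate (I.image L) (by
    intro s hs
    obtain ⟨v, hv, rfl⟩ := Finset.mem_image.mp hs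
    exact hI v hv)
  let π : F4 →* HF := (iota.comp φ).codRestrict HF (fun z => iota_mem _)
  have hπ : ∀ z : HF, π z = z := by
    intro z
    apply Subtype.ext
    change iota (φ z) = z
    have h3 : Set.EqOn (iota.comp φ) (MonoidHom.id F4) {ga, gb} := by
      rintro z (rfl | rfl)
      · change iota (φ ga) = ga
        rw [hφa, iota_al]
      · change iota (φ gb) = gb
        rw [hφb, iota_xx]
    exact MonoidHom.eqOn_closure h3 z.2
  have hcomp : Monoid.Coprod.lift (FreeGroup.lift (fun i => π (x i))) (MonoidHom.id ↥HF) =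
      π.comp L := by
    apply Monoid.Coprod.hom_ext
    · apply FreeGroup.ext_hom
      intro i
      simp [L]
    · ext1 z
      simp only [MonoidHom.comp_apply, L, Monoid.Coprod.lift_apply_inr]
      exact (hπ z).symm
  refine ⟨fun i => π (x i), ?_, ?_⟩
  · intro w hw
    rw [hcomp, MonoidHom.comp_apply]
    have : L w = 1 := hE w hw
    rw [this, map_one]
  · intro v hv h1
    rw [hcomp, MonoidHom.comp_apply] at h1
    have h2 : iota (φ (L v)) = 1 := congrArg Subtype.val h1
    have h3 : φ (L v) = 1 := by rw [← psi_iota (φ (L v)), h2, map_one]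
    exact hφ (L v) (Finset.mem_image_of_mem L hv) h3

/-- The negation of the preceding statement: In a free group of rank r ≥ 2, any subgroup H where every finite system of equations and inequations with constants in H that is solvable in the group is also solvable in H is nonabelian and is a free factor (the group is H free product some K). -/
theorem result :
    ¬ (∀ (r : ℕ), 2 ≤ r → ∀ H : Subgroup (FreeGroup (Fin r)),
      (∀ (n : ℕ) (E I : Finset (Monoid.Coprod (FreeGroup (Fin n)) ↥H)),
        (∃ x : Fin n → FreeGroup (Fin r),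
          (∀ w ∈ E, Monoid.Coprod.lift (FreeGroup.lift x) H.subtype w = 1) ∧
          (∀ v ∈ I, Monoid.Coprod.lift (FreeGroup.lift x) H.subtype v ≠ 1)) →
        (∃ y : Fin n → ↥H,
          (∀ w ∈ E, Monoid.Coprod.lift (FreeGroup.lift y) (MonoidHom.id ↥H) w = 1) ∧
          (∀ v ∈ I, Monoid.Coprod.lift (FreeGroup.lift y) (MonoidHom.id ↥H) v ≠ 1))) →
      (∃ a ∈ H, ∃ b ∈ H, a * b ≠ b * a) ∧
      ∃ K : Subgroup (FreeGroup (Fin r)),
        Function.Bijective (Monoid.Coprod.lift H.subtype K.subtype)) := by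
  intro hall
  obtain ⟨-, K, hK⟩ := hall 4 (by norm_num) HF existentially_closed
  exact not_free_factor K hK

end Pool.Agent.S02332
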