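import Pool.Statements.S02542
import Pool.Agent.Helper84.HornCP

set_option autoImplicit false
open Matrix
open Pool Pool.MP_a20134_al

namespace Pool.Agent.S02542

/-- The negation of the preceding statement: Take a rational 5x5 positive definite, entrywise positive, completely positive matrix on the boundary of the completely positive cone. Then for every nonnegative 5x5 B with A = BBᵀ, each rank-one term b_j b_jᵀ from a column of B has rational entries. -/
theorem result :
    ¬ (∀ A : Matrix (Fin 5) (Fin 5) ℝ,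
      (∀ i j, ∃ q : ℚ, A i j = (q : ℝ)) →
      A.PosDef →
      (∀ i j, 0 < A i j) →
      (∃ m : ℕ, ∃ C : Matrix (Fin 5) (Fin m) ℝ, (∀ i j, 0 ≤ C i j) ∧ A = C * Cᵀ) →
      (∀ ε : ℝ, 0 < ε → ∃ S : Matrix (Fin 5) (Fin 5) ℝ, Sᵀ = S ∧
          (∀ i j, |S i j - A i j| < ε) ∧
          ¬ ∃ m : ℕ, ∃ C : Matrix (Fin 5) (Fin m) ℝ, (∀ i j, 0 ≤ C i j) ∧ S = C * Cᵀ) →
      ∀ B : Matrix (Fin 5) (Fin 5) ℝ, (∀ i j, 0 ≤ B i j) → A = B * Bᵀ →
        ∀ j i l : Fin 5, ∃ r : ℚ, B i j * B l j = (r : ℝ)) := by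
  intro H
  obtain ⟨i, hi⟩ := Helper84.HornCP.all_irrational Helper84.HornCP.B_nonneg
    Helper84.HornCP.A_eq 0
  obtain ⟨r, hr⟩ := H Helper84.HornCP.A Helper84.HornCP.A_rat Helper84.HornCP.A_posDef
    Helper84.HornCP.A_pos
    ⟨5, Helper84.HornCP.B, Helper84.HornCP.B_nonneg, Helper84.HornCP.A_eq⟩
    (by
      intro ε hε
      refine ⟨Helper84.HornCP.A - (ε/2) • (1 : Matrix (Fin 5) (Fin 5) ℝ), ?_, ?_, ?_⟩
      · rw [transpose_sub, Helper84.HornCP.A_symm, transpose_smul, transpose_one]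
      · intro i j
        rw [Matrix.sub_apply, Matrix.smul_apply, sub_sub_cancel_left, abs_neg]
        by_cases hij : i = j
        · subst hij
          rw [Matrix.one_apply_eq, smul_eq_mul, mul_one, abs_of_pos (by linarith)]
          linarith
        · rw [Matrix.one_apply_ne hij, smul_zero, abs_zero]
          exact hε
      · rintro ⟨m, C, hC, hS⟩
        exact Helper84.HornCP.not_cp (half_pos hε) hC hS)
    Helper84.HornCP.B Helper84.HornCP.B_nonneg Helper84.HornCP.A_eq 0 i i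
  exact hi ⟨r, hr.symm⟩

end Pool.Agent.S02542
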