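import Pool.Statements.S03022
import Pool.Agent.Helper34.BadPartition

set_option autoImplicit false
open scoped Pointwise
open Pool Pool.MP_c8ecde_al

namespace Pool.Agent.S03022

/-- The negation of the preceding statement: For every group G and every partition of G into n cells, some cell A satisfies G = F·A·A⁻¹·F⁻¹ for some finite set F ⊆ G with at most n elements. -/
theorem result :
    ¬ (∀ (G : Type) [Group G] (n : ℕ) (A : Fin n → Set G),
      (∀ i j, i ≠ j → Disjoint (A i) (A j)) →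
      (⋃ i, A i) = Set.univ →
      ∃ i : Fin n, ∃ F : Finset G, F.card ≤ n ∧
        (F : Set G) * A i * (A i)⁻¹ * (F : Set G)⁻¹ = Set.univ) := by
  intro h
  have hm : Real.sqrt ((16 : ℕ) : ℝ) ≤ ((16 : ℕ) : ℝ) * (1 - Real.sqrt 2 / 2) := by
    have h16 : Real.sqrt ((16 : ℕ) : ℝ) = 4 := by
      rw [show (((16 : ℕ) : ℝ)) = 4 ^ 2 by norm_num]
      exact Real.sqrt_sq (by norm_num)
    have h2 : Real.sqrt 2 ≤ 3 / 2 := by
      rw [Real.sqrt_le_left (by norm_num)]
      norm_num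
    rw [h16]
    push_cast
    linarith
  obtain ⟨col, hcol⟩ := Pool.Agent.Helper34.BadPartition.exists_bad_colouring
    (c := 16) (m := 16) (by norm_num) hm
  obtain ⟨i, F, hF, hcov⟩ := h (FreeGroup ℕ) 16 (fun i => col ⁻¹' {i})
    (by
      intro i j hij
      rw [Set.disjoint_left]
      intro x hx hx'
      exact hij (hx.symm.trans hx'))
    (by
      rw [Set.eq_univ_iff_forall]
      intro x
      exact Set.mem_iUnion.2 ⟨col x, rfl⟩)
  obtain ⟨g, hg⟩ := hcol i F hF
  have hmem : g ∈ (F : Set (FreeGroup ℕ)) * (col ⁻¹' {i}) * (col ⁻¹' {i})⁻¹ *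
      (F : Set (FreeGroup ℕ))⁻¹ := by
    rw [hcov]; exact Set.mem_univ g
  obtain ⟨w, hw, y, hy, hwy⟩ := Set.mem_mul.1 hmem
  obtain ⟨u, hu, b, hb, hub⟩ := Set.mem_mul.1 hw
  obtain ⟨x, hx, a, ha, hxa⟩ := Set.mem_mul.1 hu
  have := hg x (by simpa using hx) y⁻¹ (by simpa using hy) a b⁻¹ ha hb
  apply this
  rw [inv_inv, inv_inv, hxa, hub, hwy]

end Pool.Agent.S03022
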