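import Pool.Statements.S03988
import Mathlib

set_option autoImplicit false
open Pool Pool.MP_1c6fe5_an

namespace Pool.Agent.S03988

open Topology Filter

/-- The semigroup of continuous self-maps of the one-point compactification of the naturals,
under composition. -/
structure Smap where
  /-- the underlying continuous map -/
  map : C(OnePoint ℕ, OnePoint ℕ)

instance : Semigroup Smap where
  mul a b := ⟨a.map.comp b.map⟩
  mul_assoc _ _ _ := rfl

/-- Constant maps. -/
def cst (x : OnePoint ℕ) : Smap := ⟨ContinuousMap.const _ x⟩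

theorem tendsto_step (x y : OnePoint ℕ) (m : ℕ) :
    Tendsto (fun n : ℕ => if n ≤ m then x else y) atTop (𝓝 y) := by
  refine tendsto_const_nhds.congr' ?_
  filter_upwards [eventually_gt_atTop m] with n hn
  rw [if_neg (by omega)]

/-- The step maps. -/
noncomputable def step (x y : OnePoint ℕ) (m : ℕ) : Smap :=
  ⟨OnePoint.continuousMapMkNat (fun n => if n ≤ m then x else y) y (tendsto_step x y m)⟩

theorem mul_cst (s : Smap) (x : OnePoint ℕ) : s * cst x = cst (s.map x) := rfl

theorem step_mul_cst (x y : OnePoint ℕ) (m n : ℕ) :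
    step x y m * cst (n : OnePoint ℕ) = cst (if n ≤ m then x else y) := rfl

/-- Every bounded real sequence converges along the hyperfilter. -/
theorem exists_ulim (u : ℕ → ℝ) (C : ℝ) (hu : ∀ n, |u n| ≤ C) :
    ∃ l : ℝ, Tendsto u (hyperfilter ℕ : Filter ℕ) (𝓝 l) := by
  have hc : IsCompact (Set.Icc (-C) C) := isCompact_Icc
  obtain ⟨l, -, hl⟩ := hc.ultrafilter_le_nhds ((hyperfilter ℕ).map u) (by
    rw [Ultrafilter.coe_map]
    simp only [le_principal_iff, mem_map]
    exact Filter.univ_mem' (fun n => abs_le.mp (hu n)))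
  exact ⟨l, hl⟩

theorem lp_bound (F : lp (fun _ : Smap => ℝ) ⊤) (t : Smap) : |F t| ≤ ‖F‖ := by
  have := lp.norm_apply_le_norm ENNReal.top_ne_zero F t
  simpa [Real.norm_eq_abs] using this

/-- ultrafilter limit functional along the constants `cst n` -/
noncomputable def ulim (F : lp (fun _ : Smap => ℝ) ⊤) : ℝ :=
  Classical.choose (exists_ulim (fun n : ℕ => F (cst (n : OnePoint ℕ))) ‖F‖
    (fun n => lp_bound F _))

theorem ulim_spec (F : lp (fun _ : Smap => ℝ) ⊤) :
    Tendsto (fun n : ℕ => F (cst (n : OnePoint ℕ))) (hyperfilter ℕ : Filter ℕ) (𝓝 (ulim F)) :=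
  Classical.choose_spec (exists_ulim (fun n : ℕ => F (cst (n : OnePoint ℕ))) ‖F‖
    (fun n => lp_bound F _))

/-- the ultrafilter limit as a continuous linear functional -/
noncomputable def ulimL : lp (fun _ : Smap => ℝ) ⊤ →L[ℝ] ℝ :=
  LinearMap.mkContinuous
    { toFun := ulim
      map_add' := fun F G => by
        refine tendsto_nhds_unique (ulim_spec (F + G)) ?_
        simpa using (ulim_spec F).add (ulim_spec G)
      map_smul' := fun c F => by
        refine tendsto_nhds_unique (ulim_spec (c • F)) ?_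
        simpa using (ulim_spec F).const_mul c } 1
    (fun F => by
      rw [one_mul]
      refine le_of_tendsto (ulim_spec F).norm ?_
      exact Filter.Eventually.of_forall (fun n => by simpa using lp_bound F _))

/-- evaluation functional -/
noncomputable def evL (t : Smap) : lp (fun _ : Smap => ℝ) ⊤ →L[ℝ] ℝ :=
  LinearMap.mkContinuous
    { toFun := fun F => F t
      map_add' := fun F G => by simp
      map_smul' := fun c F => by simp } 1
    (fun F => by
      rw [one_mul]
      exact lp_bound F t)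

/-- A weakly almost periodic function is constant on the constant maps. -/
theorem wap_const (f : Smap → ℝ) (F : lp (fun _ : Smap => ℝ) ⊤) (hF : ∀ t, F t = f t)
    (hc : IsCompact (closure (toWeakSpace ℝ (lp (fun _ : Smap => ℝ) ⊤) ''
            {G : lp (fun _ : Smap => ℝ) ⊤ | ∃ s : Smap, ∀ t : Smap, G t = f (s * t)})))
    (x y : OnePoint ℕ) : f (cst x) = f (cst y) := by
  -- the translates
  have hex : ∀ m : ℕ, ∃ G : lp (fun _ : Smap => ℝ) ⊤, ∀ t, G t = f (step x y m * t) := by
    intro m
    refine ⟨⟨fun t => f (step x y m * t), ?_⟩, fun t => rfl⟩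
    apply memℓp_infty
    refine ⟨‖F‖, ?_⟩
    rintro _ ⟨t, rfl⟩
    simp only [Real.norm_eq_abs]
    rw [← hF]
    exact lp_bound F _
  choose G hG using hex
  obtain ⟨g, -, hg⟩ := hc.ultrafilter_le_nhds
    ((hyperfilter ℕ).map (fun m => toWeakSpace ℝ (lp (fun _ : Smap => ℝ) ⊤) (G m))) (by
      rw [Ultrafilter.coe_map]
      simp only [le_principal_iff, mem_map]
      refine Filter.univ_mem' (fun m => subset_closure ⟨G m, ⟨step x y m, hG m⟩, rfl⟩))
  have hg' : Tendsto (fun m => toWeakSpace ℝ (lp (fun _ : Smap => ℝ) ⊤) (G m))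
      (hyperfilter ℕ : Filter ℕ) (𝓝 g) := hg
  have key : ∀ L : lp (fun _ : Smap => ℝ) ⊤ →L[ℝ] ℝ,
      Tendsto (fun m => L (G m)) (hyperfilter ℕ : Filter ℕ)
        (𝓝 (L ((toWeakSpace ℝ (lp (fun _ : Smap => ℝ) ⊤)).symm g))) := by
    intro L
    have hcont : Continuous fun w : WeakSpace ℝ (lp (fun _ : Smap => ℝ) ⊤) =>
        L ((toWeakSpace ℝ (lp (fun _ : Smap => ℝ) ⊤)).symm w) :=
      WeakBilin.eval_continuous (topDualPairing ℝ (lp (fun _ : Smap => ℝ) ⊤)).flip L
    exact (hcont.tendsto g).comp hg'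
  set g0 := (toWeakSpace ℝ (lp (fun _ : Smap => ℝ) ⊤)).symm g with hg0
  -- values at the constants
  have h1 : ∀ n : ℕ, g0 (cst (n : OnePoint ℕ)) = f (cst x) := by
    intro n
    have h := key (evL (cst (n : OnePoint ℕ)))
    refine tendsto_nhds_unique h ?_
    refine tendsto_const_nhds.congr' ?_
    have hmem : {m : ℕ | n ≤ m} ∈ (hyperfilter ℕ : Filter ℕ) :=
      Filter.mem_of_superset (Nat.hyperfilter_le_atTop (mem_atTop n)) (fun m hm => hm)
    filter_upwards [hmem] with m hm
    show f (cst x) = (G m) (cst (n : OnePoint ℕ))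
    rw [hG, step_mul_cst, if_pos hm]
  have h2 : ulim g0 = f (cst x) := by
    refine tendsto_nhds_unique (ulim_spec g0) ?_
    simp only [h1]
    exact tendsto_const_nhds
  have h3 : ulim g0 = f (cst y) := by
    have h := key ulimL
    refine tendsto_nhds_unique h ?_
    have h4 : ∀ m, ulimL (G m) = f (cst y) := by
      intro m
      show ulim (G m) = f (cst y)
      refine tendsto_nhds_unique (ulim_spec (G m)) ?_
      refine tendsto_const_nhds.congr' ?_
      have hmem : {n : ℕ | m < n} ∈ (hyperfilter ℕ : Filter ℕ) :=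
        Nat.hyperfilter_le_atTop (Ioi_mem_atTop m)
      filter_upwards [hmem] with n hn
      have hn' : m < n := hn
      rw [hG, step_mul_cst, if_neg (by omega)]
    simp only [h4]
    exact tendsto_const_nhds
  rw [← h2, h3]

/-- pull-back of functions along a continuous self-map -/
noncomputable def pull (s : Smap) : C(OnePoint ℕ, ℝ) →L[ℝ] C(OnePoint ℕ, ℝ) :=
  LinearMap.mkContinuous
    { toFun := fun g => g.comp s.map
      map_add' := fun _ _ => rfl
      map_smul' := fun _ _ => rfl } 1
    (fun g => by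
      rw [one_mul]
      exact (ContinuousMap.norm_le _ (norm_nonneg _)).2 (fun x => g.norm_coe_le_norm _))

theorem pull_apply (s : Smap) (g : C(OnePoint ℕ, ℝ)) : pull s g = g.comp s.map := rfl

theorem norm_pull_le (s : Smap) : ‖pull s‖ ≤ 1 :=
  LinearMap.mkContinuous_norm_le _ zero_le_one _

/-- the state space -/
def St : Set (StrongDual ℝ C(OnePoint ℕ, ℝ)) :=
  {φ | φ 1 = 1 ∧ ∀ g : C(OnePoint ℕ, ℝ), 0 ≤ g → 0 ≤ φ g}

theorem St_abs_le {φ : StrongDual ℝ C(OnePoint ℕ, ℝ)} (h : φ ∈ St) (g : C(OnePoint ℕ, ℝ)) :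
    |φ g| ≤ ‖g‖ := by
  have h1 : 0 ≤ φ (‖g‖ • (1 : C(OnePoint ℕ, ℝ)) - g) := by
    apply h.2
    intro x
    have := g.norm_coe_le_norm x
    rw [Real.norm_eq_abs, abs_le] at this
    simp
    linarith [this.2]
  have h2 : 0 ≤ φ (‖g‖ • (1 : C(OnePoint ℕ, ℝ)) + g) := by
    apply h.2
    intro x
    have := g.norm_coe_le_norm x
    rw [Real.norm_eq_abs, abs_le] at this
    simp
    linarith [this.1]
  rw [map_sub, map_smul, h.1] at h1
  rw [map_add, map_smul, h.1] at h2
  rw [abs_le]
  constructor <;> simp at h1 h2 <;> linarith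

theorem St_norm_le {φ : StrongDual ℝ C(OnePoint ℕ, ℝ)} (h : φ ∈ St) : ‖φ‖ ≤ 1 :=
  φ.opNorm_le_bound zero_le_one (fun g => by simpa using St_abs_le h g)

/-- evaluation at a point -/
noncomputable def dl (x : OnePoint ℕ) : StrongDual ℝ C(OnePoint ℕ, ℝ) :=
  LinearMap.mkContinuous
    { toFun := fun g => g x
      map_add' := fun _ _ => rfl
      map_smul' := fun _ _ => rfl } 1
    (fun g => by
      rw [one_mul]
      exact g.norm_coe_le_norm x)

theorem dl_apply (x : OnePoint ℕ) (g : C(OnePoint ℕ, ℝ)) : dl x g = g x := rfl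

theorem dl_mem (x : OnePoint ℕ) : dl x ∈ St := ⟨rfl, fun g hg => hg x⟩

theorem St_convex : Convex ℝ St := by
  intro φ hφ ψ hψ a b ha hb hab
  refine ⟨?_, fun g hg => ?_⟩
  · show a * φ 1 + b * ψ 1 = 1
    rw [hφ.1, hψ.1]; linarith
  · show 0 ≤ a * φ g + b * ψ g
    have := hφ.2 g hg
    have := hψ.2 g hg
    positivity

theorem St_compact : IsCompact (StrongDual.toWeakDual '' St) := by
  apply WeakDual.isCompact_of_bounded_of_closed
  · have hb : Bornology.IsBounded St := by
      exact isBounded_iff_forall_norm_le.2 ⟨1, fun φ hφ => St_norm_le hφ⟩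
    have : StrongDual.toWeakDual '' St = WeakDual.toStrongDual ⁻¹' St := by
      ext w
      constructor
      · rintro ⟨φ, hφ, rfl⟩
        exact hφ
      · intro hw
        exact ⟨WeakDual.toStrongDual w, hw, rfl⟩
    rw [this]
    exact WeakDual.isBounded_toStrongDual_preimage_iff_isBounded.2 hb
  · have : StrongDual.toWeakDual '' St =
        {w : WeakDual ℝ C(OnePoint ℕ, ℝ) | w 1 = 1} ∩
          ⋂ g : C(OnePoint ℕ, ℝ), {w : WeakDual ℝ C(OnePoint ℕ, ℝ) | 0 ≤ g → 0 ≤ w g} := by
      ext w
      simp only [Set.mem_inter_iff, Set.mem_iInter]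
      constructor
      · rintro ⟨φ, hφ, rfl⟩
        exact ⟨hφ.1, hφ.2⟩
      · intro hw
        exact ⟨WeakDual.toStrongDual w, ⟨hw.1, hw.2⟩, rfl⟩
    rw [this]
    apply IsClosed.inter
    · exact isClosed_eq (WeakDual.eval_continuous _) continuous_const
    · apply isClosed_iInter
      intro g
      by_cases hg : 0 ≤ g
      · simp only [hg, true_imp_iff]
        exact isClosed_le continuous_const (WeakDual.eval_continuous _)
      · simp only [hg, false_imp_iff]
        exact isClosed_univ

/-- indicator function of a finite point -/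
noncomputable def ind (n : ℕ) : C(OnePoint ℕ, ℝ) :=
  OnePoint.continuousMapMkNat (fun k => if k = n then 1 else 0) 0 (by
    refine tendsto_const_nhds.congr' ?_
    filter_upwards [eventually_gt_atTop n] with k hk
    rw [if_neg (by omega)])

theorem ind_coe (n k : ℕ) : ind n (k : OnePoint ℕ) = if k = n then 1 else 0 := rfl
theorem ind_infty (n : ℕ) : ind n (OnePoint.infty : OnePoint ℕ) = 0 := rfl

theorem sum_ind_coe (N k : ℕ) (a : ℕ → ℝ) :
    (∑ n ∈ Finset.range N, a n • ind n : C(OnePoint ℕ, ℝ)) (k : OnePoint ℕ)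
      = if k < N then a k else 0 := by
  rw [ContinuousMap.sum_apply]
  simp only [ContinuousMap.smul_apply, ind_coe, smul_eq_mul, mul_ite, mul_one, mul_zero]
  rw [Finset.sum_ite_eq]
  simp

theorem sum_ind_infty (N : ℕ) (a : ℕ → ℝ) :
    (∑ n ∈ Finset.range N, a n • ind n : C(OnePoint ℕ, ℝ)) (OnePoint.infty : OnePoint ℕ) = 0 := by
  rw [ContinuousMap.sum_apply]
  simp [ind_infty]

/-- The state space is norm separable. -/
theorem St_sep : TopologicalSpace.IsSeparable St := by
  have hcount : (Set.range dl).Countable := by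
    have : Countable (OnePoint ℕ) := inferInstanceAs (Countable (Option ℕ))
    exact Set.countable_range _
  have hsep : TopologicalSpace.IsSeparable
      (closure (Submodule.span ℝ (Set.range dl) : Set (StrongDual ℝ C(OnePoint ℕ, ℝ)))) :=
    (hcount.isSeparable.span (R := ℝ)).closure
  refine hsep.mono ?_
  intro φ hφ
  -- the masses
  set p : ℕ → ℝ := fun n => φ (ind n) with hp
  have hp0 : ∀ n, 0 ≤ p n := fun n => hφ.2 _ (by
    intro x
    induction x using OnePoint.rec with
    | infty => simp [ind_infty]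
    | coe k =>
      show (0 : ℝ) ≤ ind n (k : OnePoint ℕ)
      rw [ind_coe]
      split_ifs <;> norm_num)
  have hpsum : ∀ N, ∑ n ∈ Finset.range N, p n ≤ 1 := by
    intro N
    have h : 0 ≤ φ (1 - ∑ n ∈ Finset.range N, (1 : ℝ) • ind n) := by
      apply hφ.2
      intro x
      induction x using OnePoint.rec with
      | infty =>
        show (0 : ℝ) ≤ 1 - (∑ n ∈ Finset.range N, (1 : ℝ) • ind n : C(OnePoint ℕ, ℝ)) _
        rw [sum_ind_infty N (fun _ => 1)]
        norm_num
      | coe k =>
        show (0 : ℝ) ≤ 1 - (∑ n ∈ Finset.range N, (1 : ℝ) • ind n : C(OnePoint ℕ, ℝ)) _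
        rw [sum_ind_coe N k (fun _ => 1)]
        split_ifs <;> norm_num
    rw [map_sub, hφ.1, map_sum] at h
    simp only [one_smul] at h
    linarith
  have hsummable : Summable p := summable_of_sum_range_le hp0 hpsum
  have htail : Tendsto (fun N => (∑' n, p n) - ∑ n ∈ Finset.range N, p n) atTop (𝓝 0) := by
    have := hsummable.hasSum.tendsto_sum_nat
    simpa using (tendsto_const_nhds (x := ∑' n, p n)).sub this
  refine (Metric.mem_closure_iff (α := StrongDual ℝ C(OnePoint ℕ, ℝ))).2 ?_
  intro ε hε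
  obtain ⟨N, hN⟩ := (htail.eventually (gt_mem_nhds (show (0 : ℝ) < ε / 8 by positivity))).exists
  refine ⟨dl OnePoint.infty + ∑ n ∈ Finset.range N, p n • (dl (n : OnePoint ℕ) - dl OnePoint.infty),
    ?_, ?_⟩
  · apply Submodule.add_mem
    · exact Submodule.subset_span ⟨_, rfl⟩
    · apply Submodule.sum_mem
      intro n _
      apply Submodule.smul_mem
      exact Submodule.sub_mem _ (Submodule.subset_span ⟨_, rfl⟩) (Submodule.subset_span ⟨_, rfl⟩)
  · refine lt_of_le_of_lt (le_of_eq (dist_eq_norm (E := StrongDual ℝ C(OnePoint ℕ, ℝ)) _ _)) ?_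
    refine lt_of_le_of_lt (ContinuousLinearMap.opNorm_le_bound _ (by positivity :
      (0 : ℝ) ≤ ε / 2) ?_) (by linarith)
    intro g
    -- centred function
    set g0 : C(OnePoint ℕ, ℝ) := g - (g OnePoint.infty) • 1 with hg0
    have hg0b : ∀ x, |g0 x| ≤ 2 * ‖g‖ := by
      intro x
      have h1 := g.norm_coe_le_norm x
      have h2 := g.norm_coe_le_norm (OnePoint.infty : OnePoint ℕ)
      rw [Real.norm_eq_abs] at h1 h2
      have : g0 x = g x - g OnePoint.infty := by simp [hg0]
      rw [this]
      calc |g x - g OnePoint.infty| ≤ |g x| + |g OnePoint.infty| := abs_sub _ _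
        _ ≤ 2 * ‖g‖ := by linarith
    have hg0i : g0 OnePoint.infty = 0 := by simp [hg0]
    -- main estimate
    have hval : (φ - (dl OnePoint.infty +
        ∑ n ∈ Finset.range N, p n • (dl (n : OnePoint ℕ) - dl OnePoint.infty))) g
        = φ g0 - ∑ n ∈ Finset.range N, g0 (n : OnePoint ℕ) * p n := by
      have e1 : φ g = φ g0 + g OnePoint.infty := by
        rw [hg0, map_sub, map_smul, hφ.1]
        simp
      have e2 : (∑ n ∈ Finset.range N, p n • (dl (n : OnePoint ℕ) - dl OnePoint.infty)) g
          = ∑ n ∈ Finset.range N, g0 (n : OnePoint ℕ) * p n := by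
        rw [ContinuousLinearMap.sum_apply]
        refine Finset.sum_congr rfl (fun n _ => ?_)
        show p n * (g (n : OnePoint ℕ) - g OnePoint.infty) = g0 (n : OnePoint ℕ) * p n
        have : g0 (n : OnePoint ℕ) = g (n : OnePoint ℕ) - g OnePoint.infty := by simp [hg0]
        rw [this]; ring
      rw [ContinuousLinearMap.sub_apply, ContinuousLinearMap.add_apply, e1, e2, dl_apply]
      ring
    rw [hval, Real.norm_eq_abs]
    -- approximating g0 by finite sums
    have hfin : ∀ η : ℝ, 0 < η → |φ g0 - ∑ n ∈ Finset.range N, g0 (n : OnePoint ℕ) * p n|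
        ≤ 2 * ‖g‖ * (ε / 8) + η := by
      intro η hη
      have hg0cont : Tendsto (fun n : ℕ => g0 (n : OnePoint ℕ)) atTop (𝓝 (g0 OnePoint.infty)) :=
        (OnePoint.continuous_iff_from_nat _).1 g0.continuous
      rw [hg0i] at hg0cont
      have hev := (Metric.tendsto_atTop.1 hg0cont) η hη
      obtain ⟨M0, hM0⟩ := hev
      set M := max M0 N with hM
      have hMN : N ≤ M := le_max_right _ _
      have hdiff : ‖g0 - ∑ n ∈ Finset.range M, g0 (n : OnePoint ℕ) • ind n‖ ≤ η := by
        rw [ContinuousMap.norm_le _ hη.le]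
        intro x
        induction x using OnePoint.rec with
        | infty =>
          rw [ContinuousMap.sub_apply, sum_ind_infty M (fun n => g0 (n : OnePoint ℕ)), hg0i]
          simpa using hη.le
        | coe k =>
          rw [ContinuousMap.sub_apply, sum_ind_coe M k (fun n => g0 (n : OnePoint ℕ))]
          split_ifs with hk
          · simpa using hη.le
          · have := hM0 k (le_trans (le_max_left _ _) (not_lt.1 hk))
            rw [Real.dist_eq, sub_zero] at this
            simpa using this.le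
      have h1 : |φ (g0 - ∑ n ∈ Finset.range M, g0 (n : OnePoint ℕ) • ind n)| ≤ η :=
        (St_abs_le hφ _).trans hdiff
      have h2 : φ (g0 - ∑ n ∈ Finset.range M, g0 (n : OnePoint ℕ) • ind n)
          = φ g0 - ∑ n ∈ Finset.range M, g0 (n : OnePoint ℕ) * p n := by
        rw [map_sub, map_sum]
        congr 1
        refine Finset.sum_congr rfl (fun n _ => ?_)
        rw [map_smul]
        rfl
      have h3 : ∑ n ∈ Finset.range M, g0 (n : OnePoint ℕ) * p n
          = ∑ n ∈ Finset.range N, g0 (n : OnePoint ℕ) * p n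
            + ∑ n ∈ Finset.Ico N M, g0 (n : OnePoint ℕ) * p n :=
        (Finset.sum_range_add_sum_Ico _ hMN).symm
      have h4 : |∑ n ∈ Finset.Ico N M, g0 (n : OnePoint ℕ) * p n| ≤ 2 * ‖g‖ * (ε / 8) := by
        calc |∑ n ∈ Finset.Ico N M, g0 (n : OnePoint ℕ) * p n|
            ≤ ∑ n ∈ Finset.Ico N M, |g0 (n : OnePoint ℕ) * p n| := Finset.abs_sum_le_sum_abs _ _
          _ ≤ ∑ n ∈ Finset.Ico N M, (2 * ‖g‖) * p n := by
              refine Finset.sum_le_sum (fun n _ => ?_)
              rw [abs_mul, abs_of_nonneg (hp0 n)]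
              exact mul_le_mul_of_nonneg_right (hg0b _) (hp0 n)
          _ = 2 * ‖g‖ * ∑ n ∈ Finset.Ico N M, p n := by rw [Finset.mul_sum]
          _ ≤ 2 * ‖g‖ * (ε / 8) := by
              refine mul_le_mul_of_nonneg_left ?_ (by positivity)
              have h5 : ∑ n ∈ Finset.range M, p n ≤ ∑' n, p n :=
                hsummable.sum_le_tsum _ (fun n _ => hp0 n)
              have h6 := (Finset.sum_range_add_sum_Ico p hMN)
              linarith
      rw [h2] at h1
      rw [h3] at h1
      have h7 := abs_le.1 h1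
      have h8 := abs_le.1 h4
      rw [abs_le]
      constructor <;> linarith [h7.1, h7.2, h8.1, h8.2]
    have hlim : |φ g0 - ∑ n ∈ Finset.range N, g0 (n : OnePoint ℕ) * p n|
        ≤ 2 * ‖g‖ * (ε / 8) := le_of_forall_pos_le_add hfin
    have hgn := norm_nonneg g
    nlinarith

/-- The negation of the preceding statement: For every semigroup S: if WAP(S) has a left invariant mean, then every left action of S on a nonempty convex, norm-separable, weak*-compact subset of a real dual Banach space, by norm-nonexpansive weak*-continuous maps, has a common fixed point. -/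
theorem result :
    ¬ (∀ (S : Type) [Semigroup S] (W : (S → ℝ) → Prop),
      (∀ f : S → ℝ, W f ↔
        ∃ F : lp (fun _ : S => ℝ) ⊤, (∀ t, F t = f t) ∧
          IsCompact (closure (toWeakSpace ℝ (lp (fun _ : S => ℝ) ⊤) ''
            {G : lp (fun _ : S => ℝ) ⊤ | ∃ s : S, ∀ t : S, G t = f (s * t)}))) →
      (∃ m : (S → ℝ) → ℝ,
        (∀ f g : S → ℝ, W f → W g → m (f + g) = m f + m g) ∧
        (∀ (c : ℝ) (f : S → ℝ), W f → m (c • f) = c * m f) ∧
        (∀ f : S → ℝ, W f → (∀ t, 0 ≤ f t) → 0 ≤ m f) ∧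
        m (fun _ => 1) = 1 ∧
        (∀ (s : S) (f : S → ℝ), W f → m (fun t => f (s * t)) = m f)) →
      ∀ (X : Type) [NormedAddCommGroup X] [NormedSpace ℝ X] [CompleteSpace X]
        (C : Set (StrongDual ℝ X)) (T : S → StrongDual ℝ X → StrongDual ℝ X),
        C.Nonempty → Convex ℝ C → TopologicalSpace.IsSeparable C →
        IsCompact (StrongDual.toWeakDual '' C) →
        (∀ s, Set.MapsTo (T s) C C) →
        (∀ s t : S, ∀ φ ∈ C, T (s * t) φ = T s (T t φ)) →
        (∀ s : S, ∀ φ ∈ C, ∀ ψ ∈ C, ‖T s φ - T s ψ‖ ≤ ‖φ - ψ‖) →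
        (∀ s : S, ContinuousOn
          (fun ω => StrongDual.toWeakDual (T s (StrongDual.toWeakDual.symm ω)))
          (StrongDual.toWeakDual '' C)) →
        ∃ φ ∈ C, ∀ s : S, T s φ = φ) := by
  intro H
  have h := H Smap _ (fun f => Iff.rfl)
    ⟨fun f => f (cst OnePoint.infty), fun f g _ _ => rfl, fun c f _ => rfl,
      fun f _ hf => hf _, rfl, fun s f hf => by
        obtain ⟨F, hF, hc⟩ := hf
        show f (s * cst OnePoint.infty) = f (cst OnePoint.infty)
        rw [mul_cst]
        exact wap_const f F hF hc _ _⟩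
    C(OnePoint ℕ, ℝ) St (fun s φ => φ.comp (pull s))
    ⟨_, dl_mem OnePoint.infty⟩ St_convex St_sep St_compact
    (fun s φ hφ => ⟨hφ.1, fun g hg => hφ.2 _ (fun x => hg (s.map x))⟩)
    (fun s t φ _ => rfl)
    (fun s φ _ ψ _ => by
      rw [← ContinuousLinearMap.sub_comp]
      calc ‖(φ - ψ).comp (pull s)‖ ≤ ‖φ - ψ‖ * ‖pull s‖ := ContinuousLinearMap.opNorm_comp_le _ _
        _ ≤ ‖φ - ψ‖ * 1 := mul_le_mul_of_nonneg_left (norm_pull_le s) (norm_nonneg _)
        _ = ‖φ - ψ‖ := mul_one _)
    (fun s => by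
      apply Continuous.continuousOn
      apply WeakDual.continuous_of_continuous_eval
      intro g
      exact WeakDual.eval_continuous (pull s g))
  obtain ⟨φ, hφ, hfix⟩ := h
  -- the two constant maps push `φ` to two different point masses
  have e : ∀ x : OnePoint ℕ, ∀ g : C(OnePoint ℕ, ℝ), φ g = g x := by
    intro x g
    have h1 : φ (pull (cst x) g) = φ g := congrArg (fun ψ => ψ g) (hfix (cst x))
    have h2 : pull (cst x) g = (g x) • (1 : C(OnePoint ℕ, ℝ)) := by
      ext y
      simp [pull_apply, cst]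
    rw [← h1, h2, map_smul, hφ.1]
    simp
  have e0 := e ((0 : ℕ) : OnePoint ℕ) (ind 0)
  have e1 := e OnePoint.infty (ind 0)
  rw [ind_coe] at e0
  rw [ind_infty] at e1
  rw [e1] at e0
  norm_num at e0

end Pool.Agent.S03988
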