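import Pool.Statements.S03993
import Pool.Agent.Helper74.SN.Main

set_option autoImplicit false
open Pool Pool.MP_1dc0ca_an

namespace Pool.Agent.S03993

/-- In every nonseparable weakly compactly generated real Banach space with a C^∞-smooth equivalent norm, each equivalent norm is within ε of some C^∞-smooth equivalent norm on the unit ball, for every ε > 0. -/
theorem result :
  ∀ (X : Type) [NormedAddCommGroup X] [NormedSpace ℝ X] [CompleteSpace X],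
    (∃ K : Set (WeakSpace ℝ X), IsCompact K ∧
        Dense ((Submodule.span ℝ ((toWeakSpace ℝ X).symm '' K) : Submodule ℝ X) : Set X)) →
    ¬ TopologicalSpace.SeparableSpace X →
    (∃ p : Seminorm ℝ X, (∃ c > (0 : ℝ), ∃ C : ℝ, ∀ x : X, c * ‖x‖ ≤ p x ∧ p x ≤ C * ‖x‖) ∧
        ContDiffOn ℝ ((⊤ : ℕ∞) : WithTop ℕ∞) (fun x => p x) {x : X | x ≠ 0}) →
    ∀ p : Seminorm ℝ X, (∃ c > (0 : ℝ), ∃ C : ℝ, ∀ x : X, c * ‖x‖ ≤ p x ∧ p x ≤ C * ‖x‖) →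
    ∀ ε > (0 : ℝ), ∃ q : Seminorm ℝ X,
        (∃ c > (0 : ℝ), ∃ C : ℝ, ∀ x : X, c * ‖x‖ ≤ q x ∧ q x ≤ C * ‖x‖) ∧
        ContDiffOn ℝ ((⊤ : ℕ∞) : WithTop ℕ∞) (fun x => q x) {x : X | x ≠ 0} ∧
        ∀ x : X, ‖x‖ ≤ 1 → |p x - q x| ≤ ε := by
  intro X _ _ _ hW hns hp p hpe ε hε
  obtain ⟨q, h1, h2, h3⟩ := Pool.Agent.SN.main_thm X hW hns hp p hpe ε hε
  exact ⟨q, h1, h2, h3⟩

end Pool.Agent.S03993
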