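import Pool.Statements.S04174
import Pool.Agent.Helper50.Bergman3

set_option autoImplicit false
open Pool Pool.MP_2b4eae_an

namespace Pool.Agent.S04174

open Pool.Agent.Helper50.Bergman in
/-- The negation of the preceding statement: If α,β>−1, p,q>0, (α+1)/p=(β+1)/q and (p,α)≠(q,β), then any multiplicity pattern on the disc is the exact zero set of a nonzero function in A^p_α iff it is the exact zero set of a nonzero function in A^q_β. -/
theorem result :
    ¬ (∀ p q α β : ℝ, 0 < p → 0 < q → -1 < α → -1 < β →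
      (α + 1) / p = (β + 1) / q → (p, α) ≠ (q, β) →
      ∀ m : ℂ → ℕ,
        (∃ f : ℂ → ℂ, DifferentiableOn ℂ f (Metric.ball (0 : ℂ) 1) ∧
          (∫⁻ z in Metric.ball (0 : ℂ) 1,
              ENNReal.ofReal (‖f z‖ ^ p * (1 - ‖z‖) ^ α)) < ⊤ ∧
          (∃ z ∈ Metric.ball (0 : ℂ) 1, f z ≠ 0) ∧
          ∀ z ∈ Metric.ball (0 : ℂ) 1, analyticOrderAt f z = ((m z : ℕ) : ℕ∞)) ↔
        (∃ f : ℂ → ℂ, DifferentiableOn ℂ f (Metric.ball (0 : ℂ) 1) ∧
          (∫⁻ z in Metric.ball (0 : ℂ) 1,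
              ENNReal.ofReal (‖f z‖ ^ q * (1 - ‖z‖) ^ β)) < ⊤ ∧
          (∃ z ∈ Metric.ball (0 : ℂ) 1, f z ≠ 0) ∧
          ∀ z ∈ Metric.ball (0 : ℂ) 1, analyticOrderAt f z = ((m z : ℕ) : ℕ∞))) := by
  intro H
  have hTa : AnalyticOnNhd ℂ (T 0) (Metric.ball 0 1) :=
    (differentiableOn_T 0).analyticOnNhd Metric.isOpen_ball
  have h0mem : (0 : ℂ) ∈ Metric.ball (0 : ℂ) 1 := by simp
  have hT0 : T 0 0 ≠ 0 := by rw [T_zero]; exact one_ne_zero
  have hord : ∀ z ∈ Metric.ball (0 : ℂ) 1, analyticOrderAt (T 0) z ≠ ⊤ := by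
    intro z hz
    refine hTa.analyticOrderAt_ne_top_of_isPreconnected
      (convex_ball (0 : ℂ) 1).isPreconnected h0mem hz ?_
    rw [(hTa 0 h0mem).analyticOrderAt_eq_zero.2 hT0]
    exact ENat.zero_ne_top
  have h1 := H 1 2 0 1 one_pos two_pos (by norm_num) (by norm_num) (by norm_num)
    (by
      intro hcon
      have := congrArg Prod.fst hcon
      norm_num at this)
    (fun z => (analyticOrderAt (T 0) z).toNat)
  obtain ⟨g, hg1, hg2, -, hg4⟩ := h1.2 ⟨T 0, differentiableOn_T 0, by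
    simp only [Real.rpow_two, Real.rpow_one]
    exact in_A2, ⟨0, h0mem, hT0⟩, fun z hz => (ENat.coe_toNat (hord z hz)).symm⟩
  have h2 := not_in_A1 g hg1 (fun z hz => by rw [hg4 z hz]; exact ENat.coe_toNat (hord z hz))
  simp only [Real.rpow_one, Real.rpow_zero, mul_one] at hg2
  exact absurd h2 hg2.ne

end Pool.Agent.S04174
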