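import Pool.Statements.S04614
-- import your own Pool.Agent.* helpers here
import Pool.Agent.Helper53.Worm.Final

set_option autoImplicit false
open Pool Pool.MP_4c8440_an

namespace Pool.Agent.S04614

/-- The negation of the preceding statement: For every smoothly bounded Levi-pseudoconvex domain in C^n and every local holomorphic hypersurface V in it whose closure misses the Shilov boundary, there is a bounded holomorphic function on the domain, not identically zero, vanishing on V. -/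
theorem result :
    ¬ (∀ (n : ℕ) (Ω V : Set (Fin n → ℂ)) (ρ : (Fin n → ℂ) → ℝ),
    IsOpen Ω → IsConnected Ω → Bornology.IsBounded Ω →
    ContDiff ℝ ((⊤ : ℕ∞) : WithTop ℕ∞) ρ →
    Ω = {z | ρ z < 0} →
    (∀ z ∈ frontier Ω, fderiv ℝ ρ z ≠ 0) →
    (∀ z ∈ frontier Ω, ∀ w : Fin n → ℂ, fderiv ℝ ρ z w = 0 →
        fderiv ℝ ρ z (Complex.I • w) = 0 →
        0 ≤ iteratedFDeriv ℝ 2 ρ z ![w, w]
          + iteratedFDeriv ℝ 2 ρ z ![Complex.I • w, Complex.I • w]) →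
    V ⊆ Ω →
    (∀ p ∈ Ω, ∃ r > 0, Metric.ball p r ⊆ Ω ∧
        ∃ g : (Fin n → ℂ) → ℂ, DifferentiableOn ℂ g (Metric.ball p r) ∧
          (∃ z ∈ Metric.ball p r, g z ≠ 0) ∧
          ∀ z ∈ Metric.ball p r, (z ∈ V ↔ g z = 0)) →
    Disjoint (closure V)
      (⋂₀ {K : Set (Fin n → ℂ) | IsClosed K ∧ K ⊆ closure Ω ∧
          ∀ f : (Fin n → ℂ) → ℂ, ContinuousOn f (closure Ω) → DifferentiableOn ℂ f Ω →
            ∃ k ∈ K, ∀ z ∈ closure Ω, ‖f z‖ ≤ ‖f k‖}) →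
    ∃ f : (Fin n → ℂ) → ℂ, DifferentiableOn ℂ f Ω ∧
      (∃ M : ℝ, ∀ z ∈ Ω, ‖f z‖ ≤ M) ∧
      (∃ z ∈ Ω, f z ≠ 0) ∧
      ∀ v ∈ V, f v = 0) := by
  intro h
  obtain ⟨f, hfd, ⟨M, hM⟩, ⟨z, hz, hfz⟩, hV⟩ := h 2 Helper53.Worm.Om Helper53.Worm.VV
    Helper53.Worm.rho Helper53.Worm.isOpen_Om Helper53.Worm.isConnected_Om
    Helper53.Worm.isBounded_Om Helper53.Worm.contDiff_rho rfl
    (fun z hz => Helper53.Worm.rho_fderiv_ne hz)
    (fun z hz w h1 h2 => Helper53.Worm.rho_levi hz w h1 h2)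
    (fun z hz => hz.1) Helper53.Worm.VV_local Helper53.Worm.disjoint_closure_VV
  exact hfz (Helper53.Worm.f_eq_zero hfd hM hV z hz)

end Pool.Agent.S04614
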