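import Pool.Statements.S05220
import Pool.Agent.Helper59.EqMeas.Final

set_option autoImplicit false
open MeasureTheory
open Pool Pool.MP_816d1e_an

namespace Pool.Agent.S05220

/-- The negation of the preceding statement: Let K be a compact non-polar subset of the reals whose logarithmic equilibrium measure equals the h-Hausdorff measure restricted to K, for some continuous nondecreasing h with h(0)=0. Then K has Hausdorff dimension 0. -/
theorem result :
    ¬ (∀ (K : Set ℝ), IsCompact K →
  ∀ (h : NNReal → NNReal), Continuous h → Monotone h → h 0 = 0 →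
  ∀ (μ : Measure ℝ), IsProbabilityMeasure μ → μ Kᶜ = 0 →
  (∃ ν : Measure ℝ, IsProbabilityMeasure ν ∧ ν Kᶜ = 0 ∧
      (∫⁻ x, ∫⁻ y, (if x = y then (⊤ : ENNReal)
          else ENNReal.ofReal (Real.log (Metric.diam K + 1) - Real.log (dist x y))) ∂ν ∂ν) < ⊤) →
  (∀ ν : Measure ℝ, IsProbabilityMeasure ν → ν Kᶜ = 0 →
      (∫⁻ x, ∫⁻ y, (if x = y then (⊤ : ENNReal)
          else ENNReal.ofReal (Real.log (Metric.diam K + 1) - Real.log (dist x y))) ∂μ ∂μ)
        ≤ (∫⁻ x, ∫⁻ y, (if x = y then (⊤ : ENNReal)
          else ENNReal.ofReal (Real.log (Metric.diam K + 1) - Real.log (dist x y))) ∂ν ∂ν)) →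
  μ = (Measure.mkMetric (fun r : ENNReal => ((h r.toNNReal : NNReal) : ENNReal))).restrict K →
  dimH K = 0) := by
  intro H
  open Pool.Agent.Helper59.EqMeas in
  have hA : Real.log 2 ≤ Real.log (Metric.diam (K gam) + 1) := by
    apply Real.log_le_log (by norm_num)
    have := one_le_diam good_gam
    linarith
  open Pool.Agent.Helper59.EqMeas in
  have hA0 : 0 ≤ Real.log (Metric.diam (K gam) + 1) :=
    (Real.log_nonneg (by norm_num)).trans hA
  open Pool.Agent.Helper59.EqMeas in
  have key := H (K gam) (isCompact_K good_gam) (h gam) (h_continuous good_gam) (h_mono good_gam)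
    (h_zero good_gam) (mu gam) (isProbabilityMeasure_mu good_gam) (mu_compl_K good_gam)
    ⟨mu gam, isProbabilityMeasure_mu good_gam, mu_compl_K good_gam,
      energy_mu_lt_top good_gam slow_gam hA0⟩
    (fun ν hν hνK => by
      have := hν
      exact energy_mu_le good_gam slow_gam hA hνK)
    (mu_eq good_gam sparse_gam)
  open Pool.Agent.Helper59.EqMeas in
  have hdim := dimH_K_pos good_gam le_Gam_gam
  rw [key] at hdim
  have : (0 : ENNReal) < ((1 / 5 : NNReal) : ENNReal) := by
    rw [ENNReal.coe_pos]
    norm_num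
  exact absurd hdim (not_le.2 this)

end Pool.Agent.S05220
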