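import Pool.Statements.S05440
-- import your own Pool.Agent.* helpers here
import Pool.Agent.Helper35.Spl.Dim

set_option autoImplicit false
open Pool Pool.MP_93bcc1_an

namespace Pool.Agent.S05440

/-- The negation of the preceding statement: For every triangulation of a closed planar region homeomorphic to a disk, the space of C^1 piecewise cubic splines has dimension 10 − 7·(interior vertices) + 3·(interior edges) + (interior vertices whose edges lie on only two lines). -/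
theorem result :
    ¬ (∀ (T : Finset (Finset (ℝ × ℝ))) (Ω : Set (ℝ × ℝ)),
    (∀ t ∈ T, t.card = 3 ∧ AffineIndependent ℝ (Subtype.val : ↥(t : Set (ℝ × ℝ)) → ℝ × ℝ)) →
    (∀ t ∈ T, ∀ s ∈ T, convexHull ℝ (t : Set (ℝ × ℝ)) ∩ convexHull ℝ (s : Set (ℝ × ℝ)) =
        convexHull ℝ ((t : Set (ℝ × ℝ)) ∩ (s : Set (ℝ × ℝ)))) →
    Ω = ⋃ t ∈ T, convexHull ℝ (t : Set (ℝ × ℝ)) →
    Nonempty (Ω ≃ₜ Metric.closedBall (0 : EuclideanSpace ℝ (Fin 2)) 1) →
    (Module.finrank ℝ (Submodule.span ℝ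
        {p : T → MvPolynomial (Fin 2) ℝ |
          (∀ t, (p t).totalDegree ≤ 3) ∧
          ∀ t s : T, ∀ x ∈ convexHull ℝ ((t : Finset (ℝ × ℝ)) : Set (ℝ × ℝ)) ∩
              convexHull ℝ ((s : Finset (ℝ × ℝ)) : Set (ℝ × ℝ)),
            MvPolynomial.eval ![x.1, x.2] (p t) = MvPolynomial.eval ![x.1, x.2] (p s) ∧
            ∀ i : Fin 2, MvPolynomial.eval ![x.1, x.2] (MvPolynomial.pderiv i (p t)) =
              MvPolynomial.eval ![x.1, x.2] (MvPolynomial.pderiv i (p s))}) : ℤ)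
      = 10 - 7 * ({v : ℝ × ℝ | (∃ t ∈ T, v ∈ t) ∧ v ∈ interior Ω}.ncard : ℤ)
        + 3 * ({e : Finset (ℝ × ℝ) | e.card = 2 ∧ (∃ t ∈ T, e ⊆ t) ∧
              ∀ a ∈ e, ∀ b ∈ e, a ≠ b → midpoint ℝ a b ∈ interior Ω}.ncard : ℤ)
        + ({v : ℝ × ℝ | (∃ t ∈ T, v ∈ t) ∧ v ∈ interior Ω ∧
              ∃ d₁ d₂ : ℝ × ℝ, ∀ t ∈ T, v ∈ t → ∀ w ∈ t,
                (∃ c : ℝ, w - v = c • d₁) ∨ (∃ c : ℝ, w - v = c • d₂)}.ncard : ℤ)) := by
  intro H
  have h := H Pool.Agent.Helper35.Spl.TT Pool.Agent.Helper35.Spl.Om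
    (by
      intro t ht
      obtain ⟨i, rfl⟩ := Pool.Agent.Helper35.Spl.mem_TT.1 ht
      exact ⟨Pool.Agent.Helper35.Spl.card_triP i, Pool.Agent.Helper35.Spl.affInd i⟩)
    (by
      intro t ht s hs
      obtain ⟨i, rfl⟩ := Pool.Agent.Helper35.Spl.mem_TT.1 ht
      obtain ⟨j, rfl⟩ := Pool.Agent.Helper35.Spl.mem_TT.1 hs
      exact Pool.Agent.Helper35.Spl.conv_inter i j)
    Pool.Agent.Helper35.Spl.union_eq
    Pool.Agent.Helper35.Spl.Om_homeo
  rw [Pool.Agent.Helper35.Spl.count_vertices, Pool.Agent.Helper35.Spl.count_edges,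
    Pool.Agent.Helper35.Spl.count_singular] at h
  have h' : Module.finrank ℝ (Submodule.span ℝ
      (Pool.Agent.Helper35.Spl.SplSet Pool.Agent.Helper35.Spl.TT)) = 40 := by
    have h2 : ((Module.finrank ℝ (Submodule.span ℝ
      (Pool.Agent.Helper35.Spl.SplSet Pool.Agent.Helper35.Spl.TT)) : ℕ) : ℤ) = 40 := by
      rw [Pool.Agent.Helper35.Spl.SplSet, h]
      norm_num
    exact_mod_cast h2
  have hfin : Module.Finite ℝ (Submodule.span ℝ
      (Pool.Agent.Helper35.Spl.SplSet Pool.Agent.Helper35.Spl.TT)) :=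
    Module.finite_of_finrank_pos (by rw [h']; norm_num)
  have h3 := Pool.Agent.Helper35.Spl.dim_ge hfin
  rw [h'] at h3
  norm_num at h3

end Pool.Agent.S05440
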