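import Pool.Statements.S05858
import Pool.Agent.Helper51.FreeL1Final

set_option autoImplicit false
open Pool Pool.MP_b1f597_an

namespace Pool.Agent.S05858

open Pool.Agent.Helper51.FreeL1

/-- coordinate functionals on `ℓ₁` -/
noncomputable def coord (i : ℕ) : lp (fun _ : ℕ => ℝ) 1 →L[ℝ] ℝ :=
  LinearMap.mkContinuous
    { toFun := fun f => f i
      map_add' := fun f g => by simp
      map_smul' := fun c f => by simp } 1 (fun f => by
        rw [one_mul]
        exact lp.norm_apply_le_norm one_ne_zero f i)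

theorem coord_apply (i : ℕ) (f : lp (fun _ : ℕ => ℝ) 1) : coord i f = f i := rfl

theorem exists_sys (n : ℕ) : ∃ (e : (Fin n → Bool) → lp (fun _ : ℕ => ℝ) 1)
    (c : (Fin n → Bool) → (lp (fun _ : ℕ => ℝ) 1 →L[ℝ] ℝ)), Sys e c := by
  classical
  obtain ⟨code, hcode⟩ : ∃ code : (Fin n → Bool) → ℕ, Function.Injective code :=
    ⟨fun g => (Fintype.equivFin (Fin n → Bool) g : ℕ), by
      intro g g' h
      apply (Fintype.equivFin (Fin n → Bool)).injective
      exact Fin.ext h⟩
  refine ⟨fun g => lp.single 1 (code g) (1 : ℝ), fun g => coord (code g), ?_, ?_, ?_⟩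
  · intro g
    rw [lp.norm_single (by norm_num)]
    simp
  · intro g g'
    rw [coord_apply]
    by_cases h : g = g'
    · subst h
      simp
    · have : code g ≠ code g' := fun h' => h (hcode h')
      simp [lp.single_apply, h, this]
  · intro y
    have h1 := lp.sum_rpow_le_norm_rpow (p := 1) (by norm_num) y
      (Finset.univ.image code)
    rw [Finset.sum_image (fun a _ b _ h => hcode h)] at h1
    simpa [coord_apply] using h1

/-- The negation of the preceding statement: The Lipschitz-free space over real ℓ₁, characterised by its universal property for Lipschitz maps vanishing at 0, has a bounded linear projection from its bidual onto its canonical copy, i.e. it is complemented in its bidual. -/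
theorem result :
    ¬ (∃ (X : Type) (_ : NormedAddCommGroup X) (_ : NormedSpace ℝ X) (_ : CompleteSpace X)
      (δ : lp (fun _ : ℕ => ℝ) 1 → X),
      δ 0 = 0 ∧ LipschitzWith 1 δ ∧
      Dense ((Submodule.span ℝ (Set.range δ) : Submodule ℝ X) : Set X) ∧
      (∀ (Y : Type) (_ : NormedAddCommGroup Y) (_ : NormedSpace ℝ Y) (_ : CompleteSpace Y)
        (f : lp (fun _ : ℕ => ℝ) 1 → Y) (K : NNReal),
        LipschitzWith K f → f 0 = 0 →
        ∃ T : X →L[ℝ] Y, ‖T‖ ≤ (K : ℝ) ∧ ∀ m, T (δ m) = f m) ∧
      ∃ P : ((X →L[ℝ] ℝ) →L[ℝ] ℝ) →L[ℝ] X,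
        ∀ x : X, P (ContinuousLinearMap.apply ℝ ℝ x) = x) := by
  rintro ⟨X, i1, i2, i3, δ, h0, hlip, hdense, huniv, P, hP⟩
  have hF : FreeData δ := by
    refine ⟨h0, ?_, hdense, ?_⟩
    · intro x y
      have := hlip.dist_le_mul x y
      rwa [dist_eq_norm, dist_eq_norm, NNReal.coe_one, one_mul] at this
    · intro f K hK hf hf0
      obtain ⟨T, hT, hTm⟩ := huniv ℝ inferInstance inferInstance inferInstance f ⟨K, hK⟩ (by
        apply LipschitzWith.of_dist_le_mul
        intro x y
        rw [Real.dist_eq, dist_eq_norm]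
        exact hf x y) hf0
      exact ⟨T, hT, hTm⟩
  obtain ⟨Θ, CΘ, hC, hΘ, hlim⟩ := exists_genLim P hP
  obtain ⟨n, hn⟩ := exists_nat_gt (3 * (3 * CΘ + 1) ^ 2)
  obtain ⟨e, c, hs⟩ := exists_sys n
  have := main_bound hF Θ CΘ hΘ hC hlim n e c hs
  linarith

end Pool.Agent.S05858
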