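import Pool.Statements.S06834
import Pool.Agent.Helper60.UC.Exists
import Pool.Agent.Helper60.UC.Onto
import Pool.Agent.Helper60.UC.NotIso2

set_option autoImplicit false
open Pool Pool.MP_fddf76_an

namespace Pool.Agent.S06834

/-- The negation of the preceding statement: Every real Banach space that is uniformly homeomorphic to c_0, the space of real null sequences with the sup norm, is isomorphic to c_0 by a continuous linear isomorphism. -/
theorem result :
    ¬ (∀ (X : Type) [NormedAddCommGroup X] [NormedSpace ℝ X] [CompleteSpace X],
      Nonempty (UniformEquiv X (ZeroAtInftyContinuousMap ℕ ℝ)) →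
        Nonempty (X ≃L[ℝ] ZeroAtInftyContinuousMap ℕ ℝ)) := by
  intro h
  obtain ⟨S⟩ := Pool.Helper60.UC.exists_sys
  exact Pool.Helper60.UC.not_iso S (h (Pool.Helper60.UC.XS S) (Pool.Helper60.UC.unif_equiv S))

end Pool.Agent.S06834
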