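import Pool.Statements.S07363
import Pool.Agent.Helper17.CA.Final

set_option autoImplicit false
open Pool Pool.MP_16e137_co

namespace Pool.Agent.S07363

/-- A finite cubic graph with no K5 or K3,3 minor (i.e. planar) has exactly three Hamilton cycles iff it arises from K4 by repeatedly replacing a vertex with a triangle (i.e. is the dual of a graph built from K4 by stacking degree-3 vertices in faces). -/
theorem result :
    ∀ (V : Type) [Fintype V] [DecidableEq V] (G : SimpleGraph V),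
      (∀ v : V, (G.neighborSet v).ncard = 3) →
      (¬ ∃ f : Fin 5 → Set V,
          (∀ i : Fin 5, (G.induce (f i)).Connected) ∧
          (∀ i j : Fin 5, i ≠ j → Disjoint (f i) (f j)) ∧
          (∀ i j : Fin 5, i ≠ j → ∃ x : V, x ∈ f i ∧ ∃ y : V, y ∈ f j ∧ G.Adj x y)) →
      (¬ ∃ f g : Fin 3 → Set V,
          (∀ i : Fin 3, (G.induce (f i)).Connected) ∧
          (∀ i : Fin 3, (G.induce (g i)).Connected) ∧
          (∀ i j : Fin 3, i ≠ j → Disjoint (f i) (f j)) ∧
          (∀ i j : Fin 3, i ≠ j → Disjoint (g i) (g j)) ∧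
          (∀ i j : Fin 3, Disjoint (f i) (g j)) ∧
          (∀ i j : Fin 3, ∃ x : V, x ∈ f i ∧ ∃ y : V, y ∈ g j ∧ G.Adj x y)) →
      ({s : Set (Sym2 V) | ∃ (u : V) (p : G.Walk u u),
          p.IsHamiltonianCycle ∧ s = {e : Sym2 V | e ∈ p.edges}}.ncard = 3 ↔
        ∃ (n : ℕ) (Γ : ∀ k : ℕ, SimpleGraph (Fin (4 + 2 * k))),
          Γ 0 = (⊤ : SimpleGraph (Fin (4 + 2 * 0))) ∧
          (∀ (k : ℕ) (x : Fin (4 + 2 * k)), ((Γ k).neighborSet x).ncard = 3) ∧
          (∀ k : ℕ, k < n →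
            ∃ (f : Fin (4 + 2 * (k + 1)) → Fin (4 + 2 * k)) (v : Fin (4 + 2 * k)),
              (f ⁻¹' ({v} : Set (Fin (4 + 2 * k)))).ncard = 3 ∧
              (∀ w : Fin (4 + 2 * k), w ≠ v →
                (f ⁻¹' ({w} : Set (Fin (4 + 2 * k)))).ncard = 1) ∧
              (∀ x y : Fin (4 + 2 * (k + 1)),
                (Γ (k + 1)).Adj x y → f x = f y ∨ (Γ k).Adj (f x) (f y)) ∧
              (∀ x y : Fin (4 + 2 * (k + 1)),
                x ≠ y → f x = v → f y = v → (Γ (k + 1)).Adj x y) ∧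
              (∀ a b : Fin (4 + 2 * k), (Γ k).Adj a b →
                ∃! e : Sym2 (Fin (4 + 2 * (k + 1))),
                  e ∈ (Γ (k + 1)).edgeSet ∧ Sym2.map f e = s(a, b))) ∧
          Nonempty (G ≃g Γ n)) := by
  intro V _ _ G h3 _ h33
  exact Pool.Agent.Helper17.CA.cantoni V G h3 h33

end Pool.Agent.S07363
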