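import Pool.Statements.S07574
import Pool.Agent.Helper43.AK.Sum

/-!
# The frozen negation, proved by a poset without infinite antichains

The poset `W` of `Pool/Agent/Helper43/AK/Sum.lean` is countable, vacillating, all its antichains are
finite (`Pool.Agent.Helper43.AK.finite_antichain`), and it fails `AK_k` for every `k ≥ 2`.
-/

set_option autoImplicit false
open Pool Pool.MP_1f8616_co

namespace Pool.Agent.S07574

open Pool.Agent.Helper43.AK

/-- The negation of the preceding statement: Every countable poset with no saturated chain (or its reverse) that is an ω-indexed linear sum of infinite co-wellfounded chains has, for each k≥2, k disjoint chains and a partition into antichains where each antichain A meets at least min(∣A∣,k) chains. -/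
theorem result :
    ¬ (∀ (α : Type) [PartialOrder α] [Countable α],
    (¬ ∃ C : Set α, IsChain (· ≤ ·) C ∧
        (∀ x, x ∉ C → ∀ y ∈ C, ∀ z ∈ C, y < x → x < z → ¬ IsChain (· ≤ ·) (insert x C)) ∧
        ∃ f : α → ℕ,
          ((∀ x ∈ C, ∀ y ∈ C, x ≤ y → f x ≤ f y) ∧
            ∀ i : ℕ, Set.Infinite {x | x ∈ C ∧ f x = i} ∧
              ¬ ∃ s : ℕ → α, StrictMono s ∧ ∀ n, s n ∈ C ∧ f (s n) = i) ∨
          ((∀ x ∈ C, ∀ y ∈ C, x ≤ y → f y ≤ f x) ∧
            ∀ i : ℕ, Set.Infinite {x | x ∈ C ∧ f x = i} ∧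
              ¬ ∃ s : ℕ → α, StrictAnti s ∧ ∀ n, s n ∈ C ∧ f (s n) = i)) →
    ∀ k : ℕ, 2 ≤ k →
      ∃ C : Fin k → Set α, (∀ j, IsChain (· ≤ ·) (C j)) ∧
        Pairwise (fun i j => Disjoint (C i) (C j)) ∧
        ∃ g : α → ℕ, ∀ i : ℕ, IsAntichain (· ≤ ·) {x | g x = i} ∧
          min (Set.encard {x | g x = i}) (k : ℕ∞) ≤
            Set.encard {j : Fin k | (C j ∩ {x | g x = i}).Nonempty}) := by
  intro h
  have hvac : ¬ ∃ C : Set W, IsChain (· ≤ ·) C ∧
        (∀ x, x ∉ C → ∀ y ∈ C, ∀ z ∈ C, y < x → x < z → ¬ IsChain (· ≤ ·) (insert x C)) ∧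
        ∃ f : W → ℕ,
          ((∀ x ∈ C, ∀ y ∈ C, x ≤ y → f x ≤ f y) ∧
            ∀ i : ℕ, Set.Infinite {x | x ∈ C ∧ f x = i} ∧
              ¬ ∃ s : ℕ → W, StrictMono s ∧ ∀ n, s n ∈ C ∧ f (s n) = i) ∨
          ((∀ x ∈ C, ∀ y ∈ C, x ≤ y → f y ≤ f x) ∧
            ∀ i : ℕ, Set.Infinite {x | x ∈ C ∧ f x = i} ∧
              ¬ ∃ s : ℕ → W, StrictAnti s ∧ ∀ n, s n ∈ C ∧ f (s n) = i) := by
    rintro ⟨C, hC, hsat, f, hf⟩
    refine vacillating_aux (C := C) ?_ ?_ f hf
    · intro p hp r hr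
      by_cases he : p = r
      · exact Or.inl he
      · rcases hC hp hr he with h | h
        · exact Or.inr (Or.inl (lt_of_le_of_ne h he))
        · exact Or.inr (Or.inr (lt_of_le_of_ne h (Ne.symm he)))
    · rintro x ⟨y, hy, hyx⟩ ⟨z, hz, hxz⟩ hall
      by_contra hx
      refine hsat x hx y hy z hz hyx hxz (hC.insert ?_)
      intro c hc hxc
      rcases hall c hc with h | h | h
      · exact absurd h.symm hxc
      · exact Or.inr h.le
      · exact Or.inl h.le
  obtain ⟨C, hC, hdis, g, hg⟩ := h W hvac 2 le_rfl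
  exact not_AK (k := 2) le_rfl hC (fun i j hij => hdis hij) (g := g) (fun i => (hg i).1) (fun i => (hg i).2)

end Pool.Agent.S07574
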