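import Pool.Statements.S08309
import Pool.Agent.Helper57.TOP.Final
import Pool.Agent.Helper97.SO.Main

set_option autoImplicit false
open Pool Pool.MP_3f61ad_co

namespace Pool.Agent.S08309

/-- Every finite 4-connected graph that stays non-bipartite after deleting any single vertex (or none) contains four distinct vertices joined pairwise by odd-length paths that meet only at shared endpoints. -/
theorem result :
    ∀ (V : Type) [Fintype V] (G : SimpleGraph V),
      (4 < Fintype.card V ∧
        ∀ S : Finset V, S.card < 4 → (G.induce ((↑S : Set V)ᶜ)).Connected) →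
      (∀ S : Finset V, S.card ≤ 1 → ¬ (G.induce ((↑S : Set V)ᶜ)).Colorable 2) →
      ∃ v : Fin 4 → V, Function.Injective v ∧
        ∃ P : ∀ i j : Fin 4, G.Walk (v i) (v j),
          (∀ i j : Fin 4, i < j → (P i j).IsPath ∧ Odd (P i j).length) ∧
          (∀ i j k l : Fin 4, i < j → k < l → (i, j) ≠ (k, l) →
            ∀ x : V, x ∈ (P i j).support → x ∈ (P k l).support →
              ((x = v i ∨ x = v j) ∧ (x = v k ∨ x = v l))) :=
  Pool.Agent.Helper57.TOP.main_of_deg3
    (fun _ _ _ _ hM => Pool.Agent.Helper97.SO.gmin_deg3 hM)

end Pool.Agent.S08309
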