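import Pool.Statements.S08339
import Pool.Agent.Helper83.Tri.Final
import Pool.Agent.Helper28.TriB2

set_option autoImplicit false
open Pool Pool.MP_40ab69_co

namespace Pool.Agent.S08339

/-- For every finite set S of triangular-lattice points whose induced unit-distance graph has no triangle, S contains an independent set I with ∣S∣ ≤ (9/4)∣I∣. -/
theorem result :
    ∀ T : SimpleGraph (ℤ × ℤ),
      (∀ p q : ℤ × ℤ, T.Adj p q ↔
        (q.1 - p.1, q.2 - p.2) ∈
          ({(1, 0), (-1, 0), (0, 1), (0, -1), (1, -1), (-1, 1)} : Finset (ℤ × ℤ))) →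
      ∀ S : Finset (ℤ × ℤ),
        (∀ p ∈ S, ∀ q ∈ S, ∀ r ∈ S, ¬ (T.Adj p q ∧ T.Adj q r ∧ T.Adj p r)) →
        ∃ I : Finset (ℤ × ℤ), I ⊆ S ∧ (∀ p ∈ I, ∀ q ∈ I, ¬ T.Adj p q) ∧
          4 * S.card ≤ 9 * I.card := by
  intro T hT S hS
  have hadj : ∀ p q : ℤ × ℤ, T.Adj p q ↔ ∃ t : ZMod 6, q = p + TriLat.e t := by
    intro p q
    rw [hT]
    obtain ⟨a, b⟩ := p
    obtain ⟨x, y⟩ := q
    simp only [Finset.mem_insert, Finset.mem_singleton, Prod.mk.injEq]
    have e0 : TriLat.e 0 = (1, 0) := rfl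
    have e1 : TriLat.e 1 = (0, 1) := rfl
    have e2 : TriLat.e 2 = (-1, 1) := rfl
    have e3 : TriLat.e 3 = (-1, 0) := rfl
    have e4 : TriLat.e 4 = (0, -1) := rfl
    have e5 : TriLat.e 5 = (1, -1) := rfl
    constructor
    · rintro (h | h | h | h | h | h)
      · exact ⟨0, by rw [e0]; exact Prod.ext (by simp only [Prod.mk_add_mk]; omega) (by simp only [Prod.mk_add_mk]; omega)⟩
      · exact ⟨3, by rw [e3]; exact Prod.ext (by simp only [Prod.mk_add_mk]; omega) (by simp only [Prod.mk_add_mk]; omega)⟩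
      · exact ⟨1, by rw [e1]; exact Prod.ext (by simp only [Prod.mk_add_mk]; omega) (by simp only [Prod.mk_add_mk]; omega)⟩
      · exact ⟨4, by rw [e4]; exact Prod.ext (by simp only [Prod.mk_add_mk]; omega) (by simp only [Prod.mk_add_mk]; omega)⟩
      · exact ⟨5, by rw [e5]; exact Prod.ext (by simp only [Prod.mk_add_mk]; omega) (by simp only [Prod.mk_add_mk]; omega)⟩
      · exact ⟨2, by rw [e2]; exact Prod.ext (by simp only [Prod.mk_add_mk]; omega) (by simp only [Prod.mk_add_mk]; omega)⟩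
    · rintro ⟨t, ht⟩
      rcases TriLat.zmod6_cases t with rfl | rfl | rfl | rfl | rfl | rfl <;>
      simp only [e0, e1, e2, e3, e4, e5, Prod.mk_add_mk, Prod.mk.injEq] at ht <;>
      omega
  have hTF : TriLat.TFree S := by
    intro v hv t ht ht'
    apply hS v hv _ ht _ ht'
    refine ⟨(hadj _ _).mpr ⟨t, rfl⟩, (hadj _ _).mpr ⟨t + 2, ?_⟩, (hadj _ _).mpr ⟨t + 1, rfl⟩⟩
    rw [add_assoc, TriLat.e_add_e2]
  obtain ⟨M, hM⟩ := TriLat.exists_box S
  obtain ⟨I, hI, hind, hcard⟩ := TriLat.final hTF M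
    (TriLat.bipartite_of_tjoin S hTF (TriLat.Jar hTF M) (TriLat.Jar_symm hTF)
      (TriLat.Jar_ortho hTF hM))
  refine ⟨I, hI, ?_, hcard⟩
  intro p hp q hq h
  obtain ⟨t, ht⟩ := (hadj p q).mp h
  exact hind p hp q hq t ht

end Pool.Agent.S08339
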