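import Pool.Statements.S08383
import Pool.Agent.Helper57.Tri.FA3
import Pool.Agent.Helper57.Tri.EX1
import Pool.Agent.Helper57.Tri.EX2
import Pool.Agent.Helper57.Tri.EX3

set_option autoImplicit false
open Pool Pool.MP_425fdd_co

namespace Pool.Agent.S08383

/-- Every finite simple linear hypergraph whose vertex-edge incidence poset has a realizer of three linear extensions can be realized by assigning each vertex a planar triangle or segment so that the edges are exactly the maximal nonempty vertex sets with common intersection. -/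
theorem result :
  ∀ (V : Type) [Fintype V] [DecidableEq V] (E : Finset (Finset V)),
    (∀ e ∈ E, e.Nonempty) →
    (∀ e ∈ E, ∀ f ∈ E, e ⊆ f → e = f) →
    (∀ v : V, ∃ e ∈ E, v ∈ e) →
    (∀ e ∈ E, ∀ f ∈ E, e ≠ f → (e ∩ f).card ≤ 1) →
    (∃ (f : Fin 3 → V → ℕ) (g : Fin 3 → Finset V → ℕ),
      (∀ i, Function.Injective (f i)) ∧
      (∀ i, ∀ e ∈ E, ∀ e' ∈ E, g i e = g i e' → e = e') ∧
      (∀ i, ∀ v : V, ∀ e ∈ E, f i v ≠ g i e) ∧
      (∀ v w : V, v ≠ w → ¬ ∀ i, f i v < f i w) ∧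
      (∀ e ∈ E, ∀ e' ∈ E, e ≠ e' → ¬ ∀ i, g i e < g i e') ∧
      (∀ v : V, ∀ e ∈ E, ((∀ i, f i v < g i e) ↔ v ∈ e) ∧ ¬ ∀ i, g i e < f i v)) →
    ∃ S : V → Set (ℝ × ℝ),
      (∀ v, (∃ a b c : ℝ × ℝ, ¬ Collinear ℝ ({a, b, c} : Set (ℝ × ℝ)) ∧
                S v = convexHull ℝ ({a, b, c} : Set (ℝ × ℝ))) ∨
            (∃ a b : ℝ × ℝ, a ≠ b ∧ S v = segment ℝ a b)) ∧
      ∀ U : Finset V, U ∈ E ↔ (U.Nonempty ∧ (⋂ v ∈ U, S v).Nonempty ∧
          ∀ W : Finset V, U ⊆ W → (⋂ v ∈ W, S v).Nonempty → W = U) := by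
  intro V _ _ E hne hanti hcov hlin hreal
  obtain ⟨f, g, hf, hg, hfg, hv, he, hinc⟩ := hreal
  classical
  -- the configuration
  obtain ⟨c0, hm0, hok0, hsq0⟩ := Pool.Agent.Tri.Cf.exists_ok (V := V) (E := {e // e ∈ E})
    (fun v => (f 0 v : ℤ)) (fun v => (f 1 v : ℤ)) (fun v => (f 2 v : ℤ))
    (fun e => (g 0 e.1 : ℤ)) (fun e => (g 1 e.1 : ℤ)) (fun e => (g 2 e.1 : ℤ))
    (fun v e => v ∈ e.1)
    (by
      intro v e
      have h1 := (hinc v e.1 e.2).1
      rw [← h1]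
      constructor
      · intro h
        exact ⟨by exact_mod_cast h 0, by exact_mod_cast h 1, by exact_mod_cast h 2⟩
      · rintro ⟨h0, h1, h2⟩ i
        fin_cases i
        · exact_mod_cast h0
        · exact_mod_cast h1
        · exact_mod_cast h2)
    (by intro u v h; exact hf 0 (by exact_mod_cast h))
    (by intro u v h; exact hf 1 (by exact_mod_cast h))
    (by intro u v h; exact hf 2 (by exact_mod_cast h))
    (by intro e e' h; exact Subtype.ext (hg 0 e.1 e.2 e'.1 e'.2 (by exact_mod_cast h)))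
    (by intro e e' h; exact Subtype.ext (hg 1 e.1 e.2 e'.1 e'.2 (by exact_mod_cast h)))
    (by intro e e' h; exact Subtype.ext (hg 2 e.1 e.2 e'.1 e'.2 (by exact_mod_cast h)))
    (by intro v e h; exact hfg 0 v e.1 e.2 (by exact_mod_cast h))
    (by intro v e h; exact hfg 1 v e.1 e.2 (by exact_mod_cast h))
    (by intro v e h; exact hfg 2 v e.1 e.2 (by exact_mod_cast h))
    (by
      rintro u v ⟨h0, h1, h2⟩
      by_cases huv : u = v
      · subst huv; exact absurd h0 (lt_irrefl _)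
      · apply hv u v huv
        intro i
        fin_cases i
        · exact_mod_cast h0
        · exact_mod_cast h1
        · exact_mod_cast h2)
    (by
      intro e e' hee
      by_contra hn
      push Not at hn
      exact hee (Subtype.ext (hanti e.1 e.2 e'.1 e'.2 (fun v hv => hn v hv))))
    (by
      intro u v e e' huv h1 h2 h3 h4
      by_contra hee
      have hc := hlin e.1 e.2 e'.1 e'.2 (fun h => hee (Subtype.ext h))
      have : ({u, v} : Finset V) ⊆ e.1 ∩ e'.1 := by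
        intro w hw
        simp only [Finset.mem_insert, Finset.mem_singleton] at hw
        rcases hw with rfl | rfl
        · exact Finset.mem_inter.2 ⟨h1, h3⟩
        · exact Finset.mem_inter.2 ⟨h2, h4⟩
      have h5 := Finset.card_le_card this
      rw [Finset.card_pair huv] at h5
      omega)
    (by
      intro v
      obtain ⟨e, he1, he2⟩ := hcov v
      exact ⟨⟨e, he1⟩, he2⟩)
  obtain ⟨x', hx1⟩ := Pool.Agent.Tri.Cf.exists_x c0 hok0 hsq0
  have hok1 : ({ c0 with x := x' } : Pool.Agent.Tri.Cf V {e // e ∈ E}).Ok :=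
    hok0.upd x' c0.y
  have hsq1 : ({ c0 with x := x' } : Pool.Agent.Tri.Cf V {e // e ∈ E}).Sq :=
    ⟨hsq0.K0, hsq0.D0, hsq0.KS, hsq0.DS, hsq0.hM⟩
  obtain ⟨y', hy⟩ := Pool.Agent.Tri.Cf.exists_y _ hok1 hsq1 hx1
  have hok : ({ c0 with x := x', y := y' } : Pool.Agent.Tri.Cf V {e // e ∈ E}).Ok :=
    hok0.upd x' y'
  have hsq : ({ c0 with x := x', y := y' } : Pool.Agent.Tri.Cf V {e // e ∈ E}).Sq :=
    ⟨hsq0.K0, hsq0.D0, hsq0.KS, hsq0.DS, hsq0.hM⟩
  have hx : ({ c0 with x := x', y := y' } : Pool.Agent.Tri.Cf V {e // e ∈ E}).XR :=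
    ⟨hx1.free, hx1.hpq, hx1.hL, hx1.hR⟩
  obtain ⟨S, hS1, hS2, hS3⟩ := Pool.Agent.Tri.Cf.final hok hsq hx hy
  have hmem : ∀ v (e : {e // e ∈ E}), c0.mem v e ↔ v ∈ e.1 := by
    intro v e; rw [hm0]
  have hpt : ∀ e ∈ E, (⋂ v ∈ e, S v).Nonempty := by
    intro e he
    refine ⟨Pool.Agent.Tri.Cf.pt { c0 with x := x', y := y' } ⟨e, he⟩, ?_⟩
    rw [Set.mem_iInter₂]
    intro v hv
    exact hS2 ⟨e, he⟩ v ((hmem v ⟨e, he⟩).2 hv)
  have hcon : ∀ U : Finset V, U.Nonempty → (⋂ v ∈ U, S v).Nonempty → ∃ e ∈ E, U ⊆ e := by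
    intro U h1 h2
    obtain ⟨e, he⟩ := hS3 U h1 h2
    exact ⟨e.1, e.2, fun v hv => (hmem v e).1 (he v hv)⟩
  refine ⟨S, hS1, fun U => ⟨fun hU => ⟨hne U hU, hpt U hU, fun W hUW hW => ?_⟩, ?_⟩⟩
  · have hWn : W.Nonempty := (hne U hU).mono hUW
    obtain ⟨e, he1, he2⟩ := hcon W hWn hW
    have h3 := hanti U hU e he1 (hUW.trans he2)
    subst h3
    exact Finset.Subset.antisymm he2 hUW
  · rintro ⟨h1, h2, h3⟩
    obtain ⟨e, he1, he2⟩ := hcon U h1 h2
    have := h3 e he2 (hpt e he1)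
    rw [← this]; exact he1

end Pool.Agent.S08383
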