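import Pool.Statements.S10098
import Pool.Agent.Gen.TY.Final.NoCover

set_option autoImplicit false
open Pool Pool.MP_8ee768_co

namespace Pool.Agent.S10098

/-- The negation of the preceding statement: For even k ≥ 2 and every n, each k-uniform hypergraph on n vertices with no complete (k+1)-vertex subhypergraph has at most as many edges as some k-uniform hypergraph in which every k+1 vertices span an even number of edges. -/
theorem result :
    ¬ (∀ k : ℕ, Even k → 2 ≤ k → ∀ n : ℕ,
      ∀ H : Finset (Finset (Fin n)),
        (∀ e ∈ H, e.card = k) →
        (∀ S : Finset (Fin n), S.card = k + 1 → ¬ (S.powersetCard k ⊆ H)) →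
        ∃ C : Finset (Finset (Fin n)),
          (∀ e ∈ C, e.card = k) ∧
          (∀ S : Finset (Fin n), S.card = k + 1 →
            Even ((C.filter (fun e => e ⊆ S)).card)) ∧
          H.card ≤ C.card) := by
  exact Pool.Agent.Helper89.CV.S10098_of_no_odd_cover Pool.Agent.Gen.TY.Final.no_cover

end Pool.Agent.S10098
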