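import Pool.Statements.S10690
import Pool.Agent.Helper27.KLPair
import Pool.Agent.Helper27.KLSet

set_option autoImplicit false
open Classical
open Pool Pool.MP_aa61ff_co

namespace Pool.Agent.S10690

open Pool.Agent.Helper27.KL in
/-- The negation of the preceding statement: For every finite matroid, the coefficient sequence of its inverse Kazhdan–Lusztig polynomial is log-concave and has no internal zeros. Here Q is characterised as the incidence-algebra inverse, up to signs, of the KL polynomials defined via characteristic polynomials of flat intervals. -/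
theorem result :
    ¬ (∀ (n : ℕ) (M : Matroid (Fin n)), M.E = Set.univ →
  ∀ (P Q : Finset (Fin n) → Finset (Fin n) → Polynomial ℤ),
  (∀ F : Finset (Fin n), M.IsFlat (F : Set (Fin n)) → P F F = 1 ∧ Q F F = 1) →
  (∀ F G : Finset (Fin n), M.IsFlat (F : Set (Fin n)) → M.IsFlat (G : Set (Fin n)) → F ⊂ G →
     2 * (P F G).natDegree < (M.eRk (G : Set (Fin n))).toNat - (M.eRk (F : Set (Fin n))).toNat ∧
     Polynomial.reflect ((M.eRk (G : Set (Fin n))).toNat - (M.eRk (F : Set (Fin n))).toNat) (P F G) =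
       ∑ H ∈ Finset.univ.filter
           (fun H : Finset (Fin n) => M.IsFlat (H : Set (Fin n)) ∧ F ⊆ H ∧ H ⊆ G),
         (∑ A ∈ (H \ F).powerset,
            (-1 : Polynomial ℤ) ^ A.card *
              Polynomial.X ^ ((M.eRk (H : Set (Fin n))).toNat
                - (M.eRk ((A ∪ F : Finset (Fin n)) : Set (Fin n))).toNat)) * P H G ∧
     ∑ H ∈ Finset.univ.filter
           (fun H : Finset (Fin n) => M.IsFlat (H : Set (Fin n)) ∧ F ⊆ H ∧ H ⊆ G),
         (-1 : Polynomial ℤ) ^ ((M.eRk (H : Set (Fin n))).toNat - (M.eRk (F : Set (Fin n))).toNat)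
           * P F H * Q H G = 0) →
  ∀ L : Finset (Fin n), (L : Set (Fin n)) = M.closure ∅ →
  (∀ i : ℕ, (Q L Finset.univ).coeff i * (Q L Finset.univ).coeff (i + 2)
      ≤ (Q L Finset.univ).coeff (i + 1) ^ 2) ∧
  (∀ i j k : ℕ, i < j → j < k → (Q L Finset.univ).coeff i ≠ 0 →
      (Q L Finset.univ).coeff k ≠ 0 → (Q L Finset.univ).coeff j ≠ 0)) := by
  intro hall
  let n := Fintype.card {v : V7 // v ∉ SS}
  let φ : Fin n → V7 := fun i => ((Fintype.equivFin {v : V7 // v ∉ SS}).symm i).1
  have hφ : Set.range φ = SSᶜ := by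
    ext v
    constructor
    · rintro ⟨i, rfl⟩
      exact ((Fintype.equivFin {v : V7 // v ∉ SS}).symm i).2
    · intro hv
      refine ⟨Fintype.equivFin {v : V7 // v ∉ SS} ⟨v, hv⟩, ?_⟩
      simp [φ]
  have h1 := hall n (linMat F7 φ) (linMat_E φ) (PP F7 φ SS) (QQ F7 φ SS)
    (fun F _ => hyp1 hφ zero_mem_SS hspan7 F)
    (fun F G hF hG hFG => hyp2 hφ zero_mem_SS hspan7 F G hF hG hFG) ∅ (by
      have := (flat_empty hφ zero_mem_SS hspan7).closure
      rw [Finset.coe_empty] at this ⊢
      exact this.symm)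
  have htop : ¬ Bad SS (⊤ : Submodule F7 V7) := by
    intro hb
    have := finrank_le_of_bad ⊤ hb
    rw [finrank_top, Module.finrank_fin_fun] at this
    omega
  have hfl : fl φ (⊤ : Submodule F7 V7) = Finset.univ := by
    ext e
    simp [mem_fl]
  have hsp : sp F7 φ Finset.univ = ⊤ := by
    rw [← hfl]
    exact sp_fl hφ zero_mem_SS hspan7 htop
  have hne : (Finset.univ : Finset (Fin n)) ≠ ∅ := by
    rw [← hfl]
    exact fl_nonempty hφ zero_mem_SS hspan7 htop
  have hQ : QQ F7 φ SS ∅ Finset.univ = QPol SS (⊤ : Submodule F7 V7) := by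
    rw [QQ, if_pos rfl, if_neg hne, hsp]
  obtain ⟨c1, c2, c3⟩ := coeffs (K := F7) (V := V7) (ZMod.card 7) (Module.finrank_fin_fun F7)
    SS finrank_le_of_bad
  have h2 := h1.1 1
  rw [hQ] at h2
  norm_num at h2
  rw [c1, c2, c3, W2, W3] at h2
  have h3 := W1
  norm_num at h2
  omega

end Pool.Agent.S10690
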