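import Pool.Statements.S11061
import Pool.Agent.Helper26.NuclearBlock

set_option autoImplicit false
open Pool Pool.MP_ba45ff_co

namespace Pool.Agent.S11061

/-- Let G be a connected edge-critical graph with a cutvertex, and take the block containing all vertices whose deletion keeps the domination number. If that block is edge-critical as a graph in its own right, then it is complete. -/
theorem result :
    ∀ (V : Type) [Fintype V] [DecidableEq V] (G : SimpleGraph V)
      (γ : SimpleGraph V → Set V → ℕ),
      (∀ (H : SimpleGraph V) (S : Set V),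
        γ H S = sInf {n : ℕ | ∃ D : Finset V, (↑D : Set V) ⊆ S ∧ D.card = n ∧
          ∀ v ∈ S, v ∈ D ∨ ∃ u ∈ D, H.Adj v u}) →
      G.Connected →
      (∀ u v : V, u ≠ v → ¬ G.Adj u v →
        γ (G ⊔ SimpleGraph.edge u v) Set.univ = γ G Set.univ - 1) →
      (∃ c : V, ¬ (G.induce ({c}ᶜ : Set V)).Preconnected) →
      ∀ B : Set V,
        ((G.induce B).Connected ∧
          (∀ v ∈ B, (G.induce (B \ {v})).Preconnected) ∧
          ∀ B' : Set V, B ⊆ B' → (G.induce B').Connected →
            (∀ v ∈ B', (G.induce (B' \ {v})).Preconnected) → B' = B) →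
        {v : V | γ G ({v}ᶜ : Set V) = γ G Set.univ} ⊆ B →
        (∀ u ∈ B, ∀ v ∈ B, u ≠ v → ¬ G.Adj u v →
          γ (G ⊔ SimpleGraph.edge u v) B = γ G B - 1) →
        ∀ u ∈ B, ∀ v ∈ B, u ≠ v → G.Adj u v := by
  intro V _ _ G γ hγ hG hcrit hcut B hB hnuc hcritB
  exact Helper26.nuclear_block G γ hγ hG hcrit hcut B hB hnuc hcritB

end Pool.Agent.S11061
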