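import Pool.Statements.S11500
import Pool.Agent.Helper17.PickerChooser

set_option autoImplicit false
open Filter
open Pool Pool.MP_cd7f8f_co

namespace Pool.Agent.S11500

/-- The negation of the preceding statement: In the n×n Picker–Chooser row discrepancy game, the largest row lead (Picker marks minus Chooser marks) Picker can guarantee at game end is (1+o(1))·sqrt(2 n log n) as n grows. -/
theorem result :
    ¬ (∀ ε : ℝ, ε > 0 → ∀ᶠ n : ℕ in atTop,
      (∃ k : ℤ, (1 - ε) * Real.sqrt (2 * (n : ℝ) * Real.log n) ≤ (k : ℝ) ∧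
        ∃ W : Set (Finset (Fin n × Fin n) × Finset (Fin n × Fin n)),
          ((∅ : Finset (Fin n × Fin n)), (∅ : Finset (Fin n × Fin n))) ∈ W ∧
          ∀ p ∈ W,
            ((p.1 ∪ p.2).card + 2 > n * n ∧
              ∃ i : Fin n, k ≤ ((Finset.filter (fun x : Fin n × Fin n => x.1 = i) p.1).card : ℤ)
                  - ((Finset.filter (fun x : Fin n × Fin n => x.1 = i) p.2).card : ℤ)) ∨
            ∃ a b : Fin n × Fin n, a ≠ b ∧ a ∉ p.1 ∪ p.2 ∧ b ∉ p.1 ∪ p.2 ∧
              (insert a p.1, insert b p.2) ∈ W ∧ (insert b p.1, insert a p.2) ∈ W) ∧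
      (∀ k : ℤ,
        (∃ W : Set (Finset (Fin n × Fin n) × Finset (Fin n × Fin n)),
          ((∅ : Finset (Fin n × Fin n)), (∅ : Finset (Fin n × Fin n))) ∈ W ∧
          ∀ p ∈ W,
            ((p.1 ∪ p.2).card + 2 > n * n ∧
              ∃ i : Fin n, k ≤ ((Finset.filter (fun x : Fin n × Fin n => x.1 = i) p.1).card : ℤ)
                  - ((Finset.filter (fun x : Fin n × Fin n => x.1 = i) p.2).card : ℤ)) ∨
            ∃ a b : Fin n × Fin n, a ≠ b ∧ a ∉ p.1 ∪ p.2 ∧ b ∉ p.1 ∪ p.2 ∧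
              (insert a p.1, insert b p.2) ∈ W ∧ (insert b p.1, insert a p.2) ∈ W) →
        (k : ℝ) ≤ (1 + ε) * Real.sqrt (2 * (n : ℝ) * Real.log n))) := by
  intro hmain
  have h1 := hmain (1 / 10) (by norm_num)
  have h2 := Pool.Agent.Helper17.PC.eventually_lt
  obtain ⟨n, ⟨hn1, hn2⟩⟩ := (h1.and h2).exists
  obtain ⟨⟨k, hk1, hk2⟩, _⟩ := hn1
  have h3 := hn2 k hk2
  linarith

end Pool.Agent.S11500
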