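import Pool.Statements.S11569
import Pool.Agent.Helper89.KN.Core
import Pool.Agent.Helper54.KN.Generic
import Pool.Agent.Helper41.KN.Pairs
import Pool.Agent.Helper40.KN.Assembly

set_option autoImplicit false
open Pool Pool.MP_d085fd_co

namespace Pool.Agent.S11569

/-- There is k0 such that any finite family of convex plane sets, in which every subfamily of at most k0 members can be pierced by 2 points, can be pierced as a whole by at most 3 points. -/
theorem result :
    ∃ k₀ : ℕ, ∀ F : Finset (Set (EuclideanSpace ℝ (Fin 2))),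
      (∀ C ∈ F, Convex ℝ C) →
      (∀ G ⊆ F, G.card ≤ k₀ →
        ∃ P : Finset (EuclideanSpace ℝ (Fin 2)), P.card ≤ 2 ∧ ∀ C ∈ G, ∃ p ∈ P, p ∈ C) →
      ∃ P : Finset (EuclideanSpace ℝ (Fin 2)), P.card ≤ 3 ∧ ∀ C ∈ F, ∃ p ∈ P, p ∈ C := by
  exact Pool.KN.main_of_core_of (fun r hr => Pool.KN.pairs_of_local r hr)
    (fun L δ hδ => Pool.KN.exists_generic_near L δ hδ) Pool.KN.core

end Pool.Agent.S11569
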