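import Pool.Statements.S11730

set_option autoImplicit false
open MeasureTheory
open Pool Pool.MP_d7a99c_co

namespace Pool.Agent.S11730

/-- The plane. -/
abbrev E2 := EuclideanSpace ℝ (Fin 2)

/-- The pentagon with vertices `(0,0), (251,30), (281,251), (251,281), (30,251)`, all divided
by `500`, given by its five edge inequalities. -/
def pent : Set E2 :=
  {x | 30 * x 0 - 251 * x 1 ≤ 0 ∧ 221 * (500 * x 0 - 251) - 30 * (500 * x 1 - 30) ≤ 0 ∧
    500 * x 0 + 500 * x 1 ≤ 532 ∧ 221 * (500 * x 1 - 251) - 30 * (500 * x 0 - 30) ≤ 0 ∧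
    30 * x 1 - 251 * x 0 ≤ 0}

/-- A point of the plane by its coordinates, in units of `1/500`. -/
noncomputable def pt (a b : ℝ) : E2 := !₂[a / 500, b / 500]

@[simp] theorem pt_zero (a b : ℝ) : pt a b 0 = a / 500 := by simp [pt]
@[simp] theorem pt_one (a b : ℝ) : pt a b 1 = b / 500 := by simp [pt]

theorem cont0 : Continuous (fun x : E2 => x 0) := by fun_prop
theorem cont1 : Continuous (fun x : E2 => x 1) := by fun_prop

theorem pent_closed : IsClosed pent := by
  have h0 := cont0
  have h1 := cont1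
  have g0 : IsClosed {x : E2 | 30 * x 0 - 251 * x 1 ≤ (0 : ℝ)} :=
    isClosed_le (by fun_prop) (by fun_prop)
  have g1 : IsClosed {x : E2 | 221 * (500 * x 0 - 251) - 30 * (500 * x 1 - 30) ≤ (0 : ℝ)} :=
    isClosed_le (by fun_prop) (by fun_prop)
  have g2 : IsClosed {x : E2 | 500 * x 0 + 500 * x 1 ≤ (532 : ℝ)} :=
    isClosed_le (by fun_prop) (by fun_prop)
  have g3 : IsClosed {x : E2 | 221 * (500 * x 1 - 251) - 30 * (500 * x 0 - 30) ≤ (0 : ℝ)} :=
    isClosed_le (by fun_prop) (by fun_prop)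
  have g4 : IsClosed {x : E2 | 30 * x 1 - 251 * x 0 ≤ (0 : ℝ)} :=
    isClosed_le (by fun_prop) (by fun_prop)
  exact g0.inter (g1.inter (g2.inter (g3.inter g4)))

theorem pent_convex : Convex ℝ pent := by
  intro x hx y hy a b ha hb hab
  obtain ⟨h1, h2, h3, h4, h5⟩ := hx
  obtain ⟨g1, g2, g3, g4, g5⟩ := hy
  have e0 : (a • x + b • y : E2) 0 = a * x 0 + b * y 0 := by simp
  have e1 : (a • x + b • y : E2) 1 = a * x 1 + b * y 1 := by simp
  have hb' : b = 1 - a := by linarith
  subst hb'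
  refine ⟨?_, ?_, ?_, ?_, ?_⟩
  · rw [e0, e1]; nlinarith
  · rw [e0, e1]; nlinarith
  · rw [e0, e1]; nlinarith
  · rw [e0, e1]; nlinarith
  · rw [e0, e1]; nlinarith

theorem pent_bounded {x : E2} (hx : x ∈ pent) : 0 ≤ x 0 ∧ x 0 ≤ 1 ∧ 0 ≤ x 1 ∧ x 1 ≤ 1 := by
  obtain ⟨h1, h2, h3, h4, h5⟩ := hx
  refine ⟨by linarith, by linarith, by linarith, by linarith⟩

theorem pent_compact : IsCompact pent := by
  apply Metric.isCompact_of_isClosed_isBounded pent_closed
  rw [isBounded_iff_forall_norm_le]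
  refine ⟨2, fun x hx => ?_⟩
  obtain ⟨h1, h2, h3, h4⟩ := pent_bounded hx
  rw [EuclideanSpace.norm_eq]
  rw [Fin.sum_univ_two]
  rw [Real.sqrt_le_left (by norm_num)]
  simp only [Real.norm_eq_abs, sq_abs]
  nlinarith

/-- The open pentagon. -/
def pentOpen : Set E2 :=
  {x | 30 * x 0 - 251 * x 1 < 0 ∧ 221 * (500 * x 0 - 251) - 30 * (500 * x 1 - 30) < 0 ∧
    500 * x 0 + 500 * x 1 < 532 ∧ 221 * (500 * x 1 - 251) - 30 * (500 * x 0 - 30) < 0 ∧
    30 * x 1 - 251 * x 0 < 0}

theorem pentOpen_isOpen : IsOpen pentOpen := by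
  have h0 := cont0
  have h1 := cont1
  have g0 : IsOpen {x : E2 | 30 * x 0 - 251 * x 1 < (0 : ℝ)} :=
    isOpen_lt (by fun_prop) (by fun_prop)
  have g1 : IsOpen {x : E2 | 221 * (500 * x 0 - 251) - 30 * (500 * x 1 - 30) < (0 : ℝ)} :=
    isOpen_lt (by fun_prop) (by fun_prop)
  have g2 : IsOpen {x : E2 | 500 * x 0 + 500 * x 1 < (532 : ℝ)} :=
    isOpen_lt (by fun_prop) (by fun_prop)
  have g3 : IsOpen {x : E2 | 221 * (500 * x 1 - 251) - 30 * (500 * x 0 - 30) < (0 : ℝ)} :=
    isOpen_lt (by fun_prop) (by fun_prop)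
  have g4 : IsOpen {x : E2 | 30 * x 1 - 251 * x 0 < (0 : ℝ)} :=
    isOpen_lt (by fun_prop) (by fun_prop)
  exact g0.inter (g1.inter (g2.inter (g3.inter g4)))

theorem pentOpen_subset : pentOpen ⊆ pent := fun _ hx =>
  ⟨hx.1.le, hx.2.1.le, hx.2.2.1.le, hx.2.2.2.1.le, hx.2.2.2.2.le⟩

theorem pentOpen_subset_interior : pentOpen ⊆ interior pent :=
  interior_maximal pentOpen_subset pentOpen_isOpen

theorem pent_interior : (interior pent).Nonempty := by
  refine ⟨pt 100 100, pentOpen_subset_interior ?_⟩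
  refine ⟨?_, ?_, ?_, ?_, ?_⟩ <;> simp <;> norm_num

/-- A point between two others is in the segment. -/
theorem mem_seg {x : E2} {a b c d t : ℝ} (ht0 : 0 ≤ t) (ht1 : t ≤ 1)
    (h0 : x 0 = (1 - t) * (a / 500) + t * (c / 500))
    (h1 : x 1 = (1 - t) * (b / 500) + t * (d / 500)) : x ∈ segment ℝ (pt a b) (pt c d) := by
  refine ⟨1 - t, t, by linarith, ht0, by ring, ?_⟩
  ext i
  fin_cases i
  · simp [h0]
  · simp [h1]

theorem frontier_subset : frontier pent ⊆
    segment ℝ (pt 0 0) (pt 251 30) ∪ (segment ℝ (pt 251 30) (pt 281 251) ∪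
      (segment ℝ (pt 281 251) (pt 251 281) ∪ (segment ℝ (pt 30 251) (pt 251 281) ∪
        segment ℝ (pt 0 0) (pt 30 251)))) := by
  intro x hx
  have hxp : x ∈ pent := pent_closed.frontier_subset hx
  have hxn : x ∉ pentOpen := fun h => hx.2 (pentOpen_subset_interior h)
  obtain ⟨h1, h2, h3, h4, h5⟩ := hxp
  by_cases c1 : 30 * x 0 - 251 * x 1 < 0
  · by_cases c2 : 221 * (500 * x 0 - 251) - 30 * (500 * x 1 - 30) < 0
    · by_cases c3 : 500 * x 0 + 500 * x 1 < 532
      · by_cases c4 : 221 * (500 * x 1 - 251) - 30 * (500 * x 0 - 30) < 0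
        · by_cases c5 : 30 * x 1 - 251 * x 0 < 0
          · exact absurd ⟨c1, c2, c3, c4, c5⟩ hxn
          · refine Or.inr (Or.inr (Or.inr (Or.inr ?_)))
            have e : x 0 = 30 * x 1 / 251 := by linarith
            refine mem_seg (t := 500 * x 1 / 251) (by linarith) (by linarith) ?_ ?_
            · rw [e]; ring
            · ring
        · refine Or.inr (Or.inr (Or.inr (Or.inl ?_)))
          refine mem_seg (t := (500 * x 0 - 30) / 221) (by linarith) (by linarith) ?_ ?_
          · ring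
          · linarith
      · refine Or.inr (Or.inr (Or.inl ?_))
        refine mem_seg (t := (281 - 500 * x 0) / 30) (by linarith) (by linarith) ?_ ?_
        · ring
        · linarith
    · refine Or.inr (Or.inl ?_)
      refine mem_seg (t := (500 * x 1 - 30) / 221) (by linarith) (by linarith) ?_ ?_
      · linarith
      · ring
  · refine Or.inl ?_
    refine mem_seg (t := 500 * x 0 / 251) (by linarith) (by linarith) ?_ ?_
    · ring
    · linarith

theorem len_seg {a b c d L : ℝ} (hL : 0 ≤ L) (h : (a - c) ^ 2 + (b - d) ^ 2 ≤ (500 * L) ^ 2) :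
    MeasureTheory.Measure.hausdorffMeasure 1 (segment ℝ (pt a b) (pt c d))
      ≤ ENNReal.ofReal L := by
  rw [hausdorffMeasure_segment, edist_dist]
  apply ENNReal.ofReal_le_ofReal
  rw [EuclideanSpace.dist_eq, Fin.sum_univ_two]
  rw [Real.sqrt_le_left hL]
  simp only [pt_zero, pt_one, Real.dist_eq, sq_abs]
  nlinarith

theorem perimeter_le :
    MeasureTheory.Measure.hausdorffMeasure 1 (frontier pent) ≤ 2 := by
  have e1 := len_seg (a := 0) (b := 0) (c := 251) (d := 30) (L := 253 / 500)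
    (by norm_num) (by norm_num)
  have e2 := len_seg (a := 251) (b := 30) (c := 281) (d := 251) (L := 224 / 500)
    (by norm_num) (by norm_num)
  have e3 := len_seg (a := 281) (b := 251) (c := 251) (d := 281) (L := 43 / 500)
    (by norm_num) (by norm_num)
  have e4 := len_seg (a := 30) (b := 251) (c := 251) (d := 281) (L := 224 / 500)
    (by norm_num) (by norm_num)
  have e5 := len_seg (a := 0) (b := 0) (c := 30) (d := 251) (L := 253 / 500)
    (by norm_num) (by norm_num)
  calc MeasureTheory.Measure.hausdorffMeasure 1 (frontier pent)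
      ≤ _ := measure_mono frontier_subset
    _ ≤ _ := (measure_union_le _ _).trans (add_le_add_right ((measure_union_le _ _).trans
        (add_le_add_right ((measure_union_le _ _).trans
          (add_le_add_right (measure_union_le _ _) _)) _)) _)
    _ ≤ ENNReal.ofReal (253 / 500) + (ENNReal.ofReal (224 / 500) + (ENNReal.ofReal (43 / 500) +
        (ENNReal.ofReal (224 / 500) + ENNReal.ofReal (253 / 500)))) := by gcongr
    _ = ENNReal.ofReal (997 / 500) := by
        rw [← ENNReal.ofReal_add (by norm_num) (by norm_num),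
          ← ENNReal.ofReal_add (by norm_num) (by norm_num),
          ← ENNReal.ofReal_add (by norm_num) (by norm_num),
          ← ENNReal.ofReal_add (by norm_num) (by norm_num)]
        congr 1
        norm_num
    _ ≤ 2 := by
        rw [show (2 : ENNReal) = ENNReal.ofReal 2 by simp]
        exact ENNReal.ofReal_le_ofReal (by norm_num)

theorem mem0 : pt 0 0 ∈ pent := by
  refine ⟨?_, ?_, ?_, ?_, ?_⟩ <;> simp <;> norm_num
theorem mem1 : pt 251 30 ∈ pent := by
  refine ⟨?_, ?_, ?_, ?_, ?_⟩ <;> simp <;> norm_num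
theorem mem2 : pt 281 251 ∈ pent := by
  refine ⟨?_, ?_, ?_, ?_, ?_⟩ <;> simp <;> norm_num
theorem mem3 : pt 251 281 ∈ pent := by
  refine ⟨?_, ?_, ?_, ?_, ?_⟩ <;> simp <;> norm_num
theorem mem4 : pt 30 251 ∈ pent := by
  refine ⟨?_, ?_, ?_, ?_, ?_⟩ <;> simp <;> norm_num

/-- The two unit normals: the coordinate directions. -/
noncomputable def nrm : Fin 2 → E2 := fun i => EuclideanSpace.single i (1 : ℝ)

theorem inner_nrm (x : E2) (i : Fin 2) : inner ℝ x (nrm i) = x i := by
  simp [nrm, EuclideanSpace.inner_single_right]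

/-- The negation of the preceding statement: For any finitely many planar strips with given unit normals and positive widths summing to 1, and any planar convex body with perimeter at most 2, the strips can be translated so that their union covers the body. -/
theorem result :
    ¬ (∀ (n : ℕ) (u : Fin n → EuclideanSpace ℝ (Fin 2)) (w : Fin n → ℝ),
      (∀ i, ‖u i‖ = 1) → (∀ i, 0 < w i) → (∑ i, w i) = 1 →
      ∀ B : Set (EuclideanSpace ℝ (Fin 2)),
        IsCompact B → Convex ℝ B → (interior B).Nonempty →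
        MeasureTheory.Measure.hausdorffMeasure 1 (frontier B) ≤ 2 →
        ∃ c : Fin n → ℝ,
          B ⊆ ⋃ i, {x : EuclideanSpace ℝ (Fin 2) |
            c i ≤ inner ℝ x (u i) ∧ inner ℝ x (u i) ≤ c i + w i}) := by
  intro H
  obtain ⟨c, hc⟩ := H 2 nrm (fun _ => 1 / 2) (by intro i; simp [nrm]) (by intro i; norm_num)
    (by simp) pent pent_compact pent_convex pent_interior perimeter_le
  have key : ∀ x ∈ pent, (c 0 ≤ x 0 ∧ x 0 ≤ c 0 + 1 / 2) ∨ (c 1 ≤ x 1 ∧ x 1 ≤ c 1 + 1 / 2) := by
    intro x hx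
    have := hc hx
    rw [Set.mem_iUnion] at this
    obtain ⟨i, hi⟩ := this
    simp only [Set.mem_ofPred_eq, inner_nrm] at hi
    fin_cases i
    · exact Or.inl hi
    · exact Or.inr hi
  have k0 := key _ mem0
  have k1 := key _ mem1
  have k2 := key _ mem2
  have k3 := key _ mem3
  have k4 := key _ mem4
  simp only [pt_zero, pt_one] at k0 k1 k2 k3 k4
  rcases k0 with ⟨a0, b0⟩ | ⟨a0, b0⟩
  · rcases k1 with ⟨a1, b1⟩ | ⟨a1, b1⟩
    · linarith
    · rcases k3 with ⟨a3, b3⟩ | ⟨a3, b3⟩
      · linarith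
      · linarith
  · rcases k4 with ⟨a4, b4⟩ | ⟨a4, b4⟩
    · rcases k2 with ⟨a2, b2⟩ | ⟨a2, b2⟩
      · linarith
      · linarith
    · linarith

end Pool.Agent.S11730
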