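import Pool.Statements.S11851
import Pool.Agent.Helper83.DC7.Final
import Pool.Agent.Helper92.AR.Iterate

set_option autoImplicit false
open Pool Pool.MP_dc7dd9_co

namespace Pool.Agent.S11851

/-- For each d ≥ 2 there is ε > 0 such that for every finite field F_q, every d-linear form P over F_q has analytic rank −log_q of its character bias at least ε times its Schmidt rank (fewest terms ∑ Q_i R_i with deg Q_i, R_i < d). -/
theorem result :
  ∀ d : ℕ, 2 ≤ d → ∃ ε : ℝ, 0 < ε ∧
    ∀ (F : Type) [Field F] [Fintype F] (n : ℕ) (P : MvPolynomial (Fin d × Fin n) F),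
      (∀ m ∈ P.support, ∀ i : Fin d, ∑ j : Fin n, m (i, j) = 1) →
      ∀ ψ : AddChar F ℂ, ψ ≠ 1 →
      ∀ r : ℕ,
        (¬ ∃ k < r, ∃ Q R : Fin k → MvPolynomial (Fin d × Fin n) F,
            (∀ i, (Q i).totalDegree < d ∧ (R i).totalDegree < d) ∧
              P = ∑ i, Q i * R i) →
        ε * (r : ℝ) ≤ -Real.logb (Fintype.card F : ℝ)
          (‖∑ x : Fin d × Fin n → F, ψ (MvPolynomial.eval x P)‖ /
            (Fintype.card F : ℝ) ^ (d * n)) := by
  exact Pool.Agent.Helper83.DC7.main fun s => Pool.Agent.Helper92.AR.large_field (s + 1)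

end Pool.Agent.S11851
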