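import Pool.Statements.S12039
-- import your own Pool.Agent.* helpers here
import Pool.Agent.Helper50.Rec.Final

set_option autoImplicit false
open Pool Pool.MP_e2dd58_co

namespace Pool.Agent.S12039

/-- For distinct non-integer reals a,b>1, every set of naturals with positive upper density contains m, m+floor(n^a)^2, m+floor(n^b)^2 for some m and some n≥1 with floor(n^a) different from floor(n^b). -/
theorem result :
    ∀ a b : ℝ, 1 < a → 1 < b → a ≠ b →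
      (∀ k : ℤ, a ≠ (k : ℝ)) → (∀ k : ℤ, b ≠ (k : ℝ)) →
      ∀ E : Set ℕ,
        (∃ δ : ℝ, 0 < δ ∧ ∀ N₀ : ℕ, ∃ N : ℕ, N₀ ≤ N ∧
            δ * (N : ℝ) ≤ (({k : ℕ | k ∈ E ∧ k < N}.ncard : ℕ) : ℝ)) →
        ∃ m n : ℕ, 0 < n ∧ ⌊(n : ℝ) ^ a⌋₊ ≠ ⌊(n : ℝ) ^ b⌋₊ ∧
          m ∈ E ∧ m + ⌊(n : ℝ) ^ a⌋₊ ^ 2 ∈ E ∧ m + ⌊(n : ℝ) ^ b⌋₊ ^ 2 ∈ E := by
  intro a b ha hb hab ha' hb' E hE
  exact Pool.Agent.Helper50.Rec.main_thm a b ha hb hab ha' hb' E hE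

end Pool.Agent.S12039
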