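import Pool.Statements.S12236
import Pool.Agent.Helper41.SO.Cex
import Pool.Agent.Helper13.TS.Frozen

set_option autoImplicit false
open Pool Pool.MP_eb8c5c_co

namespace Pool.Agent.S12236

/-- The negation of the preceding statement: For all n,d ≥ 1, every spread-out set U of n nonnegative integer vectors with coordinate sum n−1 is exactly the set of positions v of the unmixed cells v+Δ in some fine mixed subdivision of nΔ_{d−1}. -/
theorem result :
    ¬ (∀ (n d : ℕ), 1 ≤ n → 1 ≤ d →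
  ∀ P : (Fin n → Finset (Fin d)) → Set (Fin d → ℝ),
  P = (fun B => convexHull ℝ {x : Fin d → ℝ | ∃ f : Fin n → Fin d, (∀ i, f i ∈ B i) ∧
        ∀ k, x k = ((Finset.univ.filter (fun i => f i = k)).card : ℝ)}) →
  ∀ U : Finset (Fin d → ℕ), U.card = n → (∀ v ∈ U, ∑ k, v k = n - 1) →
  (∀ W ⊆ U, W.Nonempty → ∀ m : Fin d → ℕ, (∀ w ∈ W, ∀ k, m k ≤ w k) →
      ∑ k, m k ≤ n - W.card) →
  ∃ S : Finset (Fin n → Finset (Fin d)),
    (∀ B ∈ S, (∀ i, (B i).Nonempty) ∧ ∑ i, ((B i).card - 1) = d - 1 ∧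
        Module.finrank ℝ (vectorSpan ℝ (P B)) = d - 1) ∧
    (∀ x : Fin d → ℝ, (∀ k, 0 ≤ x k) → ∑ k, x k = (n : ℝ) → ∃ B ∈ S, x ∈ P B) ∧
    (∀ B ∈ S, ∀ C ∈ S, P B ∩ P C = ∅ ∨
        ∃ l m : Fin d → ℝ, ∀ F : Fin n → Finset (Fin d),
          F = (fun i => (B i).filter (fun k => ∀ k' ∈ B i, l k ≤ l k')) →
          (F = (fun i => (C i).filter (fun k => ∀ k' ∈ C i, m k ≤ m k')) ∧
            P B ∩ P C = P F)) ∧
    (∀ v : Fin d → ℕ, v ∈ U ↔ ∃ B ∈ S, ∃ i, B i = Finset.univ ∧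
        ∀ k, v k = (Finset.univ.filter (fun j => j ≠ i ∧ k ∈ B j)).card)) := by
  refine Helper13.TS.not_main_of_test (n := 9) (d := 6) (by norm_num) (by norm_num)
    Pool.Agent.Helper41.SO.Cex.v (by decide) (by decide +kernel) ?_
  rintro ⟨T, hT, -, hvT⟩
  exact Pool.Agent.Helper41.SO.Cex.no_fam hT hvT

end Pool.Agent.S12236
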