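import Pool.Statements.S12603
-- import your own Pool.Agent.* helpers here
import Pool.Agent.Helper31.RS.Main

set_option autoImplicit false
open Pool Pool.MP_fd2cdc_co

namespace Pool.Agent.S12603

/-- Every infinite poset with a uniform bound on chain sizes has an infinite antichain H such that each element is comparable to no element of H, exactly one element of H, or infinitely many elements of H. -/
theorem result :
    ∀ (P : Type) [PartialOrder P], Infinite P →
      (∃ n : ℕ, ∀ s : Set P, IsChain (· ≤ ·) s → s.encard ≤ (n : ℕ∞)) →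
      ∃ H : Set P, H.Infinite ∧ IsAntichain (· ≤ ·) H ∧
        ∀ x : P,
          ({h | h ∈ H ∧ (x ≤ h ∨ h ≤ x)}.encard = 0 ∨
           {h | h ∈ H ∧ (x ≤ h ∨ h ≤ x)}.encard = 1 ∨
           {h | h ∈ H ∧ (x ≤ h ∨ h ≤ x)}.Infinite) := by
  intro P _ hinf hchain
  obtain ⟨n, hn⟩ := hchain
  have hno : ∀ s : Set P, IsChain (· ≤ ·) s → ¬ s.Infinite := by
    intro s hs hsi
    have h1 := hn s hs
    rw [hsi.encard_eq, top_le_iff] at h1
    exact ENat.coe_ne_top n h1
  have hlt : WellFounded ((· < ·) : P → P → Prop) := by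
    rw [RelEmbedding.wellFounded_iff_isEmpty]
    refine ⟨fun f => hno (Set.range f) ?_ (Set.infinite_range_of_injective f.injective)⟩
    rintro _ ⟨i, rfl⟩ _ ⟨j, rfl⟩ hne
    rcases lt_trichotomy i j with h | h | h
    · exact Or.inr (f.map_rel_iff.2 h).le
    · exact absurd (by rw [h]) hne
    · exact Or.inl (f.map_rel_iff.2 h).le
  have hgt : WellFounded ((· > ·) : P → P → Prop) := by
    rw [RelEmbedding.wellFounded_iff_isEmpty]
    refine ⟨fun f => hno (Set.range f) ?_ (Set.infinite_range_of_injective f.injective)⟩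
    rintro _ ⟨i, rfl⟩ _ ⟨j, rfl⟩ hne
    rcases lt_trichotomy i j with h | h | h
    · exact Or.inl (le_of_lt (f.map_rel_iff.2 h))
    · exact absurd (by rw [h]) hne
    · exact Or.inr (le_of_lt (f.map_rel_iff.2 h))
  haveI : WellFoundedLT P := ⟨hlt⟩
  haveI : WellFoundedGT P := ⟨hgt⟩
  exact Pool.Agent.Helper31.RS.exists_antichain P

end Pool.Agent.S12603
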