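import Pool.Statements.S13086
import Pool.Agent.Helper82.TL7

set_option autoImplicit false
open Pool Pool.MP_424fb5_gt

namespace Pool.Agent.S13086

/-- The negation of the preceding statement: For every metric continuum M in which any uncountable family of nondegenerate subcontinua has two distinct members sharing a nondegenerate subcontinuum, there is a countable subset of M meeting every nondegenerate subcontinuum. -/
theorem result :
    ¬ (∀ (X : Type) [MetricSpace X] [CompactSpace X] [ConnectedSpace X],
      (∀ G : Set (Set X), ¬ G.Countable →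
          (∀ K ∈ G, IsCompact K ∧ IsConnected K ∧ K.Nontrivial) →
          ∃ A ∈ G, ∃ B ∈ G, A ≠ B ∧
            ∃ C : Set X, C ⊆ A ∩ B ∧ IsCompact C ∧ IsConnected C ∧ C.Nontrivial) →
      ∃ S : Set X, S.Countable ∧
        ∀ K : Set X, IsCompact K → IsConnected K → K.Nontrivial → (S ∩ K).Nonempty) := by
  intro h
  letI : MetricSpace Pool.Agent.Helper82.TL.MM :=
    TopologicalSpace.metrizableSpaceMetric Pool.Agent.Helper82.TL.MM
  exact Pool.Agent.Helper82.TL.prop_H
    (h Pool.Agent.Helper82.TL.MM (fun G hG hK => Pool.Agent.Helper82.TL.prop_U G hG hK))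

end Pool.Agent.S13086
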