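import Pool.Statements.S13257
import Pool.Agent.Helper79.GalvinFinal

set_option autoImplicit false
open Pool Pool.MP_5f379b_gt

namespace Pool.Agent.S13257

open Set Filter Topology Pool.Agent.Helper79.Galvin

/-- A subspace of a scattered linearly ordered space is a scattered generalized ordered space. -/
theorem gos_subtype (X : Type) [TopologicalSpace X] [LinearOrder X] [OrderTopology X]
    (hsc : ∀ A : Set X, A.Nonempty → ∃ x ∈ A, ∃ U : Set X, IsOpen U ∧ U ∩ A = {x})
    (S : Set X) : GOS S where
  isOpen_Iio := fun a => (isOpen_Iio (a := a.1)).preimage continuous_subtype_val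
  isOpen_Ioi := fun a => (isOpen_Ioi (a := a.1)).preimage continuous_subtype_val
  convex := by
    intro x U hU
    rw [nhds_subtype_eq_comap, Filter.mem_comap] at hU
    obtain ⟨V, hV, hVU⟩ := hU
    refine ⟨Subtype.val ⁻¹' (ordConnectedComponent V x.1), ?_, ?_, ?_⟩
    · rw [nhds_subtype_eq_comap]
      exact Filter.preimage_mem_comap (ordConnectedComponent_mem_nhds.2 hV)
    · intro y hy
      have hy' : y.1 ∈ ordConnectedComponent V x.1 := hy
      have hy'' : y.1 ∈ V := ordConnectedComponent_subset hy'
      exact hVU hy''
    · constructor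
      intro a ha b hb c hc
      have h1 : (ordConnectedComponent V x.1).OrdConnected := inferInstance
      have ha' : a.1 ∈ ordConnectedComponent V x.1 := ha
      have hb' : b.1 ∈ ordConnectedComponent V x.1 := hb
      exact h1.out ha' hb' ⟨hc.1, hc.2⟩
  scat := by
    intro A hA
    obtain ⟨x, ⟨x', hx', rfl⟩, U, hU, hUA⟩ := hsc (Subtype.val '' A) (hA.image _)
    refine ⟨x', hx', ?_⟩
    have hxU : x'.1 ∈ U := by
      have h1 : x'.1 ∈ U ∩ Subtype.val '' A := by rw [hUA]; rfl
      exact h1.1
    filter_upwards [(hU.preimage continuous_subtype_val).mem_nhds hxU] with z hz hzA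
    have h1 : z.1 ∈ U ∩ Subtype.val '' A := ⟨hz, z, hzA, rfl⟩
    rw [hUA] at h1
    exact Subtype.ext h1

/-- An order on the whole space in the sense of `Orders` gives a linear order with the right
order topology. -/
theorem exists_linearOrder {Y : Type} [TopologicalSpace Y] {r : Y → Y → Prop}
    (h : Orders r (Set.univ : Set Y)) : ∃ o : LinearOrder Y,
      @OrderTopology Y _ (@PartialOrder.toPreorder Y (@LinearOrder.toPartialOrder Y o)) := by
  classical
  let o : LinearOrder Y :=
    { le := fun x y => x = y ∨ r x y
      lt := r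
      le_refl := fun x => Or.inl rfl
      le_trans := by
        rintro x y z (rfl | hxy) (rfl | hyz)
        · exact Or.inl rfl
        · exact Or.inr hyz
        · exact Or.inr hxy
        · exact Or.inr (h.trans x trivial y trivial z trivial hxy hyz)
      lt_iff_le_not_ge := by
        intro x y
        constructor
        · intro hxy
          refine ⟨Or.inr hxy, ?_⟩
          rintro (rfl | hyx)
          · exact h.irrefl _ trivial hxy
          · exact h.asymm trivial trivial hxy hyx
        · rintro ⟨rfl | hxy, h2⟩
          · exact absurd (Or.inl rfl) h2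
          · exact hxy
      le_antisymm := by
        rintro x y (rfl | hxy) (hyx | hyx)
        · rfl
        · rfl
        · exact hyx.symm
        · exact absurd hyx (h.asymm trivial trivial hxy)
      le_total := by
        intro x y
        by_cases hxy : x = y
        · exact Or.inl (Or.inl hxy)
        · rcases h.total x trivial y trivial hxy with h1 | h1
          · exact Or.inl (Or.inr h1)
          · exact Or.inr (Or.inr h1)
      toDecidableLE := Classical.decRel _ }
  refine ⟨o, ?_⟩
  let _ := o
  have hlt : ∀ x y : Y, x < y ↔ r x y := fun x y => Iff.rfl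
  refine ⟨?_⟩
  apply le_antisymm
  · apply le_generateFrom
    rintro _ ⟨a, rfl | rfl⟩
    · rw [isOpen_iff_mem_nhds]
      intro x hx
      have h1 := h.openL a trivial x trivial hx
      rw [nhdsWithin_univ] at h1
      exact h1
    · rw [isOpen_iff_mem_nhds]
      intro x hx
      have h1 := h.openR a trivial x trivial hx
      rw [nhdsWithin_univ] at h1
      exact h1
  · intro U hU
    have hIoi : ∀ a, IsOpen[Preorder.topology Y] (Ioi a) := fun a =>
      TopologicalSpace.isOpen_generateFrom_of_mem ⟨a, Or.inl rfl⟩
    have hIio : ∀ a, IsOpen[Preorder.topology Y] (Iio a) := fun a =>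
      TopologicalSpace.isOpen_generateFrom_of_mem ⟨a, Or.inr rfl⟩
    refine (@isOpen_iff_forall_mem_open Y (Preorder.topology Y) U).2 ?_
    intro x hx
    have hU' : U ∈ 𝓝[Set.univ] x := by
      rw [nhdsWithin_univ]
      exact hU.mem_nhds hx
    have hL : ∃ L : Set Y, IsOpen[Preorder.topology Y] L ∧ x ∈ L ∧ ∀ y ∈ L, y < x → y ∈ U := by
      rcases h.baseL x trivial U hU' with h1 | ⟨a, _, hax, h1⟩
      · exact ⟨Set.univ, (Preorder.topology Y).isOpen_univ, trivial, fun y _ hy => h1 y trivial hy⟩
      · exact ⟨Ioi a, hIoi a, hax, fun y hy hyx => h1 y trivial hy hyx⟩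
    have hR : ∃ L : Set Y, IsOpen[Preorder.topology Y] L ∧ x ∈ L ∧ ∀ y ∈ L, x < y → y ∈ U := by
      rcases h.baseR x trivial U hU' with h1 | ⟨a, _, hax, h1⟩
      · exact ⟨Set.univ, (Preorder.topology Y).isOpen_univ, trivial, fun y _ hy => h1 y trivial hy⟩
      · exact ⟨Iio a, hIio a, hax, fun y hy hyx => h1 y trivial hyx hy⟩
    obtain ⟨L, hL1, hL2, hL3⟩ := hL
    obtain ⟨R, hR1, hR2, hR3⟩ := hR
    refine ⟨L ∩ R, ?_, (Preorder.topology Y).isOpen_inter L R hL1 hR1, hL2, hR2⟩
    intro y hy
    rcases lt_trichotomy y x with h1 | h1 | h1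
    · exact hL3 y hy.1 h1
    · rw [h1]; exact hx
    · exact hR3 y hy.2 h1

/-- For every linearly ordered space with its order topology in which every nonempty subset has an isolated point, every subset admits some linear order whose order topology equals its subspace topology. -/
theorem result :
    ∀ (X : Type) [TopologicalSpace X] [LinearOrder X] [OrderTopology X],
      (∀ A : Set X, A.Nonempty → ∃ x ∈ A, ∃ U : Set X, IsOpen U ∧ U ∩ A = {x}) →
      ∀ S : Set X, ∃ o : LinearOrder S,
        @OrderTopology S _ (@PartialOrder.toPreorder S (@LinearOrder.toPartialOrder S o)) := by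
  intro X _ _ _ hsc S
  have := gos_subtype X hsc S
  obtain ⟨r, hr⟩ := gos_orderable (Y := S)
  exact exists_linearOrder hr

end Pool.Agent.S13257
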