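import Pool.Statements.S14430
import Pool.Agent.Helper70.NoEq

set_option autoImplicit false
open Pool Pool.MP_1a0bc6_lc

namespace Pool.Agent.S14430

/-- The negation of the preceding statement: In every finite concurrent stochastic game where player 1 wants to reach T and player 2 wants to avoid U, for each start state and ε>0 there are stationary strategies from which no stationary deviation gains either player more than ε. -/
theorem result :
    ¬ (∀ (S A B : Type) [Fintype S] [Fintype A] [Fintype B] [Nonempty A] [Nonempty B]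
      (δ : S → A → B → S → ℝ),
      (∀ s a b t, 0 ≤ δ s a b t) → (∀ s a b, ∑ t, δ s a b t = 1) →
      ∀ (T U : Set S) (s₀ : S) (ε : ℝ), 0 < ε →
      ∃ σ : S → A → ℝ, ∃ τ : S → B → ℝ,
        (∀ s a, 0 ≤ σ s a) ∧ (∀ s, ∑ a, σ s a = 1) ∧
        (∀ s b, 0 ≤ τ s b) ∧ (∀ s, ∑ b, τ s b = 1) ∧
        (∀ σ' : S → A → ℝ, (∀ s a, 0 ≤ σ' s a) → (∀ s, ∑ a, σ' s a = 1) →
          (⨆ n : ℕ, (fun x : S → ℝ => T.indicator (fun _ => (1 : ℝ)) +
              Tᶜ.indicator (fun s => ∑ t, (∑ a, ∑ b, σ' s a * τ s b * δ s a b t) * x t))^[n] 0 s₀)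
            ≤ (⨆ n : ℕ, (fun x : S → ℝ => T.indicator (fun _ => (1 : ℝ)) +
              Tᶜ.indicator (fun s => ∑ t, (∑ a, ∑ b, σ s a * τ s b * δ s a b t) * x t))^[n] 0 s₀) + ε) ∧
        (∀ τ' : S → B → ℝ, (∀ s b, 0 ≤ τ' s b) → (∀ s, ∑ b, τ' s b = 1) →
          (⨆ n : ℕ, (fun x : S → ℝ => U.indicator (fun _ => (1 : ℝ)) +
              Uᶜ.indicator (fun s => ∑ t, (∑ a, ∑ b, σ s a * τ s b * δ s a b t) * x t))^[n] 0 s₀)
            ≤ (⨆ n : ℕ, (fun x : S → ℝ => U.indicator (fun _ => (1 : ℝ)) +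
              Uᶜ.indicator (fun s => ∑ t, (∑ a, ∑ b, σ s a * τ' s b * δ s a b t) * x t))^[n] 0 s₀) + ε)) := by
  intro H
  obtain ⟨σ, τ, hσ, hσ1, hτ, hτ1, h1, h2⟩ :=
    H (Fin 7) Bool Bool Helper70.gameD Helper70.gameD_nonneg Helper70.gameD_sum
      Helper70.tgt Helper70.uns 0 (1 / 100) (by norm_num)
  exact Helper70.no_eq σ τ hσ hσ1 hτ hτ1 h1 h2

end Pool.Agent.S14430
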