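import Pool.Statements.S14588
import Pool.Agent.Helper92.TSP.M30
import Pool.Agent.Helper92.TSP.M32

set_option autoImplicit false
open Pool Pool.MP_399332_lc

namespace Pool.Agent.S14588

/-- The negation of the preceding statement: There is a constant C>0 such that every metric on n points admits an ordering of all points whose induced cyclic tour on any subset S costs at most C·log n times any cyclic tour of S. -/
theorem result :
    ¬ (∃ C : ℝ, 0 < C ∧
      ∀ (n : ℕ) (d : Fin n → Fin n → ℝ),
        (∀ i j, d i j = 0 ↔ i = j) →
        (∀ i j, d i j = d j i) →
        (∀ i j k, d i k ≤ d i j + d j k) →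
        ∃ L : List (Fin n), L.Nodup ∧ (∀ x, x ∈ L) ∧
          ∀ (S : Finset (Fin n)) (M : List (Fin n)),
            M.Nodup → (∀ x, x ∈ M ↔ x ∈ S) →
              (((L.filter (fun x => x ∈ S)).zip
                  ((L.filter (fun x => x ∈ S)).rotate 1)).map
                  (fun p => d p.1 p.2)).sum
                ≤ C * Real.log n *
                  ((M.zip (M.rotate 1)).map (fun p => d p.1 p.2)).sum) := by
  exact Pool.Agent.TSP92.transfer Pool.Agent.TSP92.main_counterexample

end Pool.Agent.S14588
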