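import Pool.Statements.S15144
import Pool.Agent.Helper73.BAOrder
import Pool.Agent.Helper73.BAComp
import Pool.Agent.Helper73.BAMain

set_option autoImplicit false
open Pool Pool.MP_a2ec29_lc

namespace Pool.Agent.S15144

open Pool.Agent.Helper73.BA

/-- the empty element is sent to the empty set -/
theorem psi_bot {α : Type} [BooleanAlgebra α] (ψ : α → Set ℕ)
    (h1 : ∀ a b, ψ (a ⊔ b) = ψ a ∪ ψ b) (h2 : ∀ a, ψ aᶜ = (ψ a)ᶜ) : ψ ⊥ = ∅ := by
  have h3 : ψ ⊤ = Set.univ := by
    have : ψ (⊥ ⊔ ⊥ᶜ) = ψ ⊥ ∪ (ψ ⊥)ᶜ := by rw [h1, h2]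
    rw [sup_compl_eq_top, Set.union_compl_self] at this
    exact this
  have h4 : ψ (⊤ᶜ) = (ψ ⊤)ᶜ := h2 ⊤
  rw [compl_top, h3, Set.compl_univ] at h4
  exact h4

theorem psi_inf {α : Type} [BooleanAlgebra α] (ψ : α → Set ℕ)
    (h1 : ∀ a b, ψ (a ⊔ b) = ψ a ∪ ψ b) (h2 : ∀ a, ψ aᶜ = (ψ a)ᶜ) (a b : α) :
    ψ (a ⊓ b) = ψ a ∩ ψ b := by
  have : a ⊓ b = (aᶜ ⊔ bᶜ)ᶜ := by rw [compl_sup, compl_compl, compl_compl]
  rw [this, h2, h1, h2, h2, Set.compl_union, compl_compl, compl_compl]

/-- finite elements are sent to finite sets -/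
theorem psi_finite (ψ : FC → Set ℕ) (hinj : Function.Injective ψ)
    (h1 : ∀ a b, ψ (a ⊔ b) = ψ a ∪ ψ b) (h2 : ∀ a, ψ aᶜ = (ψ a)ᶜ)
    (hrange : Set.range ψ = Set.range (fun a : FC => (a : Set ℕ)))
    (X : Set ℕ) (hX : X.Finite) : ∀ h : X ∈ FC, (ψ ⟨X, h⟩).Finite := by
  classical
  have hsing : ∀ x : ℕ, ∀ h : ({x} : Set ℕ) ∈ FC, (ψ ⟨{x}, h⟩).Finite := by
    intro x h
    apply Set.Subsingleton.finite
    intro y hy z hz
    by_contra hne
    have hyFC : ({y} : Set ℕ) ∈ FC := Or.inl (Set.finite_singleton y)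
    have : ({y} : Set ℕ) ∈ Set.range ψ := by
      rw [hrange]; exact ⟨⟨{y}, hyFC⟩, rfl⟩
    obtain ⟨b, hb⟩ := this
    have h3 : ψ (b ⊓ ⟨{x}, h⟩) = ψ b := by
      rw [psi_inf ψ h1 h2, hb]
      ext w
      simp only [Set.mem_inter_iff, Set.mem_singleton_iff]
      constructor
      · rintro ⟨h, _⟩; exact h
      · rintro rfl; exact ⟨rfl, hy⟩
    have h4 : b ⊓ ⟨{x}, h⟩ = b := hinj h3
    have h5 : (b : Set ℕ) ⊆ {x} := by
      have := congrArg Subtype.val h4
      intro w hw
      have h6 : w ∈ ((b ⊓ ⟨{x}, h⟩ : FC) : Set ℕ) := by rw [h4]; exact hw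
      exact h6.2
    rcases Set.subset_singleton_iff_eq.1 h5 with h6 | h6
    · have h7 : b = ⊥ := Subtype.ext h6
      rw [h7, psi_bot ψ h1 h2] at hb
      exact absurd hb (Set.singleton_ne_empty y).symm
    · have h7 : b = ⟨{x}, h⟩ := Subtype.ext h6
      rw [← h7, hb] at hz
      exact hne hz.symm
  induction X, hX using Set.Finite.induction_on with
  | empty =>
    intro h
    have : (⟨∅, h⟩ : FC) = ⊥ := rfl
    rw [this, psi_bot ψ h1 h2]
    exact Set.finite_empty
  | @insert a s ha hs ih =>
    intro h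
    have e1 : ({a} : Set ℕ) ∈ FC := Or.inl (Set.finite_singleton a)
    have e2 : s ∈ FC := Or.inl hs
    have : (⟨insert a s, h⟩ : FC) = ⟨{a}, e1⟩ ⊔ ⟨s, e2⟩ := rfl
    rw [this, h1]
    exact (hsing a e1).union (ih e2)

/-- The negation of the preceding statement: Take any computable infinite linear order L and computable Boolean algebra B isomorphic to the algebra of finite unions of half-open intervals of L. Then some computable copy of L makes B computably isomorphic to that copy's interval algebra. -/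
theorem result :
    ¬ (∀ (β : Type) [LinearOrder β] (l : ℕ ≃ β),
      ComputablePred (fun p : ℕ × ℕ => l p.1 ≤ l p.2) →
      ∀ (α : Type) [BooleanAlgebra α] (e : ℕ ≃ α),
        Computable₂ (fun m n : ℕ => e.symm (e m ⊔ e n)) →
        Computable₂ (fun m n : ℕ => e.symm (e m ⊓ e n)) →
        Computable (fun n : ℕ => e.symm (e n)ᶜ) →
        (∃ φ : α → Set β, Function.Injective φ ∧
            (∀ a b, φ (a ⊔ b) = φ a ∪ φ b) ∧
            (∀ a, φ aᶜ = (φ a)ᶜ) ∧
            Set.range φ = {X : Set β | ∃ S : Finset β, ∃ b : Bool,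
              X = {x : β | Xor' (b = true) (Odd (S.filter (fun s => s ≤ x)).card)}}) →
        ∃ l' : ℕ ≃ β, ComputablePred (fun p : ℕ × ℕ => l' p.1 ≤ l' p.2) ∧
          ∃ ψ : α → Set β, Function.Injective ψ ∧
            (∀ a b, ψ (a ⊔ b) = ψ a ∪ ψ b) ∧
            (∀ a, ψ aᶜ = (ψ a)ᶜ) ∧
            Set.range ψ = {X : Set β | ∃ S : Finset β, ∃ b : Bool,
              X = {x : β | Xor' (b = true) (Odd (S.filter (fun s => s ≤ x)).card)}} ∧
            ∃ c : ℕ → List ℕ × Bool, Computable c ∧
              ∀ n : ℕ, ψ (e n) = {x : β | Xor' ((c n).2 = true)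
                (Odd ((c n).1.filter (fun s => decide (l' s ≤ x))).length)}) := by
  intro H
  have hle : ComputablePred (fun p : ℕ × ℕ => (Equiv.refl ℕ) p.1 ≤ (Equiv.refl ℕ) p.2) :=
    Primrec.nat_le.computablePred
  have hφ : ∃ φ : FC → Set ℕ, Function.Injective φ ∧
            (∀ a b, φ (a ⊔ b) = φ a ∪ φ b) ∧
            (∀ a, φ aᶜ = (φ a)ᶜ) ∧
            Set.range φ = {X : Set ℕ | ∃ S : Finset ℕ, ∃ b : Bool,
              X = {x : ℕ | Xor' (b = true) (Odd (S.filter (fun s => s ≤ x)).card)}} :=
    ⟨fun a => (a : Set ℕ), Subtype.coe_injective, fun a b => rfl, fun a => rfl, range_eq⟩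
  obtain ⟨l', _, ψ, hinj, h1, h2, hrange, c, hc, hψ⟩ :=
    H ℕ (Equiv.refl ℕ) hle FC enumFC sup_computable inf_computable compl_computable hφ
  rw [← range_eq] at hrange
  apply isTrue_not_computable
  -- cofiniteness is computable
  have key : ∀ n : ℕ, ((enumFC n : FC) : Set ℕ)ᶜ.Finite ↔
      Xor' ((c n).2 = true) (Odd ((c n).1).length) := by
    intro n
    -- eventually constant membership
    obtain ⟨N, hN⟩ : ∃ N : ℕ, ∀ s ∈ (c n).1, l' s ≤ N := by
      refine ⟨((c n).1.map l').sum, ?_⟩
      intro s hs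
      exact List.single_le_sum (by simp) _ (List.mem_map_of_mem hs)
    have hev : ∀ x : ℕ, N ≤ x → (x ∈ ψ (enumFC n) ↔ Xor' ((c n).2 = true) (Odd ((c n).1).length)) := by
      intro x hx
      rw [hψ n]
      have : (c n).1.filter (fun s => decide (l' s ≤ x)) = (c n).1 := by
        rw [List.filter_eq_self]
        intro s hs
        simpa using (hN s hs).trans hx
      show Xor' ((c n).2 = true) (Odd ((c n).1.filter (fun s => decide (l' s ≤ x))).length) ↔ _
      rw [this]
    constructor
    · intro hcof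
      by_contra hcon
      have hfin1 : (ψ (enumFC n)).Finite := by
        refine (Set.finite_Iio N).subset ?_
        intro x hx
        by_contra hxN
        exact hcon ((hev x (not_lt.1 hxN)).1 hx)
      have hfin2 : (ψ (enumFC n)ᶜ).Finite := by
        have := psi_finite ψ hinj h1 h2 hrange _ hcof ((enumFC n)ᶜ).2
        exact this
      rw [h2] at hfin2
      have : (Set.univ : Set ℕ).Finite := by
        rw [← Set.union_compl_self (ψ (enumFC n))]
        exact hfin1.union hfin2
      exact Set.infinite_univ this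
    · intro hx
      rcases (enumFC n).2 with hfin | hcof
      · exfalso
        have hfin1 : (ψ (enumFC n)).Finite := psi_finite ψ hinj h1 h2 hrange _ hfin (enumFC n).2
        have hfin2 : (ψ (enumFC n))ᶜ.Finite := by
          refine (Set.finite_Iio N).subset ?_
          intro x hxx
          by_contra hxN
          exact hxx ((hev x (not_lt.1 hxN)).2 hx)
        have : (Set.univ : Set ℕ).Finite := by
          rw [← Set.union_compl_self (ψ (enumFC n))]
          exact hfin1.union hfin2
        exact Set.infinite_univ this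
      · exact hcof
  have hcode : ∀ s : ℕ, code (2 ^ s) = {s} := by
    intro s
    have : Finset.equivBitIndices.symm {s} = 2 ^ s := by simp
    unfold code
    rw [← this, Equiv.apply_symm_apply]
  have htrue : ∀ s : ℕ, IsTrue enumF s ↔
      Xor' ((c (2 ^ s)).2 = true) (Odd ((c (2 ^ s)).1).length) := by
    intro s
    rw [← key (2 ^ s), enumFC_coe, hcode, Phi_singleton]
    constructor
    · intro ht
      refine (true_below_finite ht).subset ?_
      intro x hx
      have hx' : ¬ leF enumF s x := hx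
      have hne : s ≠ x := by
        rintro rfl; exact hx' (leF_refl _)
      exact (not_leF_iff enumF_injective hne).1 hx'
    · intro hfin
      by_contra hnt
      have h3 := false_above_finite enumF_injective hnt
      have : (Set.univ : Set ℕ).Finite := by
        rw [← Set.union_compl_self {x | leF enumF s x}]
        exact h3.union hfin
      exact Set.infinite_univ this
  have hcomp : ComputablePred (fun n : ℕ => Xor' ((c n).2 = true) (Odd ((c n).1).length)) := by
    rw [ComputablePred.computable_iff]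
    refine ⟨fun n => xor (c n).2 ((c n).1.length).bodd, ?_, ?_⟩
    · have e1 : Computable (fun n => (c n).2) := Computable.snd.comp hc
      have e2 : Computable (fun n => ((c n).1.length).bodd) :=
        Computable.nat_bodd.comp (Computable.list_length.comp (Computable.fst.comp hc))
      exact (Primrec.dom_bool₂ xor).to_comp.comp e1 e2
    · funext n
      apply propext
      have : Odd ((c n).1.length) ↔ ((c n).1.length).bodd = true := by
        rw [Nat.odd_iff, Nat.mod_two_of_bodd]
        cases ((c n).1.length).bodd <;> simp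
      rw [this]
      have hx : ∀ p q : Bool, Xor' (p = true) (q = true) ↔ ((xor p q) = true) := by
        intro p q
        cases p <;> cases q <;> simp [Xor']
      exact hx _ _
  obtain ⟨g, hg, hg'⟩ := ComputablePred.computable_iff.1 hcomp
  rw [ComputablePred.computable_iff]
  refine ⟨fun s => g (2 ^ s), hg.comp nat_pow_primrec.to_comp, ?_⟩
  funext s
  have := congrFun hg' (2 ^ s)
  rw [← this]
  exact propext (htrue s)

end Pool.Agent.S15144
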