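import Pool.Statements.S15649

/-!
Every one-sided random context grammar is equivalent to a left random context grammar
(erasing rules allowed); hence left random context grammars generate all recursively
enumerable languages.

Idea. The sentential forms of the simulated grammar are written one after the other, as segments
x0 x1 ... xm of one sentential form of the simulating grammar. The letters of a segment are
activated one by one from left to right and then erased; while a letter of a segment is active,
the leftmost receiver of the next segment may receive it (a rule with a left permitting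
context), and it must see a moment without active letter before the next one is received (a
left forbidding context). A segment cannot force the previous one to wait, so a receiver may
miss letters. But the context-free part of the grammar links the number of letters of the last
segment to the total growth of the simulated sentential forms. So a potential argument
(`Gram.pot`) shows that in a successful derivation no letter is missed. The letters of the
previous segment which are not yet activated and those of the current segment which are already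
written are both on the left of the current receiver: these are the right context and the left
context of the simulated rule.
-/

set_option autoImplicit false
open Pool Pool.MP_fc8a61_lc

namespace Pool.Agent.S15649

open Relation

/-- Letters written inside the simulated sentential forms. -/
inductive Lt (T N : Type) : Type
  | sym : Symbol T N → Lt T N
  | bl : Lt T N
  | fn : Option T → Lt T N

/-- Kinds of receivers. -/
inductive Kd (ι : Type) : Type
  | cp : Kd ι
  | ru : ι → Kd ι
  | xx : Kd ι

/-- Nonterminals of the simulating grammar. -/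
inductive NT (T N ι : Type) : Type
  | start : NT T N ι
  | mark : NT T N ι
  | gen : Bool → NT T N ι
  | rc : Bool × Kd ι → NT T N ι
  | vv : Bool × Kd ι × Lt T N → NT T N ι
  | rr : Bool × Lt T N → NT T N ι
  | aa : Bool × Lt T N → NT T N ι

/-- The simulated grammar, rules indexed by `ι`. -/
structure Gram (T N ι : Type) where
  lhs : ι → N
  rhs : ι → List (Symbol T N)
  isL : ι → Prop
  U : ι → Finset N
  W : ι → Finset N

theorem finite_Lt (T N : Type) [Finite T] [Finite N] : Finite (Lt T N) := by
  classical
  have := Fintype.ofFinite T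
  have := Fintype.ofFinite N
  refine Finite.of_injective
    (β := Symbol T N ⊕ Unit ⊕ Option T)
    (fun x => match x with
      | .sym s => Sum.inl s
      | .bl => Sum.inr (Sum.inl ())
      | .fn o => Sum.inr (Sum.inr o)) ?_
  intro x y h
  cases x <;> cases y <;> simp_all

theorem finite_Kd (ι : Type) [Finite ι] : Finite (Kd ι) := by
  refine Finite.of_injective
    (β := Unit ⊕ ι ⊕ Unit)
    (fun x => match x with
      | .cp => Sum.inl ()
      | .ru s => Sum.inr (Sum.inl s)
      | .xx => Sum.inr (Sum.inr ())) ?_
  intro x y h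
  cases x <;> cases y <;> simp_all

theorem finite_NT (T N ι : Type) [Finite T] [Finite N] [Finite ι] : Finite (NT T N ι) := by
  have := finite_Lt T N
  have := finite_Kd ι
  refine Finite.of_injective
    (β := Bool ⊕ Bool ⊕ (Bool × Kd ι) ⊕ (Bool × Kd ι × Lt T N) ⊕ (Bool × Lt T N) ⊕ (Bool × Lt T N))
    (fun x => match x with
      | .start => Sum.inl true
      | .mark => Sum.inl false
      | .gen c => Sum.inr (Sum.inl c)
      | .rc c => Sum.inr (Sum.inr (Sum.inl c))
      | .vv c => Sum.inr (Sum.inr (Sum.inr (Sum.inl c)))
      | .rr c => Sum.inr (Sum.inr (Sum.inr (Sum.inr (Sum.inl c))))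
      | .aa c => Sum.inr (Sum.inr (Sum.inr (Sum.inr (Sum.inr c))))) ?_
  intro x y h
  cases x <;> cases y <;> simp_all

variable {T N ι : Type}

/-- nonfinal letters -/
def Lt.NF : Lt T N → Prop
  | .fn _ => False
  | _ => True

/-- final letters -/
def Lt.Fin : Lt T N → Prop
  | .fn _ => True
  | _ => False

/-- weight -/
def Lt.wt : Lt T N → ℤ
  | .fn _ => 0
  | _ => 1

/-- output of a letter -/
def Lt.out : Lt T N → List T
  | .fn o => o.toList
  | _ => []

/-- meaning of a letter as a piece of a sentential form of the simulated grammar -/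
def Lt.val : Lt T N → List (Symbol T N)
  | .sym s => [s]
  | .bl => []
  | .fn o => o.toList.map Symbol.terminal

namespace Gram

variable (G : Gram T N ι)

/-- Nonempty right-hand side: an empty one is replaced by a blank. -/
def resR (i : ι) : List (Lt T N) :=
  match G.rhs i with
  | [] => [Lt.bl]
  | x :: l => (x :: l).map Lt.sym

/-- extra length -/
def ex (i : ι) : ℕ := (G.resR i).length - 1

/-- result of a receiver of kind `k` on the letter `g` -/
def res : Kd ι → Lt T N → List (Lt T N)
  | .cp, g => [g]
  | .ru i, _ => G.resR i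
  | .xx, .sym (.terminal t) => [Lt.fn (some t)]
  | .xx, _ => [Lt.fn none]

/-- a receiver of kind `k` can receive the letter `g` -/
def acc : Kd ι → Lt T N → Prop
  | .cp, g => g.NF
  | .ru i, g => g = Lt.sym (.nonterminal (G.lhs i))
  | .xx, g => g = Lt.bl ∨ ∃ t, g = Lt.sym (.terminal t)

/-- weight of receiver kinds -/
def e : Kd ι → ℤ
  | .cp => 0
  | .ru i => G.ex i
  | .xx => -1

/-- context condition -/
def ctx (k : Kd ι) (s r : List (Lt T N)) : Prop :=
  match k with
  | .ru i => (G.isL i → (∀ B ∈ G.U i, Lt.sym (.nonterminal B) ∈ r) ∧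
                (∀ B ∈ G.W i, Lt.sym (.nonterminal B) ∉ r)) ∧
             (¬ G.isL i → (∀ B ∈ G.U i, Lt.sym (.nonterminal B) ∈ s) ∧
                (∀ B ∈ G.W i, Lt.sym (.nonterminal B) ∉ s))
  | _ => True

/-- context condition on a tagged list -/
def ctxP (c : Bool) (k : Kd ι) (p : List (Bool × Lt T N)) : Prop :=
  match k with
  | .ru i => (G.isL i → (∀ B ∈ G.U i, (c, Lt.sym (.nonterminal B)) ∈ p) ∧
                (∀ B ∈ G.W i, (c, Lt.sym (.nonterminal B)) ∉ p)) ∧
             (¬ G.isL i → (∀ B ∈ G.U i, (!c, Lt.sym (.nonterminal B)) ∈ p) ∧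
                (∀ B ∈ G.W i, (!c, Lt.sym (.nonterminal B)) ∉ p))
  | _ => True

/-- permitting set of the receiving rule -/
def permP (c : Bool) (k : Kd ι) (g : Lt T N) (X : NT T N ι) : Prop :=
  X = NT.aa (!c, g) ∨
  match k with
  | .ru i => (G.isL i ∧ ∃ B ∈ G.U i, X = NT.rr (c, Lt.sym (.nonterminal B))) ∨
             (¬ G.isL i ∧ ∃ B ∈ G.U i, X = NT.rr (!c, Lt.sym (.nonterminal B)))
  | _ => False

/-- forbidding set of the receiving rule -/
def forbP (c : Bool) (k : Kd ι) (X : NT T N ι) : Prop :=
  ((∀ x, X ≠ NT.aa x) ∧ (∀ x, X ≠ NT.rr x)) ∨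
  match k with
  | .ru i => (G.isL i ∧ ∃ B ∈ G.W i, X = NT.rr (c, Lt.sym (.nonterminal B))) ∨
             (¬ G.isL i ∧ ∃ B ∈ G.W i, X = NT.rr (!c, Lt.sym (.nonterminal B)))
  | _ => False

/-- Rules of the simulating grammar; contexts are given as predicates. -/
inductive HR (S : N) : NT T N ι → List (Symbol T (NT T N ι)) → (NT T N ι → Prop) →
    (NT T N ι → Prop) → Prop
  | start : HR S .start [.nonterminal .mark, .nonterminal (.rr (false, Lt.sym (.nonterminal S))),
      .nonterminal (.gen true), .nonterminal (.rc (false, .xx))] (fun _ => False) (fun _ => False)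
  | gcp (c : Bool) : HR S (.gen c) [.nonterminal (.rc (c, .cp)), .nonterminal (.gen c)]
      (fun X => X = .mark) (fun _ => False)
  | gru (c : Bool) (i : ι) : HR S (.gen c)
      ([.nonterminal (.rc (c, .ru i)), .nonterminal (.gen c)] ++
        List.replicate (G.ex i) (.nonterminal (.rc (false, .xx))))
      (fun X => X = .mark) (fun _ => False)
  | gsw (c : Bool) : HR S (.gen c) [.nonterminal (.gen (!c))]
      (fun X => X = .mark) (fun _ => False)
  | gst : HR S (.gen true) [.nonterminal (.rc (true, .cp))]
      (fun X => X = .mark) (fun _ => False)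
  | mk : HR S .mark [] (fun _ => False) (fun _ => False)
  | rc (c : Bool) (k : Kd ι) (g : Lt T N) (h : G.acc k g) : HR S (.rc (c, k))
      [.nonterminal (.vv (c, k, g))] (G.permP c k g) (G.forbP c k)
  | vv (c : Bool) (k : Kd ι) (g : Lt T N) : HR S (.vv (c, k, g))
      ((G.res k g).map (fun x => .nonterminal (.rr (c, x)))) (fun _ => False)
      (fun X => ∃ x, X = .aa x)
  | rr (x : Bool × Lt T N) : HR S (.rr x) [.nonterminal (.aa x)] (fun _ => False) (fun _ => True)
  | aa (x : Bool × Lt T N) : HR S (.aa x) (x.2.out.map .terminal) (fun _ => False)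
      (fun _ => False)

/-- derivation step of the simulating grammar -/
def HStep (S : N) (α β : List (Symbol T (NT T N ι))) : Prop :=
  ∃ (u v : List (Symbol T (NT T N ι))) (A : NT T N ι) (x : List (Symbol T (NT T N ι)))
    (U W : NT T N ι → Prop),
    α = u ++ [Symbol.nonterminal A] ++ v ∧ β = u ++ x ++ v ∧ G.HR S A x U W ∧
    (∀ B, U B → Symbol.nonterminal B ∈ u) ∧ (∀ B, W B → Symbol.nonterminal B ∉ u)

/-- derivation step of the simulated grammar -/
def GStep (α β : List (Symbol T N)) : Prop :=
  ∃ (u v : List (Symbol T N)) (i : ι),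
    α = u ++ [Symbol.nonterminal (G.lhs i)] ++ v ∧ β = u ++ G.rhs i ++ v ∧
    (G.isL i → (∀ B ∈ G.U i, Symbol.nonterminal B ∈ u) ∧
                (∀ B ∈ G.W i, Symbol.nonterminal B ∉ u)) ∧
    (¬ G.isL i → (∀ B ∈ G.U i, Symbol.nonterminal B ∈ v) ∧
                (∀ B ∈ G.W i, Symbol.nonterminal B ∉ v))

end Gram

/-- States of the abstract machine. -/
structure St (T N ι : Type) where
  t : List T
  a : Option (Bool × Lt T N)
  p : List (Bool × Lt T N)
  v : Option (Bool × Kd ι × Lt T N)
  q : List (Bool × Kd ι)

def St.nts (σ : St T N ι) : List (NT T N ι) :=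
  (σ.a.toList.map NT.aa ++ σ.p.map NT.rr) ++ (σ.v.toList.map NT.vv ++ σ.q.map NT.rc)

def St.form (σ : St T N ι) : List (Symbol T (NT T N ι)) :=
  σ.t.map Symbol.terminal ++ σ.nts.map Symbol.nonterminal

/-- Transitions of the abstract machine. -/
inductive Tr (G : Gram T N ι) : St T N ι → St T N ι → Prop
  | act (t : List T) (x : Bool × Lt T N) (p : List (Bool × Lt T N))
      (v : Option (Bool × Kd ι × Lt T N)) (q : List (Bool × Kd ι)) :
      Tr G ⟨t, none, x :: p, v, q⟩ ⟨t, some x, p, v, q⟩
  | die (t : List T) (x : Bool × Lt T N) (p : List (Bool × Lt T N))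
      (v : Option (Bool × Kd ι × Lt T N)) (q : List (Bool × Kd ι)) :
      Tr G ⟨t, some x, p, v, q⟩ ⟨t ++ x.2.out, none, p, v, q⟩
  | rel (t : List T) (p : List (Bool × Lt T N)) (c : Bool) (k : Kd ι) (g : Lt T N)
      (q : List (Bool × Kd ι)) :
      Tr G ⟨t, none, p, some (c, k, g), q⟩ ⟨t, none, p ++ (G.res k g).map (fun y => (c, y)), none, q⟩
  | rcv (t : List T) (p : List (Bool × Lt T N)) (c : Bool) (k : Kd ι) (g : Lt T N)
      (q : List (Bool × Kd ι)) (h : G.acc k g) (h2 : G.ctxP c k p) :
      Tr G ⟨t, some (!c, g), p, none, (c, k) :: q⟩ ⟨t, some (!c, g), p, some (c, k, g), q⟩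

/-- Splitting a word `t ++ nonterminals` at a nonterminal. -/
theorem split_form (t : List T) (n : List (NT T N ι)) (u v : List (Symbol T (NT T N ι)))
    (A : NT T N ι)
    (h : t.map Symbol.terminal ++ n.map Symbol.nonterminal = u ++ [Symbol.nonterminal A] ++ v) :
    ∃ n1 n2, n = n1 ++ A :: n2 ∧ u = t.map Symbol.terminal ++ n1.map Symbol.nonterminal ∧
      v = n2.map Symbol.nonterminal := by
  induction t generalizing u with
  | nil =>
    simp only [List.map_nil, List.nil_append] at h ⊢
    induction n generalizing u with
    | nil => simp at h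
    | cons x n ih =>
      cases u with
      | nil =>
        simp only [List.map_cons, List.nil_append, List.cons_append, List.cons.injEq,
          Symbol.nonterminal.injEq] at h
        exact ⟨[], n, by simp [h.1], by simp, h.2.symm⟩
      | cons y u =>
        simp only [List.map_cons, List.cons_append, List.cons.injEq] at h
        obtain ⟨n1, n2, h1, h2, h3⟩ := ih u (by simpa using h.2)
        exact ⟨x :: n1, n2, by simp [h1], by simp [h.1, h2], h3⟩
  | cons x t ih =>
    cases u with
    | nil => simp at h
    | cons y u =>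
      simp only [List.map_cons, List.cons_append, List.cons.injEq] at h
      obtain ⟨n1, n2, h1, h2, h3⟩ := ih u (by simpa using h.2)
      exact ⟨n1, n2, h1, by simp [h.1, h2], h3⟩

/-- uniqueness of a splitting by a predicate -/
theorem split_unique {α : Type} (P : α → Prop) (l1 l2 m1 m2 : List α) (x : α)
    (h1 : ∀ y ∈ l1, P y) (hx : ¬ P x) (h2 : ∀ y ∈ m1, P y) (h3 : ∀ y ∈ m2, ¬ P y)
    (h : m1 ++ m2 = l1 ++ x :: l2) : l1 = m1 ∧ m2 = x :: l2 := by
  induction m1 generalizing l1 with
  | nil =>
    cases l1 with
    | nil => simpa using h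
    | cons y l1 =>
      simp only [List.nil_append, List.cons_append] at h
      exact absurd (h1 y (by simp)) (h3 y (by rw [h]; simp))
  | cons z m1 ih =>
    cases l1 with
    | nil =>
      simp only [List.cons_append, List.nil_append, List.cons.injEq] at h
      exact absurd (h.1 ▸ h2 z (by simp)) hx
    | cons y l1 =>
      simp only [List.cons_append, List.cons.injEq] at h
      obtain ⟨ha, hb⟩ := ih l1 (fun y hy => h1 y (by simp [hy])) (fun y hy => h2 y (by simp [hy])) h.2
      exact ⟨by rw [ha, h.1], hb⟩

/-- If `x` is not in `m1`, the splitting happens in `m2`. -/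
theorem split_right {α : Type} (l1 l2 m1 m2 : List α) (x : α)
    (hx : x ∉ m1) (h : m1 ++ m2 = l1 ++ x :: l2) : ∃ l', l1 = m1 ++ l' ∧ m2 = l' ++ x :: l2 := by
  induction m1 generalizing l1 with
  | nil => exact ⟨l1, by simp, by simpa using h⟩
  | cons z m1 ih =>
    cases l1 with
    | nil =>
      simp only [List.cons_append, List.nil_append, List.cons.injEq] at h
      exact absurd (by simp [h.1]) hx
    | cons y l1 =>
      simp only [List.cons_append, List.cons.injEq] at h
      obtain ⟨l', ha, hb⟩ := ih l1 (fun hh => hx (by simp [hh])) h.2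
      exact ⟨l', by rw [ha, h.1]; simp, hb⟩

theorem mem_nts {σ : St T N ι} {X : NT T N ι} (h : X ∈ σ.nts) :
    (∃ x, X = .aa x) ∨ (∃ x, X = .rr x) ∨ (∃ x, X = .vv x) ∨ (∃ x, X = .rc x) := by
  simp only [St.nts, List.mem_append, List.mem_map] at h
  rcases h with (⟨x, _, h⟩ | ⟨x, _, h⟩) | (⟨x, _, h⟩ | ⟨x, _, h⟩)
  · exact Or.inl ⟨x, h.symm⟩
  · exact Or.inr (Or.inl ⟨x, h.symm⟩)
  · exact Or.inr (Or.inr (Or.inl ⟨x, h.symm⟩))
  · exact Or.inr (Or.inr (Or.inr ⟨x, h.symm⟩))

theorem not_mem_map_rc {X : NT T N ι} (q : List (Bool × Kd ι)) (h : ∀ x, X ≠ .rc x) :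
    X ∉ q.map NT.rc := by
  simp only [List.mem_map, not_exists, not_and]
  intro x _ hx
  exact h x hx.symm

theorem step_tr (G : Gram T N ι) (S : N) (σ : St T N ι) (β : List (Symbol T (NT T N ι)))
    (h : G.HStep S σ.form β) : ∃ σ' : St T N ι, β = σ'.form ∧ Tr G σ σ' := by
  obtain ⟨u, v, A, x, U, W, h1, h2, hr, hU, hW⟩ := h
  obtain ⟨n1, n2, hn, hu, hv⟩ := split_form _ _ _ _ _ h1
  have hU' : ∀ B, U B → B ∈ n1 := by
    intro B hB
    have := hU B hB
    rw [hu] at this
    simpa using this
  have hW' : ∀ B, W B → B ∉ n1 := by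
    intro B hB hB'
    exact hW B hB (by rw [hu]; simp [hB'])
  have hA : A ∈ σ.nts := by rw [hn]; simp
  obtain ⟨t, a, p, vo, q⟩ := σ
  cases hr with
  | start => rcases mem_nts hA with ⟨x, h⟩ | ⟨x, h⟩ | ⟨x, h⟩ | ⟨x, h⟩ <;> cases h
  | gcp c => rcases mem_nts hA with ⟨x, h⟩ | ⟨x, h⟩ | ⟨x, h⟩ | ⟨x, h⟩ <;> cases h
  | gru c i => rcases mem_nts hA with ⟨x, h⟩ | ⟨x, h⟩ | ⟨x, h⟩ | ⟨x, h⟩ <;> cases h
  | gsw c => rcases mem_nts hA with ⟨x, h⟩ | ⟨x, h⟩ | ⟨x, h⟩ | ⟨x, h⟩ <;> cases h
  | gst => rcases mem_nts hA with ⟨x, h⟩ | ⟨x, h⟩ | ⟨x, h⟩ | ⟨x, h⟩ <;> cases h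
  | mk => rcases mem_nts hA with ⟨x, h⟩ | ⟨x, h⟩ | ⟨x, h⟩ | ⟨x, h⟩ <;> cases h
  | rc c k g hacc =>
    simp only [St.nts] at hn
    have hP : ∀ y ∈ n1, (∃ x, y = NT.aa x) ∨ (∃ x, y = NT.rr x) := by
      intro y hy
      by_contra hcon
      push Not at hcon
      exact hW' y (Or.inl ⟨hcon.1, hcon.2⟩) hy
    obtain ⟨e1, e2⟩ := split_unique (fun y => (∃ x, y = NT.aa x) ∨ (∃ x, y = NT.rr x))
      n1 n2 (a.toList.map NT.aa ++ p.map NT.rr) (vo.toList.map NT.vv ++ q.map NT.rc)
      (NT.rc (c, k)) hP (by simp) (by
        intro y hy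
        simp only [List.mem_append, List.mem_map] at hy
        rcases hy with ⟨x, _, hx⟩ | ⟨x, _, hx⟩
        · exact Or.inl ⟨x, hx.symm⟩
        · exact Or.inr ⟨x, hx.symm⟩) (by
        intro y hy
        simp only [List.mem_append, List.mem_map] at hy
        rcases hy with ⟨x, _, hx⟩ | ⟨x, _, hx⟩ <;> subst hx <;> simp) hn
    cases vo with
    | some y => simp at e2
    | none =>
      cases q with
      | nil => simp at e2
      | cons y q =>
        simp only [Option.toList_none, List.map_nil, List.map_cons, List.nil_append,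
          List.cons.injEq, NT.rc.injEq] at e2
        obtain ⟨rfl, rfl⟩ := e2
        have hmem : NT.aa (!c, g) ∈ n1 := hU' _ (Or.inl rfl)
        rw [e1] at hmem
        have ha : a = some (!c, g) := by
          simp only [List.mem_append, List.mem_map, reduceCtorEq, and_false, exists_false,
            or_false, NT.aa.injEq, exists_eq_right, Option.mem_toList] at hmem
          simpa using hmem
        subst ha
        refine ⟨⟨t, some (!c, g), p, some (c, k, g), q⟩, ?_, ?_⟩
        · rw [h2, hu, hv, e1]
          simp [St.form, St.nts]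
        · apply Tr.rcv _ _ _ _ _ _ hacc
          cases k with
          | cp => trivial
          | xx => trivial
          | ru i =>
            refine ⟨fun hL => ⟨fun B hB => ?_, fun B hB hmem' => ?_⟩,
              fun hL => ⟨fun B hB => ?_, fun B hB hmem' => ?_⟩⟩
            · have := hU' (NT.rr (c, Lt.sym (.nonterminal B))) (Or.inr (Or.inl ⟨hL, B, hB, rfl⟩))
              rw [e1] at this
              simpa using this
            · have := hW' (NT.rr (c, Lt.sym (.nonterminal B))) (Or.inr (Or.inl ⟨hL, B, hB, rfl⟩))
              rw [e1] at this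
              apply this
              simpa using hmem'
            · have := hU' (NT.rr (!c, Lt.sym (.nonterminal B))) (Or.inr (Or.inr ⟨hL, B, hB, rfl⟩))
              rw [e1] at this
              simpa using this
            · have := hW' (NT.rr (!c, Lt.sym (.nonterminal B))) (Or.inr (Or.inr ⟨hL, B, hB, rfl⟩))
              rw [e1] at this
              apply this
              simpa using hmem'
  | vv c k g =>
    simp only [St.nts] at hn
    obtain ⟨l', e1, e2⟩ := split_right n1 n2 (a.toList.map NT.aa ++ p.map NT.rr)
      (vo.toList.map NT.vv ++ q.map NT.rc) (NT.vv (c, k, g)) (by simp) hn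
    have ha : a = none := by
      cases a with
      | none => rfl
      | some y => exact absurd (by rw [e1]; simp) (hW' (NT.aa y) ⟨y, rfl⟩)
    subst ha
    cases vo with
    | none =>
      exfalso
      have : (NT.vv (c, k, g) : NT T N ι) ∈ q.map NT.rc := by
        simp only [Option.toList_none, List.map_nil, List.nil_append] at e2
        rw [e2]; simp
      simp at this
    | some y =>
      cases l' with
      | cons z l' =>
        exfalso
        simp only [Option.toList_some, List.map_cons, List.map_nil, List.cons_append,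
          List.nil_append, List.cons.injEq] at e2
        have : (NT.vv (c, k, g) : NT T N ι) ∈ q.map NT.rc := by
          rw [e2.2]; simp
        simp at this
      | nil =>
        simp only [Option.toList_some, List.map_cons, List.map_nil, List.cons_append,
          List.nil_append, List.cons.injEq, NT.vv.injEq] at e2
        obtain ⟨rfl, rfl⟩ := e2
        refine ⟨⟨t, none, p ++ (G.res k g).map (fun y => (c, y)), none, q⟩, ?_, Tr.rel _ _ _ _ _ _⟩
        rw [h2, hu, hv, e1]
        simp [St.form, St.nts, Function.comp_def]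
  | rr x =>
    simp only [St.nts] at hn
    cases n1 with
    | cons y n1 => exact absurd (by simp) (hW' y trivial)
    | nil =>
      cases a with
      | some y => simp at hn
      | none =>
        cases p with
        | nil =>
          exfalso
          cases vo with
          | none =>
            cases q with
            | nil => simp at hn
            | cons y q => simp at hn
          | some y => simp at hn
        | cons y p =>
          simp only [Option.toList_none, List.map_nil, List.map_cons, List.nil_append,
            List.cons_append, List.cons.injEq, NT.rr.injEq] at hn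
          obtain ⟨rfl, hn⟩ := hn
          refine ⟨⟨t, some y, p, vo, q⟩, ?_, Tr.act _ _ _ _ _⟩
          rw [h2, hu, hv, ← hn]
          simp [St.form, St.nts]
  | aa x =>
    simp only [St.nts] at hn
    have key : ∀ (l : List (NT T N ι)), l = p.map NT.rr ++ (vo.toList.map NT.vv ++ q.map NT.rc) →
        NT.aa x ∉ l := by
      intro l hl
      rw [hl]
      simp
    cases a with
    | none =>
      exfalso
      simp only [Option.toList_none, List.map_nil, List.nil_append] at hn
      exact key _ rfl (by rw [hn]; simp)
    | some y =>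
      cases n1 with
      | cons z n1 =>
        exfalso
        simp only [Option.toList_some, List.map_cons, List.map_nil, List.cons_append,
          List.nil_append, List.cons.injEq] at hn
        exact key _ rfl (by rw [hn.2]; simp)
      | nil =>
        simp only [Option.toList_some, List.map_cons, List.map_nil, List.cons_append,
          List.nil_append, List.cons.injEq, NT.aa.injEq] at hn
        obtain ⟨rfl, hn⟩ := hn
        refine ⟨⟨t ++ y.2.out, none, p, vo, q⟩, ?_, Tr.die _ _ _ _ _⟩
        rw [h2, hu, hv, ← hn]
        simp [St.form, St.nts]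

theorem tr_step (G : Gram T N ι) (S : N) (σ σ' : St T N ι) (h : Tr G σ σ') :
    G.HStep S σ.form σ'.form := by
  cases h with
  | act t x p v q =>
    refine ⟨t.map Symbol.terminal, (p.map NT.rr ++ (v.toList.map NT.vv ++ q.map NT.rc)).map
      Symbol.nonterminal, NT.rr x, _, _, _, ?_, ?_, Gram.HR.rr x, ?_, ?_⟩
    · simp [St.form, St.nts]
    · simp [St.form, St.nts]
    · intro B hB; exact hB.elim
    · intro B _; simp
  | die t x p v q =>
    refine ⟨t.map Symbol.terminal, (p.map NT.rr ++ (v.toList.map NT.vv ++ q.map NT.rc)).map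
      Symbol.nonterminal, NT.aa x, _, _, _, ?_, ?_, Gram.HR.aa x, ?_, ?_⟩
    · simp [St.form, St.nts]
    · simp [St.form, St.nts]
    · intro B hB; exact hB.elim
    · intro B hB; exact hB.elim
  | rel t p c k g q =>
    refine ⟨t.map Symbol.terminal ++ (p.map NT.rr).map Symbol.nonterminal, (q.map NT.rc).map
      Symbol.nonterminal, NT.vv (c, k, g), _, _, _, ?_, ?_, Gram.HR.vv c k g, ?_, ?_⟩
    · simp [St.form, St.nts]
    · simp [St.form, St.nts, Function.comp_def]
    · intro B hB; exact hB.elim
    · rintro B ⟨x, rfl⟩; simp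
  | rcv t p c k g q h h2 =>
    refine ⟨t.map Symbol.terminal ++ (NT.aa (!c, g) :: p.map NT.rr).map Symbol.nonterminal,
      (q.map NT.rc).map Symbol.nonterminal, NT.rc (c, k), _, _, _, ?_, ?_,
      Gram.HR.rc c k g h, ?_, ?_⟩
    · simp [St.form, St.nts]
    · simp [St.form, St.nts]
    · rintro B (rfl | hB)
      · simp
      · cases k with
        | cp => exact hB.elim
        | xx => exact hB.elim
        | ru i =>
          rcases hB with ⟨hL, B', hB', rfl⟩ | ⟨hL, B', hB', rfl⟩
          · have := (h2.1 hL).1 B' hB'
            simp [this]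
          · have := (h2.2 hL).1 B' hB'
            simp [this]
    · rintro B (hB | hB)
      · intro hmem
        simp only [List.map_cons, List.map_map, List.mem_append, List.mem_map, List.mem_cons,
          reduceCtorEq, and_false, exists_false, false_or, Symbol.nonterminal.injEq,
          Function.comp_apply] at hmem
        rcases hmem with h' | ⟨x, _, h'⟩
        · exact hB.1 _ h'
        · exact hB.2 _ h'.symm
      · cases k with
        | cp => exact hB.elim
        | xx => exact hB.elim
        | ru i =>
          rcases hB with ⟨hL, B', hB', rfl⟩ | ⟨hL, B', hB', rfl⟩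
          · have := (h2.1 hL).2 B' hB'
            simpa using this
          · have := (h2.2 hL).2 B' hB'
            simpa using this

theorem nil_of_form_terminal {σ : St T N ι} {w : List T}
    (h : σ.form = w.map Symbol.terminal) : σ = ⟨w, none, [], none, []⟩ := by
  obtain ⟨t, a, p, v, q⟩ := σ
  have h1 : ∀ X ∈ (St.nts ⟨t, a, p, v, q⟩), False := by
    intro X hX
    have : Symbol.nonterminal X ∈ (St.form ⟨t, a, p, v, q⟩) := by
      simp [St.form, hX]
    rw [h] at this
    simp at this
  have h2 : St.nts ⟨t, a, p, v, q⟩ = [] := List.eq_nil_iff_forall_not_mem.mpr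
    (fun X hX => h1 X hX)
  have h3 := h
  simp only [St.form, h2, List.map_nil, List.append_nil] at h3
  have h4 : t = w := by
    have hinj : Function.Injective (Symbol.terminal : T → Symbol T (NT T N ι)) := by
      intro x y hxy
      injection hxy
    exact List.map_injective_iff.mpr hinj h3
  simp only [St.nts, List.append_eq_nil_iff, List.map_eq_nil_iff] at h2
  obtain ⟨⟨ha, hp⟩, hv, hq⟩ := h2
  subst hp hq h4
  cases a <;> cases v <;> simp_all

/-- final state -/
def fin_ (w : List T) : St T N ι := ⟨w, none, [], none, []⟩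

theorem star_of_hstar (G : Gram T N ι) (S : N) (w : List T)
    (α : List (Symbol T (NT T N ι))) (h : ReflTransGen (G.HStep S) α (w.map Symbol.terminal)) :
    ∀ σ : St T N ι, σ.form = α → ReflTransGen (Tr G) σ (fin_ w) := by
  induction h using ReflTransGen.head_induction_on with
  | refl =>
    intro σ hσ
    rw [nil_of_form_terminal hσ]
    exact ReflTransGen.refl
  | head h1 _ ih =>
    intro σ hσ
    subst hσ
    obtain ⟨σ', rfl, h2⟩ := step_tr G S σ _ h1
    exact ReflTransGen.head h2 (ih σ' rfl)

theorem hstar_of_star (G : Gram T N ι) (S : N) (σ σ' : St T N ι)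
    (h : ReflTransGen (Tr G) σ σ') : ReflTransGen (G.HStep S) σ.form σ'.form := by
  induction h with
  | refl => exact ReflTransGen.refl
  | tail _ h1 ih => exact ih.tail (tr_step G S _ _ h1)

/-! ### weights -/

theorem Lt.wt_nonneg (g : Lt T N) : 0 ≤ g.wt := by cases g <;> simp [Lt.wt]

theorem Lt.wt_of_NF {g : Lt T N} (h : g.NF) : g.wt = 1 := by
  cases g <;> simp_all [Lt.wt, Lt.NF]

theorem Lt.out_of_NF {g : Lt T N} (h : g.NF) : g.out = [] := by
  cases g <;> simp_all [Lt.out, Lt.NF]

theorem Lt.wt_of_Fin {g : Lt T N} (h : g.Fin) : g.wt = 0 := by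
  cases g <;> simp_all [Lt.wt, Lt.Fin]

theorem Lt.Fin_of_wt {g : Lt T N} (h : g.wt = 0) : g.Fin := by
  cases g <;> simp_all [Lt.wt, Lt.Fin]

/-- sum of weights -/
def wts (l : List (Lt T N)) : ℤ := (l.map Lt.wt).sum

@[simp] theorem wts_nil : wts ([] : List (Lt T N)) = 0 := rfl
@[simp] theorem wts_cons (g : Lt T N) (l : List (Lt T N)) : wts (g :: l) = g.wt + wts l := by
  simp [wts]
@[simp] theorem wts_append (l m : List (Lt T N)) : wts (l ++ m) = wts l + wts m := by
  simp [wts]

theorem wts_nonneg (l : List (Lt T N)) : 0 ≤ wts l := by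
  induction l with
  | nil => simp
  | cons g l ih => simp only [wts_cons]; have := g.wt_nonneg; omega

theorem wts_NF (l : List (Lt T N)) (h : ∀ g ∈ l, g.NF) : wts l = l.length := by
  induction l with
  | nil => simp
  | cons g l ih =>
    simp only [wts_cons, List.length_cons, Nat.cast_add, Nat.cast_one]
    rw [Lt.wt_of_NF (h g (by simp)), ih (fun y hy => h y (by simp [hy]))]
    ring

theorem wts_Fin (l : List (Lt T N)) (h : ∀ g ∈ l, g.Fin) : wts l = 0 := by
  induction l with
  | nil => simp
  | cons g l ih =>
    simp only [wts_cons]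
    rw [Lt.wt_of_Fin (h g (by simp)), ih (fun y hy => h y (by simp [hy]))]
    ring

theorem Fin_of_wts (l : List (Lt T N)) (h : wts l = 0) : ∀ g ∈ l, g.Fin := by
  induction l with
  | nil => simp
  | cons g l ih =>
    simp only [wts_cons] at h
    have h1 := g.wt_nonneg
    have h2 := wts_nonneg l
    intro y hy
    rcases List.mem_cons.mp hy with rfl | hy
    · exact Lt.Fin_of_wt (by omega)
    · exact ih (by omega) y hy

namespace Gram
variable (G : Gram T N ι)

theorem resR_ne_nil (i : ι) : G.resR i ≠ [] := by
  unfold resR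
  split <;> simp

theorem resR_NF (i : ι) : ∀ g ∈ G.resR i, g.NF := by
  unfold resR
  split
  · simp [Lt.NF]
  · intro g hg
    simp only [List.mem_map] at hg
    obtain ⟨x, _, rfl⟩ := hg
    trivial

theorem length_resR (i : ι) : (G.resR i).length = G.ex i + 1 := by
  have := G.resR_ne_nil i
  have h : 0 < (G.resR i).length := List.length_pos_iff.mpr this
  unfold ex
  omega

theorem acc_NF {k : Kd ι} {g : Lt T N} (h : G.acc k g) : g.NF := by
  cases k with
  | cp => exact h
  | ru i => have h : g = _ := h; subst h; trivial
  | xx =>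
    rcases h with rfl | ⟨t, rfl⟩ <;> trivial

theorem res_NF {k : Kd ι} {g : Lt T N} (h : G.acc k g) (hk : k ≠ .xx) : ∀ y ∈ G.res k g, y.NF := by
  cases k with
  | cp => simpa [res, acc] using h
  | ru i => exact G.resR_NF i
  | xx => exact absurd rfl hk

theorem res_Fin (g : Lt T N) : ∀ y ∈ G.res .xx g, y.Fin := by
  unfold res
  split <;> simp_all [Lt.Fin]

theorem wts_res {k : Kd ι} {g : Lt T N} (h : G.acc k g) : wts (G.res k g) = g.wt + G.e k := by
  cases k with
  | cp => simp [res, e]
  | ru i =>
    have h1 : g.wt = 1 := Lt.wt_of_NF (G.acc_NF h)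
    rw [show G.res (.ru i) g = G.resR i from rfl, wts_NF _ (G.resR_NF i), h1, G.length_resR i]
    simp [e]
    ring
  | xx =>
    have h1 : g.wt = 1 := Lt.wt_of_NF (G.acc_NF h)
    rw [wts_Fin _ (G.res_Fin g), h1]
    simp [e]

/-- sum of the weights of the receivers -/
def es (q : List (Bool × Kd ι)) : ℤ := (q.map (fun x => G.e x.2)).sum

@[simp] theorem es_nil : G.es [] = 0 := rfl
@[simp] theorem es_cons (x : Bool × Kd ι) (q : List (Bool × Kd ι)) :
    G.es (x :: q) = G.e x.2 + G.es q := by simp [es]
@[simp] theorem es_append (q r : List (Bool × Kd ι)) :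
    G.es (q ++ r) = G.es q + G.es r := by simp [es]

/-- the potential -/
def pot (σ : St T N ι) : ℤ :=
  (match σ.a, σ.v with
    | some x, none => x.2.wt
    | _, _ => 0) + wts (σ.p.map Prod.snd) +
  (match σ.v with
    | some (_, k, g) => wts (G.res k g)
    | none => 0) + G.es σ.q

theorem pot_mono {σ σ' : St T N ι} (h : Tr G σ σ') : G.pot σ' ≤ G.pot σ := by
  cases h with
  | act t x p v q =>
    cases v with
    | none => simp [pot]
    | some y => have := x.2.wt_nonneg; simp [pot]; omega
  | die t x p v q =>
    cases v with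
    | none => have := x.2.wt_nonneg; simp [pot]; omega
    | some y => simp [pot]
  | rel t p c k g q =>
    simp [pot, Function.comp_def]
  | rcv t p c k g q h h2 =>
    simp only [pot, es_cons]
    rw [G.wts_res h]
    omega

theorem pot_nonneg {σ : St T N ι} {w : List T} (h : ReflTransGen (Tr G) σ (fin_ w)) :
    0 ≤ G.pot σ := by
  induction h using ReflTransGen.head_induction_on with
  | refl => simp [pot, fin_]
  | head h1 _ ih => exact ih.trans (G.pot_mono h1)

end Gram

/-- outputs of a list of letters -/
def outs (l : List (Lt T N)) : List T := l.flatMap Lt.out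

@[simp] theorem outs_nil : outs ([] : List (Lt T N)) = [] := rfl
@[simp] theorem outs_cons (g : Lt T N) (l : List (Lt T N)) : outs (g :: l) = g.out ++ outs l := by
  simp [outs]
@[simp] theorem outs_append (l m : List (Lt T N)) : outs (l ++ m) = outs l ++ outs m := by
  simp [outs]

/-- if no receiver is left, the letters are output in order -/
theorem final_phase (G : Gram T N ι) {σ : St T N ι} {w : List T}
    (h : ReflTransGen (Tr G) σ (fin_ w)) (hq : σ.q = []) :
    w = σ.t ++ (σ.a.elim [] (fun x => x.2.out)) ++ outs (σ.p.map Prod.snd) ++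
      (σ.v.elim [] (fun x => outs (G.res x.2.1 x.2.2))) := by
  induction h using ReflTransGen.head_induction_on with
  | refl => simp [fin_]
  | head h1 _ ih =>
    cases h1 with
    | act t x p v q => rw [ih hq]; simp
    | die t x p v q => rw [ih hq]; simp
    | rel t p c k g q => rw [ih hq]; simp [Function.comp_def]
    | rcv t p c k g q h h2 => simp at hq

/-- Synchronous runs: `s` the letters of the previous segment not yet copied, `r` the letters of
the current segment, `q` the receivers left, `w` the final output. -/
inductive Sem (G : Gram T N ι) : Bool → List (Lt T N) → List (Lt T N) → List (Bool × Kd ι) →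
    List T → Prop
  | fin (c : Bool) (r : List (Lt T N)) (h : ∀ g ∈ r, g.Fin) : Sem G c [] r [] (outs r)
  | next (c : Bool) (r : List (Lt T N)) (q : List (Bool × Kd ι)) (w : List T)
      (h : Sem G (!c) r [] q w) : Sem G c [] r q w
  | step (c : Bool) (g : Lt T N) (s r : List (Lt T N)) (k : Kd ι) (q : List (Bool × Kd ι))
      (w : List T) (ha : G.acc k g) (hc : G.ctx k s r) (h : Sem G c s (r ++ G.res k g) q w) :
      Sem G c (g :: s) r ((c, k) :: q) w

/-- structure of the list of receivers left -/
inductive Tl : Bool → List (Bool × Kd ι) → Prop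
  | base (q : List (Bool × Kd ι)) (h : ∀ x ∈ q, x = (false, .xx)) : Tl true q
  | cons (c c' : Bool) (k : Kd ι) (q : List (Bool × Kd ι)) (hk : k ≠ .xx) (h : Tl c' q) :
      Tl c ((c', k) :: q)

/-- invariant -/
def Inv (c : Bool) (s r : List (Lt T N)) (q : List (Bool × Kd ι)) : Prop :=
  (∀ g ∈ s, g.NF) ∧ (((∀ g ∈ r, g.NF) ∧ Tl c q) ∨
    (c = false ∧ (∀ g ∈ r, g.Fin) ∧ (∀ x ∈ q, x = (false, .xx))))

theorem Gram.es_xx (G : Gram T N ι) (q : List (Bool × Kd ι)) (h : ∀ x ∈ q, x = (false, .xx)) :
    G.es q = - (q.length : ℤ) := by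
  induction q with
  | nil => simp
  | cons x q ih =>
    have hx := h x (by simp)
    subst hx
    rw [G.es_cons, ih (fun y hy => h y (by simp [hy]))]
    simp [Gram.e]

theorem Inv.step (G : Gram T N ι) {c : Bool} {g : Lt T N} {s r : List (Lt T N)} {k : Kd ι}
    {q : List (Bool × Kd ι)} (ha : G.acc k g) (h : Inv c (g :: s) r ((c, k) :: q)) :
    Inv c s (r ++ G.res k g) q := by
  obtain ⟨h1, h2⟩ := h
  refine ⟨fun y hy => h1 y (by simp [hy]), ?_⟩
  rcases h2 with ⟨hr, ht⟩ | ⟨hc, hr, hx⟩
  · left
    cases ht with
    | base _ h =>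
      have := h (true, k) (by simp)
      simp at this
    | cons c c' k q hk h =>
      refine ⟨?_, h⟩
      intro y hy
      rcases List.mem_append.mp hy with hy | hy
      · exact hr y hy
      · exact G.res_NF ha hk y hy
  · right
    have := hx (c, k) (by simp)
    simp only [Prod.mk.injEq] at this
    obtain ⟨_, rfl⟩ := this
    refine ⟨hc, ?_, fun x hx' => hx x (by simp [hx'])⟩
    intro y hy
    rcases List.mem_append.mp hy with hy | hy
    · exact hr y hy
    · exact G.res_Fin g y hy

theorem Inv.next {c : Bool} {r : List (Lt T N)}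
    {q : List (Bool × Kd ι)} (h : Inv c [] r q) (hr : ∀ g ∈ r, g.NF) (ht : Tl c q) :
    Inv (!c) r [] q := by
  refine ⟨hr, ?_⟩
  cases ht with
  | base _ h' => right; exact ⟨rfl, by simp, h'⟩
  | cons c c' k q hk h' => left; exact ⟨by simp, Tl.cons _ _ _ _ hk h'⟩

/-- the tagged list of the letters present -/
abbrev tagged (c : Bool) (s r : List (Lt T N)) : List (Bool × Lt T N) :=
  s.map (fun y => (!c, y)) ++ r.map (fun y => (c, y))

theorem map_snd_tagged (c : Bool) (s r : List (Lt T N)) :
    (tagged c s r).map Prod.snd = s ++ r := by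
  simp [tagged, Function.comp_def]

theorem mem_tagged_c (c : Bool) (s r : List (Lt T N)) (x : Lt T N) :
    (c, x) ∈ tagged c s r ↔ x ∈ r := by
  cases c <;> simp [tagged]

theorem mem_tagged_nc (c : Bool) (s r : List (Lt T N)) (x : Lt T N) :
    (!c, x) ∈ tagged c s r ↔ x ∈ s := by
  cases c <;> simp [tagged]

theorem ctxP_tagged (G : Gram T N ι) {c : Bool} {k : Kd ι} {s r : List (Lt T N)} :
    G.ctxP c k (tagged c s r) ↔ G.ctx k s r := by
  cases k with
  | cp => exact Iff.rfl
  | xx => exact Iff.rfl
  | ru i =>
    simp only [Gram.ctxP, Gram.ctx, mem_tagged_c, mem_tagged_nc]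

/-- In a state of potential zero satisfying the invariants, no letter can be lost. -/
theorem main_claim (G : Gram T N ι) {σ : St T N ι} {w : List T}
    (h : ReflTransGen (Tr G) σ (fin_ w)) : G.pot σ = 0 →
    ((∀ c s r, σ.a = none → σ.v = none → σ.p = tagged c s r → Inv c s r σ.q →
        ∃ w', w = σ.t ++ w' ∧ Sem G c s r σ.q w') ∧
     (∀ c g s r, σ.a = some (!c, g) → σ.v = none → σ.p = tagged c s r → Inv c (g :: s) r σ.q →
        ∃ w', w = σ.t ++ w' ∧ Sem G c (g :: s) r σ.q w') ∧
     (∀ c g k g' s r, σ.a = some (!c, g) → σ.v = some (c, k, g') → g.NF → σ.p = tagged c s r →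
        Inv c s (r ++ G.res k g') σ.q →
        ∃ w', w = σ.t ++ w' ∧ Sem G c s (r ++ G.res k g') σ.q w') ∧
     (∀ c k g' s r, σ.a = none → σ.v = some (c, k, g') → σ.p = tagged c s r →
        Inv c s (r ++ G.res k g') σ.q →
        ∃ w', w = σ.t ++ w' ∧ Sem G c s (r ++ G.res k g') σ.q w')) := by
  induction h using ReflTransGen.head_induction_on with
  | refl =>
    intro _
    refine ⟨?_, ?_, ?_, ?_⟩
    · intro c s r _ _ hp hI
      simp only [fin_] at hp
      have hs : s = [] := by
        cases s with
        | nil => rfl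
        | cons _ _ => simp [tagged] at hp
      have hr : r = [] := by
        cases r with
        | nil => rfl
        | cons _ _ => simp [tagged] at hp
      subst hs hr
      exact ⟨[], by simp [fin_], by simpa [fin_] using Sem.fin c [] (by simp)⟩
    · intro c g s r ha
      simp [fin_] at ha
    · intro c g k g' s r ha
      simp [fin_] at ha
    · intro c k g' s r ha hv
      simp [fin_] at hv
  | @head σ σ' h1 h2 ih =>
    intro hpot
    have hstar : ReflTransGen (Tr G) σ (fin_ w) := ReflTransGen.head h1 h2
    have hnn := G.pot_nonneg h2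
    have hmono := G.pot_mono h1
    have hpot' : G.pot σ' = 0 := by omega
    obtain ⟨ih1, ih2, ih3, ih4⟩ := ih hpot'
    refine ⟨?_, ?_, ?_, ?_⟩
    · -- state (i)
      intro c s r ha hv hp hI
      by_cases hq : σ.q = []
      · have hw := final_phase G hstar hq
        simp only [ha, hv, hp, map_snd_tagged, Option.elim_none, List.append_nil] at hw
        simp only [Gram.pot, ha, hv, hp, hq, map_snd_tagged, wts_append, Gram.es_nil] at hpot
        have e1 := wts_nonneg s
        have e2 := wts_nonneg r
        have e3 : wts s = 0 := by omega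
        rw [wts_NF s hI.1] at e3
        have e4 : s = [] := List.eq_nil_of_length_eq_zero (by omega)
        subst e4
        refine ⟨outs r, by simpa using hw, ?_⟩
        rw [hq]
        exact Sem.fin c r (Fin_of_wts r (by omega))
      · obtain ⟨t, a, p, v, q⟩ := σ
        simp only at ha hv hp hq hI
        subst ha hv
        cases h1 with
        | act t x p v q =>
          cases s with
          | cons g s =>
            simp only [tagged, List.map_cons, List.cons_append, List.cons.injEq] at hp
            obtain ⟨rfl, rfl⟩ := hp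
            obtain ⟨w', hw', hs'⟩ := ih2 c g s r rfl rfl rfl hI
            exact ⟨w', hw', hs'⟩
          | nil =>
            cases r with
            | nil => simp [tagged] at hp
            | cons g r =>
              simp only [tagged, List.map_nil, List.nil_append, List.map_cons, List.cons.injEq] at hp
              obtain ⟨rfl, rfl⟩ := hp
              rcases hI.2 with ⟨hr, ht⟩ | ⟨hc, hr, hx⟩
              · have hI' := Inv.next hI hr ht
                obtain ⟨w', hw', hs'⟩ := ih2 (!c) g r [] (by simp) rfl (by simp [tagged])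
                  hI'
                exact ⟨w', hw', Sem.next _ _ _ _ hs'⟩
              · exfalso
                simp only [Gram.pot, List.map_cons, List.map_map, Function.comp_def, wts_cons,
                  G.es_xx q hx] at hpot
                have e1 := wts_Fin (g :: r) hr
                simp only [wts_cons] at e1
                simp only [List.map_id'] at hpot
                have : 0 < q.length := List.length_pos_iff.mpr hq
                omega
    · -- state (ii)
      intro c g s r ha hv hp hI
      obtain ⟨t, a, p, v, q⟩ := σ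
      simp only at ha hv hp hI
      subst ha hv
      generalize hb : (!c) = b at h1 hpot
      cases h1 with
      | die t x p v q =>
        exfalso
        have e1 : g.wt = 1 := Lt.wt_of_NF (hI.1 g (by simp))
        simp only [Gram.pot, e1] at hpot hpot'
        omega
      | rcv t p c' k g' q hacc hctx =>
        have hc : c' = c := by simpa using hb.symm
        subst hc
        subst hp
        have hI' := Inv.step G hacc hI
        obtain ⟨w', hw', hs'⟩ := ih3 c' g k g s r rfl rfl (G.acc_NF hacc) rfl hI'
        exact ⟨w', hw', Sem.step _ _ _ _ _ _ _ hacc ((ctxP_tagged G).mp hctx) hs'⟩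
    · -- state (iii)
      intro c g k g' s r ha hv hg hp hI
      obtain ⟨t, a, p, v, q⟩ := σ
      simp only at ha hv hp hI
      subst ha hv
      generalize hb : (!c) = b at h1
      cases h1 with
      | die t x p v q =>
        obtain ⟨w', hw', hs'⟩ := ih4 c k g' s r rfl rfl hp hI
        refine ⟨w', ?_, hs'⟩
        rw [hw']
        simp [Lt.out_of_NF hg]
    · -- state (iv)
      intro c k g' s r ha hv hp hI
      by_cases hq : σ.q = []
      · have hw := final_phase G hstar hq
        simp only [ha, hv, hp, map_snd_tagged, Option.elim_none, Option.elim_some,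
          List.append_nil] at hw
        simp only [Gram.pot, ha, hv, hp, hq, map_snd_tagged, wts_append, Gram.es_nil] at hpot
        have e1 := wts_nonneg s
        have e2 := wts_nonneg r
        have e5 := wts_nonneg (G.res k g')
        have e3 : wts s = 0 := by omega
        rw [wts_NF s hI.1] at e3
        have e4 : s = [] := List.eq_nil_of_length_eq_zero (by omega)
        subst e4
        refine ⟨outs (r ++ G.res k g'), by simpa using hw, ?_⟩
        rw [hq]
        exact Sem.fin c _ (Fin_of_wts _ (by rw [wts_append]; omega))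
      · obtain ⟨t, a, p, v, q⟩ := σ
        simp only at ha hv hp hq hI
        subst ha hv
        cases h1 with
        | act t x p v q =>
          exfalso
          have hx1 : x.2.wt = 0 := by
            simp only [Gram.pot, List.map_cons, wts_cons] at hpot hpot'
            omega
          have hfx := Lt.Fin_of_wt hx1
          cases s with
          | cons g s =>
            simp only [tagged, List.map_cons, List.cons_append, List.cons.injEq] at hp
            obtain ⟨rfl, rfl⟩ := hp
            have := Lt.wt_of_NF (hI.1 g (by simp))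
            simp only at hx1
            omega
          | nil =>
            cases r with
            | nil => simp [tagged] at hp
            | cons g r =>
              simp only [tagged, List.map_nil, List.nil_append, List.map_cons, List.cons.injEq] at hp
              obtain ⟨rfl, rfl⟩ := hp
              rcases hI.2 with ⟨hr, ht⟩ | ⟨hc, hr, hx⟩
              · have := Lt.wt_of_NF (hr g (by simp))
                simp only at hx1
                omega
              · have e1 := wts_Fin _ hr
                simp only [wts_append, wts_cons] at e1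
                have e2 := wts_nonneg r
                have e3 := wts_nonneg (G.res k g')
                simp only [Gram.pot, List.map_cons, List.map_map, Function.comp_def, wts_cons,
                  G.es_xx q hx, List.map_id'] at hpot
                have : 0 < q.length := List.length_pos_iff.mpr hq
                have e4 := g.wt_nonneg
                omega
        | rel t p c k g q =>
          obtain ⟨w', hw', hs'⟩ := ih1 c s (r ++ G.res k g') rfl rfl (by
            rw [hp]; simp [tagged]) hI
          exact ⟨w', hw', hs'⟩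

/-- the sentential form of the simulated grammar represented by a list of letters -/
def vals (l : List (Lt T N)) : List (Symbol T N) := l.flatMap Lt.val

@[simp] theorem vals_nil : vals ([] : List (Lt T N)) = [] := rfl
@[simp] theorem vals_cons (g : Lt T N) (l : List (Lt T N)) : vals (g :: l) = g.val ++ vals l := by
  simp [vals]
@[simp] theorem vals_append (l m : List (Lt T N)) : vals (l ++ m) = vals l ++ vals m := by
  simp [vals]

theorem mem_vals_nonterminal (l : List (Lt T N)) (B : N) :
    Symbol.nonterminal B ∈ vals l ↔ Lt.sym (.nonterminal B) ∈ l := by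
  induction l with
  | nil => simp
  | cons g l ih =>
    simp only [vals_cons, List.mem_append, List.mem_cons, ih]
    cases g with
    | sym x => simp [Lt.val]
    | bl => simp [Lt.val]
    | fn o => simp [Lt.val]

theorem vals_Fin (r : List (Lt T N)) (h : ∀ g ∈ r, g.Fin) :
    vals r = (outs r).map Symbol.terminal := by
  induction r with
  | nil => simp
  | cons g r ih =>
    rw [vals_cons, outs_cons, ih (fun y hy => h y (by simp [hy]))]
    have := h g (by simp)
    cases g with
    | sym x => exact this.elim
    | bl => exact this.elim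
    | fn o => simp [Lt.val, Lt.out]

theorem vals_resR (G : Gram T N ι) (i : ι) : vals (G.resR i) = G.rhs i := by
  unfold Gram.resR
  split
  · next h => simp [Lt.val, h]
  · next x l h =>
    rw [h]
    have : ∀ m : List (Symbol T N), vals (m.map Lt.sym) = m := by
      intro m
      induction m with
      | nil => simp
      | cons y m ih => simp [Lt.val, ih]
    exact this _

theorem sem_sound (G : Gram T N ι) {c : Bool} {s r : List (Lt T N)} {q : List (Bool × Kd ι)}
    {w : List T} (h : Sem G c s r q w) :
    ReflTransGen G.GStep (vals (r ++ s)) (w.map Symbol.terminal) := by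
  induction h with
  | fin c r h => rw [List.append_nil, vals_Fin r h]
  | next c r q w h ih => simpa using ih
  | step c g s r k q w ha hc h ih =>
    cases k with
    | cp => simpa [Gram.res] using ih
    | xx =>
      have : vals (G.res .xx g) = g.val := by
        rcases ha with rfl | ⟨t, rfl⟩ <;> simp [Gram.res, Lt.val]
      simpa [this] using ih
    | ru i =>
      have hg : g = Lt.sym (.nonterminal (G.lhs i)) := ha
      subst hg
      refine ReflTransGen.head ?_ ih
      refine ⟨vals r, vals s, i, by simp [Lt.val], ?_, ?_, ?_⟩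
      · simp [Gram.res, vals_resR]
      · intro hL
        have := hc.1 hL
        exact ⟨fun B hB => (mem_vals_nonterminal r B).mpr (this.1 B hB),
          fun B hB hB' => this.2 B hB ((mem_vals_nonterminal r B).mp hB')⟩
      · intro hL
        have := hc.2 hL
        exact ⟨fun B hB => (mem_vals_nonterminal s B).mpr (this.1 B hB),
          fun B hB hB' => this.2 B hB ((mem_vals_nonterminal s B).mp hB')⟩

/-- A synchronous run is realised by the abstract machine. -/
theorem sem_complete (G : Gram T N ι) {c : Bool} {s r : List (Lt T N)} {q : List (Bool × Kd ι)}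
    {w : List T} (h : Sem G c s r q w) :
    ∀ t : List T, ReflTransGen (Tr G) ⟨t, none, tagged c s r, none, q⟩ (fin_ (t ++ w)) := by
  induction h with
  | fin c r h =>
    clear h
    induction r with
    | nil => intro t; simpa [tagged, fin_] using ReflTransGen.refl
    | cons g r ih =>
      intro t
      refine ReflTransGen.head (Tr.act t (c, g) (tagged c [] r) none []) ?_
      refine ReflTransGen.head (Tr.die t (c, g) (tagged c [] r) none []) ?_
      have := ih (t ++ g.out)
      simpa using this
  | next c r q w h ih =>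
    intro t
    have := ih t
    simpa [tagged] using this
  | step c g s r k q w ha hc h ih =>
    intro t
    refine ReflTransGen.head (Tr.act t (!c, g) (tagged c s r) none ((c, k) :: q)) ?_
    refine ReflTransGen.head (Tr.rcv t (tagged c s r) c k g q ha ((ctxP_tagged G).mpr hc)) ?_
    refine ReflTransGen.head (Tr.die t (!c, g) (tagged c s r) (some (c, k, g)) q) ?_
    refine ReflTransGen.head (Tr.rel _ (tagged c s r) c k g q) ?_
    have := ih t
    simpa [tagged, Lt.out_of_NF (G.acc_NF ha)] using this

/-- What the generator produces. -/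
inductive Gen (G : Gram T N ι) : Bool → List (Bool × Kd ι) → ℕ → Prop
  | cp (c : Bool) (o : List (Bool × Kd ι)) (n : ℕ) (h : Gen G c o n) : Gen G c ((c, .cp) :: o) n
  | ru (c : Bool) (i : ι) (o : List (Bool × Kd ι)) (n : ℕ) (h : Gen G c o n) :
      Gen G c ((c, .ru i) :: o) (n + G.ex i)
  | sw (c : Bool) (o : List (Bool × Kd ι)) (n : ℕ) (h : Gen G (!c) o n) : Gen G c o n
  | stop : Gen G true [(true, .cp)] 0

theorem Gen.tl {G : Gram T N ι} {c : Bool} {o : List (Bool × Kd ι)} {n : ℕ} (h : Gen G c o n)
    (m : ℕ) : ∀ c', Tl c' (o ++ List.replicate m (false, .xx)) := by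
  induction h with
  | cp c o n h ih => intro c'; exact Tl.cons _ _ _ _ (by simp) (ih c)
  | ru c i o n h ih => intro c'; exact Tl.cons _ _ _ _ (by simp) (ih c)
  | sw c o n h ih => exact ih
  | stop =>
    intro c'
    refine Tl.cons _ _ _ _ (by simp) (Tl.base _ ?_)
    intro x hx
    exact List.eq_of_mem_replicate (by simpa using hx)

theorem Gen.es {G : Gram T N ι} {c : Bool} {o : List (Bool × Kd ι)} {n : ℕ} (h : Gen G c o n) :
    G.es o = n := by
  induction h with
  | cp c o n h ih => simp [ih, Gram.e]
  | ru c i o n h ih => simp [ih, Gram.e]; ring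
  | sw c o n h ih => exact ih
  | stop => simp [Gram.e]

/-- forms of the generation phase -/
def gform (c : Bool) (S : N) (o : List (Bool × Kd ι)) (m : ℕ) : List (NT T N ι) :=
  NT.mark :: NT.rr (false, Lt.sym (.nonterminal S)) :: (o.map NT.rc ++
    (NT.gen c :: List.replicate m (NT.rc (false, .xx))))

theorem split_once {α : Type} (P : α → Prop) (l1 l2 m1 m2 : List α) (x y : α)
    (hy : P y) (h1 : ∀ z ∈ m1, ¬ P z) (h2 : ∀ z ∈ m2, ¬ P z)
    (h : m1 ++ x :: m2 = l1 ++ y :: l2) : l1 = m1 ∧ y = x ∧ l2 = m2 := by
  obtain ⟨l', e1, e2⟩ := split_right l1 l2 m1 (x :: m2) y (fun hh => h1 y hh hy) h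
  cases l' with
  | nil =>
    simp only [List.nil_append, List.cons.injEq] at e2
    exact ⟨by simpa using e1, e2.1.symm, e2.2.symm⟩
  | cons z l' =>
    exfalso
    simp only [List.cons_append, List.cons.injEq] at e2
    exact h2 y (by rw [e2.2]; simp) hy

theorem stuck (G : Gram T N ι) (S : N) (w : List T) (α : List (Symbol T (NT T N ι)))
    (h : ReflTransGen (G.HStep S) α (w.map Symbol.terminal)) :
    (∃ c, Symbol.nonterminal (NT.gen c) ∈ α) → Symbol.nonterminal NT.mark ∉ α →
    Symbol.nonterminal NT.start ∉ α → False := by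
  induction h using ReflTransGen.head_induction_on with
  | refl => rintro ⟨c, hc⟩; simp at hc
  | head h1 _ ih =>
    rintro ⟨c, hc⟩ hm hs
    obtain ⟨u, v, A, x, U, W, e1, e2, hr, hU, hW⟩ := h1
    subst e1 e2
    have key : (∀ c, A ≠ NT.gen c) → Symbol.nonterminal NT.mark ∉ x →
        Symbol.nonterminal NT.start ∉ x → False := by
      intro h1 h2 h3
      apply ih
      · refine ⟨c, ?_⟩
        simp only [List.mem_append, List.mem_cons, List.not_mem_nil, or_false,
          Symbol.nonterminal.injEq] at hc ⊢
        rcases hc with (hc | hc) | hc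
        · exact Or.inl (Or.inl hc)
        · exact absurd hc.symm (h1 c)
        · exact Or.inr hc
      · simp only [List.mem_append, List.mem_cons, List.not_mem_nil, or_false,
          not_or] at hm ⊢
        exact ⟨⟨hm.1.1, h2⟩, hm.2⟩
      · simp only [List.mem_append, List.mem_cons, List.not_mem_nil, or_false,
          not_or] at hs ⊢
        exact ⟨⟨hs.1.1, h3⟩, hs.2⟩
    cases hr with
    | start => simp at hs
    | gcp c => exact hm (by have := hU _ rfl; simp [this])
    | gru c i => exact hm (by have := hU _ rfl; simp [this])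
    | gsw c => exact hm (by have := hU _ rfl; simp [this])
    | gst => exact hm (by have := hU _ rfl; simp [this])
    | mk => simp at hm
    | rc c k g h => exact key (by simp) (by simp) (by simp)
    | vv c k g => exact key (by simp) (by simp) (by simp)
    | rr x => exact key (by simp) (by simp) (by simp)
    | aa x => exact key (by simp) (by simp) (by simp)

/-- a step from a list of nonterminals -/
theorem step_nts (G : Gram T N ι) (S : N) (n : List (NT T N ι)) (β : List (Symbol T (NT T N ι)))
    (h : G.HStep S (n.map Symbol.nonterminal) β) :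
    ∃ n1 A n2 x U W, n = n1 ++ A :: n2 ∧
      β = n1.map Symbol.nonterminal ++ x ++ n2.map Symbol.nonterminal ∧
      G.HR S A x U W ∧ (∀ B, U B → B ∈ n1) ∧ (∀ B, W B → B ∉ n1) := by
  obtain ⟨u, v, A, x, U, W, h1, h2, hr, hU, hW⟩ := h
  obtain ⟨n1, n2, hn, hu, hv⟩ := split_form [] n u v A (by simpa using h1)
  refine ⟨n1, A, n2, x, U, W, hn, by simp [h2, hu, hv], hr, ?_, ?_⟩
  · intro B hB
    have := hU B hB
    rw [hu] at this
    simpa using this
  · intro B hB hB'
    exact hW B hB (by rw [hu]; simp [hB'])

theorem mark_phase (G : Gram T N ι) (S : N) (w : List T) (g : Bool × Lt T N)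
    (q : List (Bool × Kd ι))
    (h : ReflTransGen (G.HStep S)
      ((NT.mark :: NT.rr g :: q.map NT.rc : List (NT T N ι)).map Symbol.nonterminal)
      (w.map Symbol.terminal)) :
    ReflTransGen (G.HStep S)
      ((NT.rr g :: q.map NT.rc : List (NT T N ι)).map Symbol.nonterminal)
      (w.map Symbol.terminal) := by
  rcases ReflTransGen.cases_head h with h | ⟨β, h1, h2⟩
  · exfalso
    have : Symbol.nonterminal NT.mark ∈ (w.map Symbol.terminal : List (Symbol T (NT T N ι))) := by
      rw [← h]; simp
    simp at this
  · obtain ⟨n1, A, n2, x, U, W, hn, hβ, hr, hU, hW⟩ := step_nts G S _ _ h1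
    have hA : A ∈ (NT.mark :: NT.rr g :: q.map NT.rc : List (NT T N ι)) := by rw [hn]; simp
    cases hr with
    | start => simp at hA
    | gcp c => simp at hA
    | gru c i => simp at hA
    | gsw c => simp at hA
    | gst => simp at hA
    | mk =>
      obtain ⟨e1, _, e2⟩ := split_once (fun X => X = NT.mark) n1 n2 []
        (NT.rr g :: q.map NT.rc) NT.mark NT.mark rfl (by simp) (by
          intro z hz
          simp only [List.mem_cons, List.mem_map] at hz
          rcases hz with rfl | ⟨y, _, rfl⟩ <;> simp) hn
      subst e1 e2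
      rw [hβ] at h2
      simpa using h2
    | rc c k g' hacc =>
      exfalso
      have h3 := hU (NT.aa (!c, g')) (Or.inl rfl)
      have h4 : NT.aa (!c, g') ∈ (NT.mark :: NT.rr g :: q.map NT.rc : List (NT T N ι)) := by
        rw [hn]; simp [h3]
      simp at h4
    | vv c k g => simp at hA
    | rr x =>
      exfalso
      cases n1 with
      | nil => simp at hn
      | cons y n1 => exact hW y trivial (by simp)
    | aa x => simp at hA

theorem gen_phase (G : Gram T N ι) (S : N) (w : List T) (α : List (Symbol T (NT T N ι)))
    (h : ReflTransGen (G.HStep S) α (w.map Symbol.terminal)) :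
    ∀ c o m, α = (gform c S o m).map Symbol.nonterminal → ∃ o' n, Gen G c o' n ∧
      ReflTransGen (G.HStep S)
      ((NT.rr (false, Lt.sym (.nonterminal S)) ::
        (o ++ o' ++ List.replicate (m + n) (false, Kd.xx)).map NT.rc :
          List (NT T N ι)).map Symbol.nonterminal)
      (w.map Symbol.terminal) := by
  induction h using ReflTransGen.head_induction_on with
  | refl =>
    intro c o m h
    exfalso
    have : Symbol.nonterminal NT.mark ∈ (w.map Symbol.terminal : List (Symbol T (NT T N ι))) := by
      rw [h]; simp [gform]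
    simp at this
  | @head α β h1 h2 ih =>
    intro c o m hα
    subst hα
    obtain ⟨n1, A, n2, x, U, W, hn, hβ, hr, hU, hW⟩ := step_nts G S _ _ h1
    have hA : A ∈ (gform c S o m : List (NT T N ι)) := by rw [hn]; simp
    have hnoaa : ∀ y, NT.aa y ∉ (gform c S o m : List (NT T N ι)) := by
      intro y; simp [gform]
    have hsplit : ∀ c', A = NT.gen c' → n1 = NT.mark :: NT.rr (false, Lt.sym (.nonterminal S)) ::
        o.map NT.rc ∧ c' = c ∧ n2 = List.replicate m (NT.rc (false, .xx)) := by
      intro c' hc'
      subst hc'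
      have := split_once (fun X => ∃ c, X = NT.gen c) n1 n2
        (NT.mark :: NT.rr (false, Lt.sym (.nonterminal S)) :: o.map NT.rc)
        (List.replicate m (NT.rc (false, .xx))) (NT.gen c) (NT.gen c') ⟨c', rfl⟩
        (by
          intro z hz
          simp only [List.mem_cons, List.mem_map] at hz
          rcases hz with rfl | rfl | ⟨y, _, rfl⟩ <;> simp)
        (by
          intro z hz
          rw [List.eq_of_mem_replicate hz]
          simp)
        (by simpa [gform] using hn)
      refine ⟨this.1, ?_, this.2.2⟩
      have := this.2.1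
      injection this
    cases hr with
    | start => simp [gform] at hA
    | gcp c' =>
      obtain ⟨e1, rfl, e2⟩ := hsplit c' rfl
      obtain ⟨o', n, hg, hd⟩ := ih c' (o ++ [(c', .cp)]) m (by
        rw [hβ, e1, e2]; simp [gform])
      exact ⟨(c', .cp) :: o', n, Gen.cp _ _ _ hg, by simpa using hd⟩
    | gru c' i =>
      obtain ⟨e1, rfl, e2⟩ := hsplit c' rfl
      obtain ⟨o', n, hg, hd⟩ := ih c' (o ++ [(c', .ru i)]) (m + G.ex i) (by
        rw [hβ, e1, e2]
        simp [gform, Nat.add_comm])
      refine ⟨(c', .ru i) :: o', n + G.ex i, Gen.ru _ _ _ _ hg, ?_⟩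
      have e3 : m + (n + G.ex i) = m + G.ex i + n := by ring
      rw [e3]
      simpa using hd
    | gsw c' =>
      obtain ⟨e1, rfl, e2⟩ := hsplit c' rfl
      obtain ⟨o', n, hg, hd⟩ := ih (!c') o m (by
        rw [hβ, e1, e2]; simp [gform])
      exact ⟨o', n, Gen.sw _ _ _ hg, hd⟩
    | gst =>
      obtain ⟨e1, rfl, e2⟩ := hsplit true rfl
      refine ⟨[(true, .cp)], 0, Gen.stop, ?_⟩
      apply mark_phase
      rw [hβ, e1, e2] at h2
      simpa using h2
    | mk =>
      exfalso
      obtain ⟨e1, _, e2⟩ := split_once (fun X => X = NT.mark) n1 n2 []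
        (NT.rr (false, Lt.sym (.nonterminal S)) :: (o.map NT.rc ++
          (NT.gen c :: List.replicate m (NT.rc (false, .xx))))) NT.mark NT.mark rfl (by simp)
        (by
          intro z hz
          simp only [List.mem_cons, List.mem_append, List.mem_map, List.mem_replicate] at hz
          rcases hz with rfl | ⟨y, _, rfl⟩ | rfl | ⟨_, rfl⟩ <;> simp) (by simpa [gform] using hn)
      subst e1 e2
      refine stuck G S w _ h2 ⟨c, ?_⟩ ?_ ?_
      · rw [hβ]; simp
      · rw [hβ]; simp
      · rw [hβ]; simp
    | rc c' k g' hacc =>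
      exfalso
      have h3 := hU (NT.aa (!c', g')) (Or.inl rfl)
      exact hnoaa (!c', g') (by rw [hn]; simp [h3])
    | vv c k g => simp [gform] at hA
    | rr x =>
      exfalso
      cases n1 with
      | nil => simp [gform] at hn
      | cons y n1 => exact hW y trivial (by simp)
    | aa x => exact absurd hA (hnoaa x)

theorem sound (G : Gram T N ι) (S : N) (w : List T)
    (h : ReflTransGen (G.HStep S) [Symbol.nonterminal NT.start] (w.map Symbol.terminal)) :
    ReflTransGen G.GStep [Symbol.nonterminal S] (w.map Symbol.terminal) := by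
  rcases ReflTransGen.cases_head h with h | ⟨β, h1, h2⟩
  · exfalso
    have : Symbol.nonterminal NT.start ∈ (w.map Symbol.terminal : List (Symbol T (NT T N ι))) := by
      rw [← h]; simp
    simp at this
  · obtain ⟨n1, A, n2, x, U, W, hn, hβ, hr, hU, hW⟩ := step_nts G S [NT.start] _ (by simpa using h1)
    have e : n1 = [] ∧ A = NT.start ∧ n2 = [] := by
      cases n1 with
      | nil =>
        simp only [List.nil_append, List.cons.injEq] at hn
        exact ⟨rfl, hn.1.symm, hn.2.symm⟩
      | cons y n1 => simp at hn
    obtain ⟨rfl, rfl, rfl⟩ := e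
    cases hr
    obtain ⟨o, n, hg, hd⟩ := gen_phase G S w _ h2 true [] 1 (by rw [hβ]; simp [gform])
    have hst := star_of_hstar G S w _ hd
      ⟨[], none, [(false, Lt.sym (.nonterminal S))], none,
        o ++ List.replicate (1 + n) (false, .xx)⟩ (by simp [St.form, St.nts])
    have hpot : G.pot ⟨[], none, [(false, Lt.sym (.nonterminal S))], none,
        o ++ List.replicate (1 + n) (false, .xx)⟩ = 0 := by
      simp only [Gram.pot, List.map_cons, List.map_nil, wts_cons, wts_nil, Gram.es_append, hg.es]
      rw [G.es_xx _ (fun x hx => List.eq_of_mem_replicate hx)]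
      simp [Lt.wt]
    obtain ⟨w', hw', hs⟩ := (main_claim G hst hpot).1 true [Lt.sym (.nonterminal S)] [] rfl rfl
      (by simp [tagged]) ⟨by simp [Lt.NF], Or.inl ⟨by simp, hg.tl _ _⟩⟩
    simp only [List.nil_append] at hw'
    subst hw'
    have := sem_sound G hs
    simpa [Lt.val] using this

theorem copy_sem (G : Gram T N ι) {c : Bool} (c1 : List (Lt T N)) (h1 : ∀ g ∈ c1, g.NF) :
    ∀ (r s2 : List (Lt T N)) (q : List (Bool × Kd ι)) (w : List T),
    Sem G c s2 (r ++ c1) q w →
    Sem G c (c1 ++ s2) r (List.replicate c1.length (c, .cp) ++ q) w := by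
  induction c1 with
  | nil => intro r s2 q w h; simpa using h
  | cons g c1 ih =>
    intro r s2 q w h
    simp only [List.length_cons, List.replicate_succ, List.cons_append]
    refine Sem.step c g _ r .cp _ w (h1 g (by simp)) trivial ?_
    refine ih (fun y hy => h1 y (by simp [hy])) (r ++ [g]) s2 q w ?_
    simpa using h

theorem xx_sem (G : Gram T N ι) (cfg : List (Lt T N)) (h1 : ∀ g ∈ cfg, G.acc .xx g) :
    ∀ (r : List (Lt T N)), (∀ g ∈ r, g.Fin) →
    Sem G false cfg r (List.replicate cfg.length (false, .xx))
      (outs (r ++ cfg.flatMap (G.res .xx))) := by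
  induction cfg with
  | nil =>
    intro r hr
    simpa using Sem.fin false r hr
  | cons g cfg ih =>
    intro r hr
    simp only [List.length_cons, List.replicate_succ, List.flatMap_cons]
    refine Sem.step false g _ r .xx _ _ (h1 g (by simp)) trivial ?_
    have := ih (fun y hy => h1 y (by simp [hy])) (r ++ G.res .xx g) (by
      intro y hy
      rcases List.mem_append.mp hy with hy | hy
      · exact hr y hy
      · exact G.res_Fin g y hy)
    simpa using this

theorem acc_of_terminal (G : Gram T N ι) (cfg : List (Lt T N)) (h1 : ∀ g ∈ cfg, g.NF)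
    (w : List T) (h : vals cfg = w.map Symbol.terminal) :
    (∀ g ∈ cfg, G.acc .xx g) ∧ outs (cfg.flatMap (G.res .xx)) = w := by
  induction cfg generalizing w with
  | nil =>
    simp only [vals_nil] at h
    have : w = [] := by
      cases w with
      | nil => rfl
      | cons _ _ => simp at h
    subst this
    simp
  | cons g cfg ih =>
    rw [vals_cons] at h
    cases g with
    | fn o => exact (h1 _ (List.mem_cons_self)).elim
    | bl =>
      obtain ⟨e1, e2⟩ := ih (fun y hy => h1 y (by simp [hy])) w (by simpa [Lt.val] using h)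
      refine ⟨?_, ?_⟩
      · intro y hy
        rcases List.mem_cons.mp hy with rfl | hy
        · exact Or.inl rfl
        · exact e1 y hy
      · simp [Gram.res, Lt.out, e2]
    | sym x =>
      cases w with
      | nil => simp [Lt.val] at h
      | cons a w =>
        simp only [Lt.val, List.cons_append, List.nil_append, List.map_cons, List.cons.injEq] at h
        obtain ⟨rfl, h⟩ := h
        obtain ⟨e1, e2⟩ := ih (fun y hy => h1 y (by simp [hy])) w h
        refine ⟨?_, ?_⟩
        · intro y hy
          rcases List.mem_cons.mp hy with rfl | hy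
          · exact Or.inr ⟨a, rfl⟩
          · exact e1 y hy
        · simp [Gram.res, Lt.out, e2]

theorem gen_copies (G : Gram T N ι) (c : Bool) (o : List (Bool × Kd ι)) (k n : ℕ)
    (h : Gen G c o k) : Gen G c (List.replicate n (c, .cp) ++ o) k := by
  induction n with
  | zero => simpa using h
  | succ n ih => exact Gen.cp _ _ _ ih

theorem gen_true (G : Gram T N ι) (n : ℕ) (hn : 0 < n) :
    Gen G true (List.replicate n (true, .cp)) 0 := by
  obtain ⟨m, rfl⟩ : ∃ m, n = m + 1 := ⟨n - 1, by omega⟩
  rw [List.replicate_add]
  exact gen_copies G true _ 0 m Gen.stop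

theorem split_vals (cfg : List (Lt T N)) (h1 : ∀ g ∈ cfg, g.NF) (u v : List (Symbol T N))
    (A : N) (h : vals cfg = u ++ [Symbol.nonterminal A] ++ v) :
    ∃ c1 c2, cfg = c1 ++ Lt.sym (.nonterminal A) :: c2 ∧ vals c1 = u ∧ vals c2 = v := by
  induction cfg generalizing u with
  | nil => simp at h
  | cons g cfg ih =>
    rw [vals_cons] at h
    cases g with
    | fn o => exact (h1 _ (List.mem_cons_self)).elim
    | bl =>
      obtain ⟨c1, c2, e1, e2, e3⟩ := ih (fun y hy => h1 y (by simp [hy])) u (by simpa [Lt.val] using h)
      exact ⟨.bl :: c1, c2, by simp [e1], by simp [Lt.val, e2], e3⟩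
    | sym x =>
      cases u with
      | nil =>
        simp only [Lt.val, List.cons_append, List.nil_append, List.cons.injEq] at h
        exact ⟨[], cfg, by simp [h.1], by simp, h.2⟩
      | cons y u =>
        simp only [Lt.val, List.cons_append, List.nil_append, List.cons.injEq] at h
        obtain ⟨rfl, h⟩ := h
        obtain ⟨c1, c2, e1, e2, e3⟩ := ih (fun y hy => h1 y (by simp [hy])) u (by simpa using h)
        exact ⟨.sym x :: c1, c2, by simp [e1], by simp [Lt.val, e2], e3⟩

theorem build (G : Gram T N ι) (w : List T) (α : List (Symbol T N))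
    (h : ReflTransGen G.GStep α (w.map Symbol.terminal)) :
    ∀ cfg : List (Lt T N), (∀ g ∈ cfg, g.NF) → cfg ≠ [] → vals cfg = α → ∀ c,
      ∃ o k, Gen G c o k ∧ Sem G c cfg [] (o ++ List.replicate (cfg.length + k) (false, .xx)) w := by
  induction h using ReflTransGen.head_induction_on with
  | refl =>
    intro cfg h1 hne hv c
    obtain ⟨e1, e2⟩ := acc_of_terminal G cfg h1 w hv
    have hpos : 0 < cfg.length := List.length_pos_iff.mpr hne
    have hx := xx_sem G cfg e1 [] (by simp)
    rw [List.nil_append, e2] at hx
    have ht : Sem G true cfg [] (List.replicate cfg.length (true, .cp) ++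
        List.replicate cfg.length (false, .xx)) w := by
      have := copy_sem G (c := true) cfg h1 [] [] (List.replicate cfg.length (false, .xx)) w
        (Sem.next true _ _ _ (by simpa using hx))
      simpa using this
    cases c with
    | true => exact ⟨_, 0, gen_true G _ hpos, by simpa using ht⟩
    | false =>
      refine ⟨_, 0, gen_copies G false _ 0 cfg.length (Gen.sw false _ _ (gen_true G _ hpos)), ?_⟩
      have := copy_sem G (c := false) cfg h1 [] [] _ w (Sem.next false _ _ _ (by simpa using ht))
      simpa using this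
  | head h1 _ ih =>
    intro cfg hNF hne hv c
    obtain ⟨u, v, i, e1, e2, e3, e4⟩ := h1
    obtain ⟨c1, c2, f1, f2, f3⟩ := split_vals cfg hNF u v _ (hv.trans e1)
    have hc1 : ∀ g ∈ c1, g.NF := fun g hg => hNF g (by rw [f1]; simp [hg])
    have hc2 : ∀ g ∈ c2, g.NF := fun g hg => hNF g (by rw [f1]; simp [hg])
    obtain ⟨o', k', hg, hs⟩ := ih (c1 ++ G.resR i ++ c2) (by
        intro g hg
        simp only [List.mem_append] at hg
        rcases hg with (hg | hg) | hg
        · exact hc1 g hg
        · exact G.resR_NF i g hg
        · exact hc2 g hg) (by simp [G.resR_ne_nil i]) (by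
        rw [e2]; simp [f2, f3, vals_resR]) (!c)
    refine ⟨List.replicate c1.length (c, .cp) ++ ((c, .ru i) :: (List.replicate c2.length (c, .cp)
      ++ o')), k' + G.ex i, gen_copies G c _ _ _ (Gen.ru c i _ _ (gen_copies G c _ _ _
        (Gen.sw c _ _ hg))), ?_⟩
    have hlen : (c1 ++ G.resR i ++ c2).length + k' = cfg.length + (k' + G.ex i) := by
      rw [f1]
      simp only [List.length_append, List.length_cons, G.length_resR i]
      ring
    rw [hlen] at hs
    have s1 : Sem G c [] ((c1 ++ G.resR i) ++ c2)
        (o' ++ List.replicate (cfg.length + (k' + G.ex i)) (false, .xx)) w := Sem.next _ _ _ _ hs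
    have s2 := copy_sem G c2 hc2 (c1 ++ G.resR i) [] _ w s1
    have s3 := Sem.step c (Lt.sym (.nonterminal (G.lhs i))) (c2 ++ []) c1 (.ru i) _ w rfl (by
      refine ⟨fun hL => ?_, fun hL => ?_⟩
      · have := e3 hL
        rw [← f2] at this
        exact ⟨fun B hB => (mem_vals_nonterminal c1 B).mp (this.1 B hB),
          fun B hB hB' => this.2 B hB ((mem_vals_nonterminal c1 B).mpr hB')⟩
      · have := e4 hL
        rw [← f3] at this
        rw [List.append_nil]
        exact ⟨fun B hB => (mem_vals_nonterminal c2 B).mp (this.1 B hB),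
          fun B hB hB' => this.2 B hB ((mem_vals_nonterminal c2 B).mpr hB')⟩) s2
    have s4 := copy_sem G c1 hc1 [] _ _ w (by simpa using s3)
    rw [f1]
    rw [f1] at s4
    simpa using s4

theorem gen_derive (G : Gram T N ι) (S : N) {c : Bool} {o : List (Bool × Kd ι)} {k : ℕ}
    (h : Gen G c o k) : ∀ (u v : List (NT T N ι)), NT.mark ∈ u →
    ReflTransGen (G.HStep S) ((u ++ NT.gen c :: v).map Symbol.nonterminal)
      ((u ++ (o.map NT.rc ++ (List.replicate k (NT.rc (false, .xx)) ++ v))).map
        Symbol.nonterminal) := by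
  induction h with
  | cp c o n h ih =>
    intro u v hu
    refine ReflTransGen.head (b := ((u ++ [NT.rc (c, .cp)]) ++ NT.gen c :: v).map
      Symbol.nonterminal) ?_ ?_
    · refine ⟨u.map Symbol.nonterminal, v.map Symbol.nonterminal, _, _, _, _, ?_, ?_,
        Gram.HR.gcp c, ?_, ?_⟩
      · simp
      · simp
      · rintro B rfl; simpa using hu
      · intro B hB; exact hB.elim
    · have := ih (u ++ [NT.rc (c, .cp)]) v (by simp [hu])
      simp only [List.map_append, List.map_cons, List.append_assoc, List.cons_append,
        List.nil_append] at this ⊢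
      exact this
  | ru c i o n h ih =>
    intro u v hu
    refine ReflTransGen.head (b := ((u ++ [NT.rc (c, .ru i)]) ++ NT.gen c ::
      (List.replicate (G.ex i) (NT.rc (false, .xx)) ++ v)).map Symbol.nonterminal) ?_ ?_
    · refine ⟨u.map Symbol.nonterminal, v.map Symbol.nonterminal, _, _, _, _, ?_, ?_,
        Gram.HR.gru c i, ?_, ?_⟩
      · simp
      · simp
      · rintro B rfl; simpa using hu
      · intro B hB; exact hB.elim
    · have := ih (u ++ [NT.rc (c, .ru i)]) (List.replicate (G.ex i) (NT.rc (false, .xx)) ++ v)
        (by simp [hu])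
      simp only [List.map_append, List.map_cons, List.append_assoc, List.cons_append,
        List.nil_append, List.replicate_add] at this ⊢
      exact this
  | sw c o n h ih =>
    intro u v hu
    refine ReflTransGen.head ?_ (ih u v hu)
    refine ⟨u.map Symbol.nonterminal, v.map Symbol.nonterminal, _, _, _, _, ?_, ?_,
      Gram.HR.gsw c, ?_, ?_⟩
    · simp
    · simp
    · rintro B rfl; simpa using hu
    · intro B hB; exact hB.elim
  | stop =>
    intro u v hu
    refine ReflTransGen.single ?_
    refine ⟨u.map Symbol.nonterminal, v.map Symbol.nonterminal, _, _, _, _, ?_, ?_,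
      Gram.HR.gst, ?_, ?_⟩
    · simp
    · simp
    · rintro B rfl; simpa using hu
    · intro B hB; exact hB.elim

theorem complete (G : Gram T N ι) (S : N) (w : List T)
    (h : ReflTransGen G.GStep [Symbol.nonterminal S] (w.map Symbol.terminal)) :
    ReflTransGen (G.HStep S) [Symbol.nonterminal NT.start] (w.map Symbol.terminal) := by
  obtain ⟨o, k, hg, hs⟩ := build G w _ h [Lt.sym (.nonterminal S)] (by simp [Lt.NF]) (by simp)
    (by simp [Lt.val]) true
  have h1 : G.HStep S [Symbol.nonterminal NT.start]
      (([NT.mark, NT.rr (false, Lt.sym (.nonterminal S))] ++ NT.gen true ::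
        [NT.rc (false, .xx)] : List (NT T N ι)).map Symbol.nonterminal) := by
    refine ⟨[], [], _, _, _, _, ?_, ?_, Gram.HR.start, ?_, ?_⟩
    · simp
    · simp
    · intro B hB; exact hB.elim
    · intro B hB; exact hB.elim
  refine ReflTransGen.head h1 ?_
  refine (gen_derive G S hg [NT.mark, NT.rr (false, Lt.sym (.nonterminal S))]
    [NT.rc (false, .xx)] (by simp)).trans ?_
  have h2 : G.HStep S
      (([NT.mark, NT.rr (false, Lt.sym (.nonterminal S))] ++ (o.map NT.rc ++
        (List.replicate k (NT.rc (false, .xx)) ++ [NT.rc (false, .xx)])) :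
          List (NT T N ι)).map Symbol.nonterminal)
      (St.form ⟨[], none, tagged true [Lt.sym (.nonterminal S)] [], none,
        o ++ List.replicate (([Lt.sym (.nonterminal S)] : List (Lt T N)).length + k)
          (false, .xx)⟩) := by
    refine ⟨[], ((NT.rr (false, Lt.sym (.nonterminal S)) :: (o.map NT.rc ++
        (List.replicate k (NT.rc (false, .xx)) ++ [NT.rc (false, .xx)]))).map
          Symbol.nonterminal), _, _, _, _, ?_, ?_, Gram.HR.mk, ?_, ?_⟩
    · simp
    · simp [St.form, St.nts, tagged, Nat.add_comm, List.replicate_succ']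
    · intro B hB; exact hB.elim
    · intro B hB; exact hB.elim
  refine ReflTransGen.head h2 ?_
  have := hstar_of_star G S _ _ (sem_complete G hs [])
  simpa [fin_, St.form, St.nts] using this

section assembly

open Classical in
/-- a finite set given by a predicate -/
noncomputable def setF {α : Type} [Finite α] (P : α → Prop) : Finset α :=
  (Set.toFinite {X | P X}).toFinset

theorem mem_setF {α : Type} [Finite α] (P : α → Prop) (X : α) : X ∈ setF P ↔ P X := by
  simp [setF]

/-- the rules of the simulating grammar in the format of the statement -/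
def ruleSet (G : Gram T N ι) (S : N) [Finite (NT T N ι)] :
    Set (NT T N ι × List (Symbol T (NT T N ι)) × Finset (NT T N ι) × Finset (NT T N ι)) :=
  {r | ∃ A x U W, G.HR S A x U W ∧ r = (A, x, setF U, setF W)}

theorem ruleSet_finite (G : Gram T N ι) (S : N) [Finite T] [Finite N] [Finite ι]
    [Finite (NT T N ι)] : (ruleSet G S).Finite := by
  have := finite_Lt T N
  have := finite_Kd ι
  let R := NT T N ι × List (Symbol T (NT T N ι)) × Finset (NT T N ι) × Finset (NT T N ι)
  let f1 : Unit → R := fun _ => (.start, [.nonterminal .mark,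
    .nonterminal (.rr (false, Lt.sym (.nonterminal S))),
      .nonterminal (.gen true), .nonterminal (.rc (false, .xx))],
      setF (fun _ => False), setF (fun _ => False))
  let f2 : Bool → R := fun c => (.gen c, [.nonterminal (.rc (c, .cp)), .nonterminal (.gen c)],
      setF (fun X => X = .mark), setF (fun _ => False))
  let f3 : Bool × ι → R := fun c => (.gen c.1,
      ([.nonterminal (.rc (c.1, .ru c.2)), .nonterminal (.gen c.1)] ++
        List.replicate (G.ex c.2) (.nonterminal (.rc (false, .xx)))),
      setF (fun X => X = .mark), setF (fun _ => False))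
  let f4 : Bool → R := fun c => (.gen c, [.nonterminal (.gen (!c))],
      setF (fun X => X = .mark), setF (fun _ => False))
  let f5 : Unit → R := fun _ => (.gen true, [.nonterminal (.rc (true, .cp))],
      setF (fun X => X = .mark), setF (fun _ => False))
  let f6 : Unit → R := fun _ => (.mark, [], setF (fun _ => False), setF (fun _ => False))
  let f7 : Bool × Kd ι × Lt T N → R := fun z => (.rc (z.1, z.2.1),
      [.nonterminal (.vv (z.1, z.2.1, z.2.2))], setF (G.permP z.1 z.2.1 z.2.2),
      setF (G.forbP z.1 z.2.1))
  let f8 : Bool × Kd ι × Lt T N → R := fun z => (.vv (z.1, z.2.1, z.2.2),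
      ((G.res z.2.1 z.2.2).map (fun x => .nonterminal (.rr (z.1, x)))), setF (fun _ => False),
      setF (fun X => ∃ x, X = .aa x))
  let f9 : Bool × Lt T N → R := fun x => (.rr x, [.nonterminal (.aa x)], setF (fun _ => False),
      setF (fun _ => True))
  let f10 : Bool × Lt T N → R := fun x => (.aa x, (x.2.out.map .terminal), setF (fun _ => False),
      setF (fun _ => False))
  have hfin : (Set.range f1 ∪ Set.range f2 ∪ Set.range f3 ∪ Set.range f4 ∪ Set.range f5 ∪
      Set.range f6 ∪ Set.range f7 ∪ Set.range f8 ∪ Set.range f9 ∪ Set.range f10).Finite :=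
    (((((((((Set.finite_range f1).union (Set.finite_range f2)).union
      (Set.finite_range f3)).union (Set.finite_range f4)).union (Set.finite_range f5)).union
      (Set.finite_range f6)).union (Set.finite_range f7)).union (Set.finite_range f8)).union
      (Set.finite_range f9)).union (Set.finite_range f10)
  refine hfin.subset ?_
  rintro r ⟨A, x, U, W, h, rfl⟩
  simp only [Set.mem_union]
  cases h with
  | start =>
    exact Or.inl (Or.inl (Or.inl (Or.inl (Or.inl (Or.inl (Or.inl (Or.inl (Or.inl ⟨(), rfl⟩))))))))
  | gcp c =>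
    exact Or.inl (Or.inl (Or.inl (Or.inl (Or.inl (Or.inl (Or.inl (Or.inl (Or.inr ⟨c, rfl⟩))))))))
  | gru c i =>
    exact Or.inl (Or.inl (Or.inl (Or.inl (Or.inl (Or.inl (Or.inl (Or.inr ⟨(c, i), rfl⟩)))))))
  | gsw c => exact Or.inl (Or.inl (Or.inl (Or.inl (Or.inl (Or.inl (Or.inr ⟨c, rfl⟩))))))
  | gst => exact Or.inl (Or.inl (Or.inl (Or.inl (Or.inl (Or.inr ⟨(), rfl⟩)))))
  | mk => exact Or.inl (Or.inl (Or.inl (Or.inl (Or.inr ⟨(), rfl⟩))))
  | rc c k g h => exact Or.inl (Or.inl (Or.inl (Or.inr ⟨(c, k, g), rfl⟩)))
  | vv c k g => exact Or.inl (Or.inl (Or.inr ⟨(c, k, g), rfl⟩))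
  | rr x => exact Or.inl (Or.inr ⟨x, rfl⟩)
  | aa x => exact Or.inr ⟨x, rfl⟩

end assembly

/-- The simulated grammar of the statement, with its rules indexed by a finite type. -/
def toGram (T N : Type) (PL PR : Finset (N × List (Symbol T N) × Finset N × Finset N)) :
    Gram T N ({ρ // ρ ∈ PL} ⊕ {ρ // ρ ∈ PR}) where
  lhs := fun i => match i with
    | .inl ρ => ρ.1.1
    | .inr ρ => ρ.1.1
  rhs := fun i => match i with
    | .inl ρ => ρ.1.2.1
    | .inr ρ => ρ.1.2.1
  isL := fun i => match i with
    | .inl _ => True
    | .inr _ => False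
  U := fun i => match i with
    | .inl ρ => ρ.1.2.2.1
    | .inr ρ => ρ.1.2.2.1
  W := fun i => match i with
    | .inl ρ => ρ.1.2.2.2
    | .inr ρ => ρ.1.2.2.2

/-- Every one-sided random context grammar (finite rule sets, erasing allowed) has an equivalent one-sided random context grammar, generating the same terminal words, in which every right rule has empty permitting and forbidding sets. -/
theorem result :
    ∀ (T N : Type), Finite T → Finite N → ∀ (S : N)
      (PL PR : Finset (N × List (Symbol T N) × Finset N × Finset N)),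
    ∃ (N' : Type), Finite N' ∧ ∃ (S' : N')
      (PL' PR' : Finset (N' × List (Symbol T N') × Finset N' × Finset N')),
      (∀ (A : N') (x : List (Symbol T N')) (U W : Finset N'),
          (A, x, U, W) ∈ PR' → U = ∅ ∧ W = ∅) ∧
      ∀ w : List T,
        (Relation.ReflTransGen
          (fun (α β : List (Symbol T N)) =>
            ∃ (u v : List (Symbol T N)) (A : N) (x : List (Symbol T N)) (U W : Finset N),
              α = u ++ [Symbol.nonterminal A] ++ v ∧ β = u ++ x ++ v ∧
              (((A, x, U, W) ∈ PL ∧ (∀ B ∈ U, Symbol.nonterminal B ∈ u) ∧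
                  (∀ B ∈ W, Symbol.nonterminal B ∉ u)) ∨
               ((A, x, U, W) ∈ PR ∧ (∀ B ∈ U, Symbol.nonterminal B ∈ v) ∧
                  (∀ B ∈ W, Symbol.nonterminal B ∉ v))))
          [Symbol.nonterminal S] (w.map Symbol.terminal)
        ↔
        Relation.ReflTransGen
          (fun (α β : List (Symbol T N')) =>
            ∃ (u v : List (Symbol T N')) (A : N') (x : List (Symbol T N')) (U W : Finset N'),
              α = u ++ [Symbol.nonterminal A] ++ v ∧ β = u ++ x ++ v ∧
              (((A, x, U, W) ∈ PL' ∧ (∀ B ∈ U, Symbol.nonterminal B ∈ u) ∧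
                  (∀ B ∈ W, Symbol.nonterminal B ∉ u)) ∨
               ((A, x, U, W) ∈ PR' ∧ (∀ B ∈ U, Symbol.nonterminal B ∈ v) ∧
                  (∀ B ∈ W, Symbol.nonterminal B ∉ v))))
          [Symbol.nonterminal S'] (w.map Symbol.terminal)) := by
  intro T N hT hN S PL PR
  have := hT
  have := hN
  let ι := ({ρ // ρ ∈ PL} ⊕ {ρ // ρ ∈ PR})
  let G : Gram T N ι := toGram T N PL PR
  have hNT : Finite (NT T N ι) := finite_NT T N ι
  refine ⟨NT T N ι, hNT, NT.start, (ruleSet_finite G S).toFinset, ∅, by simp, ?_⟩
  intro w
  have e1 : (fun (α β : List (Symbol T N)) =>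
            ∃ (u v : List (Symbol T N)) (A : N) (x : List (Symbol T N)) (U W : Finset N),
              α = u ++ [Symbol.nonterminal A] ++ v ∧ β = u ++ x ++ v ∧
              (((A, x, U, W) ∈ PL ∧ (∀ B ∈ U, Symbol.nonterminal B ∈ u) ∧
                  (∀ B ∈ W, Symbol.nonterminal B ∉ u)) ∨
               ((A, x, U, W) ∈ PR ∧ (∀ B ∈ U, Symbol.nonterminal B ∈ v) ∧
                  (∀ B ∈ W, Symbol.nonterminal B ∉ v)))) = G.GStep := by
    funext α β
    apply propext
    constructor
    · rintro ⟨u, v, A, x, U, W, h1, h2, ⟨h3, h4⟩ | ⟨h3, h4⟩⟩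
      · exact ⟨u, v, Sum.inl ⟨_, h3⟩, h1, h2, fun _ => h4, fun h => (h trivial).elim⟩
      · exact ⟨u, v, Sum.inr ⟨_, h3⟩, h1, h2, fun h => h.elim, fun _ => h4⟩
    · rintro ⟨u, v, i, h1, h2, h3, h4⟩
      rcases i with ⟨⟨A, x, U, W⟩, hρ⟩ | ⟨⟨A, x, U, W⟩, hρ⟩
      · exact ⟨u, v, A, x, U, W, h1, h2, Or.inl ⟨hρ, h3 trivial⟩⟩
      · exact ⟨u, v, A, x, U, W, h1, h2, Or.inr ⟨hρ, h4 (fun h => h)⟩⟩
  have e2 : (fun (α β : List (Symbol T (NT T N ι))) =>
            ∃ (u v : List (Symbol T (NT T N ι))) (A : NT T N ι) (x : List (Symbol T (NT T N ι)))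
              (U W : Finset (NT T N ι)),
              α = u ++ [Symbol.nonterminal A] ++ v ∧ β = u ++ x ++ v ∧
              (((A, x, U, W) ∈ (ruleSet_finite G S).toFinset ∧
                  (∀ B ∈ U, Symbol.nonterminal B ∈ u) ∧
                  (∀ B ∈ W, Symbol.nonterminal B ∉ u)) ∨
               ((A, x, U, W) ∈ (∅ : Finset (NT T N ι × List (Symbol T (NT T N ι)) ×
                  Finset (NT T N ι) × Finset (NT T N ι))) ∧
                  (∀ B ∈ U, Symbol.nonterminal B ∈ v) ∧
                  (∀ B ∈ W, Symbol.nonterminal B ∉ v)))) = G.HStep S := by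
    funext α β
    apply propext
    constructor
    · rintro ⟨u, v, A, x, U, W, h1, h2, ⟨h3, h4, h5⟩ | ⟨h3, _⟩⟩
      · rw [Set.Finite.mem_toFinset] at h3
        obtain ⟨A', x', U', W', hr, he⟩ := h3
        simp only [Prod.mk.injEq] at he
        obtain ⟨rfl, rfl, rfl, rfl⟩ := he
        exact ⟨u, v, A, x, U', W', h1, h2, hr, fun B hB => h4 B ((mem_setF _ _).mpr hB),
          fun B hB => h5 B ((mem_setF _ _).mpr hB)⟩
      · simp at h3
    · rintro ⟨u, v, A, x, U, W, h1, h2, hr, h4, h5⟩
      refine ⟨u, v, A, x, setF U, setF W, h1, h2, Or.inl ⟨?_, ?_, ?_⟩⟩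
      · rw [Set.Finite.mem_toFinset]
        exact ⟨A, x, U, W, hr, rfl⟩
      · intro B hB
        exact h4 B ((mem_setF _ _).mp hB)
      · intro B hB
        exact h5 B ((mem_setF _ _).mp hB)
  rw [e1]
  change _ ↔ ReflTransGen (fun (α β : List (Symbol T (NT T N ι))) =>
            ∃ (u v : List (Symbol T (NT T N ι))) (A : NT T N ι) (x : List (Symbol T (NT T N ι)))
              (U W : Finset (NT T N ι)),
              α = u ++ [Symbol.nonterminal A] ++ v ∧ β = u ++ x ++ v ∧
              (((A, x, U, W) ∈ (ruleSet_finite G S).toFinset ∧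
                  (∀ B ∈ U, Symbol.nonterminal B ∈ u) ∧
                  (∀ B ∈ W, Symbol.nonterminal B ∉ u)) ∨
               ((A, x, U, W) ∈ (∅ : Finset (NT T N ι × List (Symbol T (NT T N ι)) ×
                  Finset (NT T N ι) × Finset (NT T N ι))) ∧
                  (∀ B ∈ U, Symbol.nonterminal B ∈ v) ∧
                  (∀ B ∈ W, Symbol.nonterminal B ∉ v)))) _ _
  rw [e2]
  exact ⟨complete G S w, sound G S w⟩

end Pool.Agent.S15649
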