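import Pool.Statements.S15727
import Pool.Agent.Helper13.FKM.Final

set_option autoImplicit false
open Pool Pool.MP_5536b7_mp

namespace Pool.Agent.S15727

/-- For every bounded connected smooth planar domain and every disk of equal area, each positive infinite-mass Dirac eigenvalue of the domain is at least some positive eigenvalue of the disk, i.e. the disk minimizes the first positive eigenvalue. -/
theorem result :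
    ∀ (Ω : Set (ℝ × ℝ)) (φ : ℝ × ℝ → ℝ),
      (∀ k : ℕ, ContDiff ℝ k φ) →
      Ω = {x | φ x < 0} →
      (∀ x, φ x = 0 → fderiv ℝ φ x ≠ 0) →
      Bornology.IsBounded Ω → IsConnected Ω →
      ∀ r : ℝ, 0 < r →
      MeasureTheory.volume Ω =
        MeasureTheory.volume {x : ℝ × ℝ | x.1 ^ 2 + x.2 ^ 2 < r ^ 2} →
      ∀ ν : ℝ, 0 < ν →
      ∀ u₁ u₂ : ℝ × ℝ → ℂ,
        (∀ k : ℕ, ContDiff ℝ k u₁) → (∀ k : ℕ, ContDiff ℝ k u₂) →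
        (∃ x ∈ Ω, u₁ x ≠ 0 ∨ u₂ x ≠ 0) →
        (∀ x ∈ Ω,
          -Complex.I * fderiv ℝ u₂ x (1, 0) - fderiv ℝ u₂ x (0, 1) = (ν : ℂ) * u₁ x ∧
          -Complex.I * fderiv ℝ u₁ x (1, 0) + fderiv ℝ u₁ x (0, 1) = (ν : ℂ) * u₂ x) →
        (∀ x, φ x = 0 →
          Complex.I *
            (((fderiv ℝ φ x (1, 0) /
                Real.sqrt (fderiv ℝ φ x (1, 0) ^ 2 + fderiv ℝ φ x (0, 1) ^ 2) : ℝ) : ℂ) +
             Complex.I *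
              ((fderiv ℝ φ x (0, 1) /
                Real.sqrt (fderiv ℝ φ x (1, 0) ^ 2 + fderiv ℝ φ x (0, 1) ^ 2) : ℝ) : ℂ)) *
            u₁ x = u₂ x) →
        ∃ μ : ℝ, 0 < μ ∧ μ ≤ ν ∧
          ∃ v₁ v₂ : ℝ × ℝ → ℂ,
            (∀ k : ℕ, ContDiff ℝ k v₁) ∧ (∀ k : ℕ, ContDiff ℝ k v₂) ∧
            (∃ x : ℝ × ℝ, x.1 ^ 2 + x.2 ^ 2 < r ^ 2 ∧ (v₁ x ≠ 0 ∨ v₂ x ≠ 0)) ∧
            (∀ x : ℝ × ℝ, x.1 ^ 2 + x.2 ^ 2 < r ^ 2 →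
              -Complex.I * fderiv ℝ v₂ x (1, 0) - fderiv ℝ v₂ x (0, 1) = (μ : ℂ) * v₁ x ∧
              -Complex.I * fderiv ℝ v₁ x (1, 0) + fderiv ℝ v₁ x (0, 1) = (μ : ℂ) * v₂ x) ∧
            (∀ x : ℝ × ℝ, x.1 ^ 2 + x.2 ^ 2 = r ^ 2 →
              Complex.I * (((x.1 / r : ℝ) : ℂ) + Complex.I * ((x.2 / r : ℝ) : ℂ)) * v₁ x
                = v₂ x) := by
  intro Ω φ hφ hΩ hnd hbd _ r hr hvol ν hν u₁ u₂ h₁ h₂ hne he hbc
  exact Pool.Agent.FKM.fk_full Ω φ hφ hΩ hnd hbd r hr hvol ν hν u₁ u₂ h₁ h₂ hne he hbc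

end Pool.Agent.S15727
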