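import Pool.Statements.S19091
import Pool.Agent.Helper12.IntComplexity

set_option autoImplicit false
open Pool Pool.MP_fe8330_nt

namespace Pool.Agent.S19091

/-- There is ε>0 such that for infinitely many n, every expression of n built from 1, + and · uses at least (3+ε)·log base 3 of n ones, i.e. the integer complexity of n is at least (3+ε) log_3 n. -/
theorem result :
    ∃ ε : ℝ, ε > 0 ∧ ∀ N : ℕ, ∃ n : ℕ, N < n ∧ ∀ k : ℕ,
      (∀ S : Set (ℕ × ℕ), (1, 1) ∈ S →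
        (∀ a i b j : ℕ, (a, i) ∈ S → (b, j) ∈ S →
          (a + b, i + j) ∈ S ∧ (a * b, i + j) ∈ S) →
        (n, k) ∈ S) →
      (3 + ε) * Real.logb 3 (n : ℝ) ≤ (k : ℝ) := by
  refine ⟨1 / 200, by norm_num, fun N => ?_⟩
  obtain ⟨n, hn, h⟩ := Pool.Agent.Helper12.IC.main_real N
  refine ⟨n, hn, fun k hk => h k ?_⟩
  exact hk {p | Pool.Agent.Helper12.IC.Rep p.1 p.2} Pool.Agent.Helper12.IC.Rep.one
    (fun a i b j h1 h2 => ⟨Pool.Agent.Helper12.IC.Rep.add h1 h2,
      Pool.Agent.Helper12.IC.Rep.mul h1 h2⟩)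

end Pool.Agent.S19091
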