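import Pool.Statements.S19431
import Pool.Agent.Helper94.ES.DTFinal
import Pool.Agent.Helper25.ES.Small
import Pool.Agent.Helper46.ES.FiniteCase
import Pool.Agent.Helper48.ES_Prob

set_option autoImplicit false
open MeasureTheory ProbabilityTheory Filter Topology
open Pool Pool.MP_7f94de_pr

namespace Pool.Agent.S19431

/-- For i.i.d. complex random variables Y_i that are not a.s. constant, any k(n) with k(n)/n → 0, and any ε > 0, the probability that the k(n)-th elementary symmetric polynomial of Y_1..Y_n has modulus at most exp(−εn) tends to 0. -/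
theorem result :
    ∀ (Ω : Type) [MeasurableSpace Ω] (P : Measure Ω) [IsProbabilityMeasure P]
      (Y : ℕ → Ω → ℂ),
      (∀ i, Measurable (Y i)) →
      iIndepFun Y P →
      (∀ i, IdentDistrib (Y i) (Y 0) P P) →
      (¬ ∃ c : ℂ, ∀ᵐ ω ∂P, Y 0 ω = c) →
      ∀ (k : ℕ → ℕ),
        Tendsto (fun n : ℕ => (k n : ℝ) / (n : ℝ)) atTop (𝓝 0) →
        ∀ ε : ℝ, 0 < ε →
          Tendsto
            (fun n : ℕ =>
              P {ω | ‖∑ s ∈ (Finset.range n).powersetCard (k n), ∏ i ∈ s, Y i ω‖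
                    ≤ Real.exp (-(ε * (n : ℝ)))})
            atTop (𝓝 0) := by
  intro Ω _ P _ Y hm hi hd hnd k hk ε hε
  by_cases hfin : ∃ S : Finset ℂ, ∀ᵐ ω ∂P, Y 0 ω ∈ S
  · exact Pool.Agent.Helper94.ES.finite_support_case Ω P Y hm hi hd hnd hfin k hk ε hε
  · exact Pool.Agent.Helper48.ES.infinite_support_of_DT Pool.Agent.Helper94.ES.poolDT
      Pool.Agent.Helper94.ES.smallDT Ω P Y hm hi hd (fun S hS => hfin ⟨S, hS⟩) k hk ε hε

end Pool.Agent.S19431
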